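import Pool.Agent.Lib.MP_5f80dd_lc.Meas

set_option autoImplicit false

/-!
Bi-embeddability of separable AF algebras is a complete analytic equivalence relation: every
analytic equivalence relation on a standard Borel space is Borel reducible to it.
-/

namespace Pool.Agent.Lib.MP_5f80dd_lc.AFVersion

open Pool.Agent.Lib.MP_5f80dd_lc

universe u v

/-- The space of codes for separable C*-algebras acting on `H`: sequences of bounded operators.
Each factor carries the weak operator topology, and the whole space the product topology. -/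
abbrev Codes (H : Type u) [NormedAddCommGroup H] [InnerProductSpace ℂ H] : Type u :=
  ℕ → (H →WOT[ℂ] H)

/-- A map into the space of codes is Borel if it is measurable for the Borel sigma-algebra
coming from the weak operator topology. -/
def IsBorelMap {H : Type u} [NormedAddCommGroup H] [InnerProductSpace ℂ H] {X : Type v}
    [MeasurableSpace X] (F : X → Codes H) : Prop :=
  @Measurable X (Codes H) _ (borel (Codes H)) F

/-- The C*-algebra generated by a subset of a C*-algebra: the norm closure of the generated
`*`-algebra. -/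
noncomputable def Generated {M : Type u} [CStarAlgebra M] (S : Set M) :
    NonUnitalStarSubalgebra ℂ M :=
  (NonUnitalStarAlgebra.adjoin ℂ S).topologicalClosure

/-- The C*-algebra coded by `γ`: it is generated by the entries of `γ`. -/
noncomputable def CStar {H : Type u} [NormedAddCommGroup H] [InnerProductSpace ℂ H]
    [CompleteSpace H] (γ : Codes H) : NonUnitalStarSubalgebra ℂ (H →L[ℂ] H) :=
  Generated (Set.range fun n => (γ n).toCLM)

/-- A concrete C*-algebra `A` (inside a C*-algebra `M`) is AF if it is the norm closure of the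
union of an increasing sequence of finite dimensional `*`-subalgebras. -/
def IsAF {M : Type u} [CStarAlgebra M] (A : NonUnitalStarSubalgebra ℂ M) : Prop :=
  ∃ B : ℕ → NonUnitalStarSubalgebra ℂ M, Monotone B ∧
    (∀ n, FiniteDimensional ℂ (B n)) ∧ (A : Set M) = closure (⋃ n, (B n : Set M))

/-- `A` embeds into `B`: there is an injective `*`-homomorphism from `A` to `B`. -/
def Embeds {M : Type u} [CStarAlgebra M] (A B : NonUnitalStarSubalgebra ℂ M) : Prop :=
  ∃ φ : A →⋆ₙₐ[ℂ] B, Function.Injective φ

/-- Bi-embeddability of the coded C*-algebras. -/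
def BiEmbeddable {H : Type u} [NormedAddCommGroup H] [InnerProductSpace ℂ H]
    [CompleteSpace H] (γ γ' : Codes H) : Prop :=
  Embeds (CStar γ) (CStar γ') ∧ Embeds (CStar γ') (CStar γ)

/-- A relation on a standard Borel space is analytic if it is the projection of a Borel set along
Baire space. -/
def IsAnalyticRel {X : Type v} [MeasurableSpace X] (E : X → X → Prop) : Prop :=
  ∃ S : Set ((X × X) × (ℕ → ℕ)), MeasurableSet S ∧ ∀ x y, E x y ↔ ∃ z, ((x, y), z) ∈ S

/-- The version for quasi-orders and embeddability. -/
theorem quasi (H : Type u) [NormedAddCommGroup H] [InnerProductSpace ℂ H] [CompleteSpace H]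
    [TopologicalSpace.SeparableSpace H] (hH : ¬ FiniteDimensional ℂ H)
    (X : Type v) [MeasurableSpace X] [StandardBorelSpace X] (E : X → X → Prop)
    (hr : ∀ x, E x x) (ht : ∀ x y z, E x y → E y z → E x z) (hA : IsAnalyticRel E) :
    ∃ F : X → Codes H, IsBorelMap F ∧ (∀ x, IsAF (CStar (F x))) ∧
      ∀ x y, E x y ↔ Embeds (CStar (F x)) (CStar (F y)) := by
  obtain ⟨b⟩ := exists_basis H hH
  obtain ⟨S, hS, hE⟩ := hA
  obtain ⟨ι, hιm, hιi⟩ := MeasurableSpace.measurable_injection_nat_bool_of_countablySeparated X
  obtain ⟨g, hg, hQ⟩ := exists_param hS hE hιm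
  obtain ⟨s, hs⟩ := exists_surjective_nat (List ℕ × Gam)
  have hmono : ∀ x, Mono (LL g x) := fun x t w h => LL_mono x h
  have hC : ∀ x, CStar (codeMap b s g x) = cst b (LL g x) (hmono x) := by
    intro x
    show (NonUnitalStarAlgebra.adjoin ℂ (Set.range (codeSeq b s (LL g x)))).topologicalClosure = _
    rw [adjoin_codeSeq b s hs (hmono x)]
    rfl
  refine ⟨fun x => codeMap b s g (ι x), ?_, ?_, ?_⟩
  · have h1 : @Measurable Cant (Codes H) _ (borel (Codes H)) (codeMap b s g) := by
      let _ : MeasurableSpace (Codes H) := borel (Codes H)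
      have _ : BorelSpace (Codes H) := ⟨rfl⟩
      exact (continuous_codeMap b s g).measurable
    exact @Measurable.comp X Cant (Codes H) _ _ (borel (Codes H)) _ _ h1 hιm
  · intro x
    obtain ⟨B, h1, h2, h3⟩ := exists_af b s (hmono (ι x))
    exact ⟨B, h1, h2, h3⟩
  · intro x y
    rw [← QQ_iff hιi hr x y]
    show _ ↔ Embeds (CStar (codeMap b s g (ι x))) (CStar (codeMap b s g (ι y)))
    rw [hC, hC]
    constructor
    · intro h
      obtain ⟨α, hα⟩ := exists_RR hQ h
      exact exists_embedding b α (hmono _) (hmono _) (LL_addl hα)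
    · rintro ⟨π, hπ⟩
      exact detect b hQ hg (fun a => Or.inl rfl) (QQ_trans hιi ht) (hmono _) (hmono _) π hπ

/-- Every analytic equivalence relation on a standard Borel space is Borel reducible to the
bi-embeddability relation on codes of separable AF algebras. -/
theorem result (H : Type u) [NormedAddCommGroup H] [InnerProductSpace ℂ H] [CompleteSpace H]
    [TopologicalSpace.SeparableSpace H] (hH : ¬ FiniteDimensional ℂ H)
    (X : Type v) [MeasurableSpace X] [StandardBorelSpace X] (E : X → X → Prop)
    (hE : Equivalence E) (hA : IsAnalyticRel E) :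
    ∃ F : X → Codes H, IsBorelMap F ∧ (∀ x, IsAF (CStar (F x))) ∧
      ∀ x y, E x y ↔ BiEmbeddable (F x) (F y) := by
  obtain ⟨F, h1, h2, h3⟩ := quasi H hH X E hE.refl (fun _ _ _ => hE.trans) hA
  refine ⟨F, h1, h2, fun x y => ?_⟩
  constructor
  · intro h
    exact ⟨(h3 x y).1 h, (h3 y x).1 (hE.symm h)⟩
  · intro h
    exact (h3 x y).2 h.1

end Pool.Agent.Lib.MP_5f80dd_lc.AFVersion
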