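import Pool.Agent.Lib.MP_5f80dd_lc.Gen

set_option autoImplicit false

namespace Pool.Agent.Lib.MP_5f80dd_lc

open scoped InnerProductSpace

theorem orthonormal_countable {ι : Type*} {H : Type*} [NormedAddCommGroup H]
    [InnerProductSpace ℂ H] [TopologicalSpace.SeparableSpace H] {v : ι → H}
    (hv : Orthonormal ℂ v) : Countable ι := by
  have hd : Pairwise fun i j => Disjoint (Metric.ball (v i) (1 / 2)) (Metric.ball (v j) (1 / 2)) := by
    intro i j hij
    apply Metric.ball_disjoint_ball
    have h1 : ‖v i - v j‖ ^ 2 = 2 := by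
      rw [@norm_sub_sq ℂ, hv.1 i, hv.1 j, hv.2 hij]
      simp
      norm_num
    rw [dist_eq_norm]
    nlinarith [norm_nonneg (v i - v j)]
  exact hd.countable_of_isOpen_disjoint (fun _ => Metric.isOpen_ball)
    (fun i => ⟨v i, Metric.mem_ball_self (by norm_num)⟩)

theorem exists_basis (H : Type*) [NormedAddCommGroup H] [InnerProductSpace ℂ H]
    [CompleteSpace H] [TopologicalSpace.SeparableSpace H] (hH : ¬ FiniteDimensional ℂ H) :
    Nonempty (HilbertBasis JJ ℂ H) := by
  obtain ⟨w, b, hb⟩ := exists_hilbertBasis ℂ H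
  have hw : Countable w := orthonormal_countable b.orthonormal
  have hwi : Infinite w := by
    by_contra hcon
    have hfin : Finite w := not_infinite_iff_finite.1 hcon
    have := Fintype.ofFinite w
    exact hH (b.toOrthonormalBasis.toBasis.finiteDimensional_of_finite)
  obtain ⟨e⟩ : Nonempty (JJ ≃ w) := nonempty_equiv_of_countable
  refine ⟨HilbertBasis.mk (v := fun j => b (e j)) (b.orthonormal.comp e e.injective) ?_⟩
  have : Set.range (fun j => b (e j)) = Set.range b := by
    rw [← Function.comp_def, Set.range_comp, e.surjective.range_eq, Set.image_univ]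
  rw [this, b.dense_span]

end Pool.Agent.Lib.MP_5f80dd_lc
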