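import Pool.Agent.Lib.MP_5f80dd_lc.Ops

set_option autoImplicit false

namespace Pool.Agent.Lib.MP_5f80dd_lc

open scoped InnerProductSpace ENNReal

/-- product type data: sites `J`, points `G`, multiplicities of the two signs, and the sign -/
structure PT (J G : Type) where
  /-- multiplicity of the trivial sign -/
  a : J → ℕ
  /-- multiplicity of the sign `c` -/
  b : J → ℕ
  /-- the sign of the site at a point -/
  c : J → G → ℤ
  hb : ∀ j, 1 ≤ b j
  hab : ∀ j, b j < a j
  hc : ∀ j z, c j z = 1 ∨ c j z = -1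

namespace PT

variable {J G : Type} (D : PT J G)

/-- the dimension of a site -/
def d (j : J) : ℕ := D.a j + D.b j

theorem d_pos (j : J) : 0 < D.d j := by
  have := D.hb j
  unfold d
  omega

/-- the supertrace of the unit of a site -/
def s (j : J) (z : G) : ℤ := D.a j + D.b j * D.c j z

theorem s_pos (j : J) (z : G) : 0 < D.s j z := by
  have h1 := D.hb j
  have h2 := D.hab j
  unfold s
  rcases D.hc j z with h | h <;> rw [h]
  · positivity
  · have : (D.b j : ℤ) < D.a j := by exact_mod_cast h2
    linarith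

/-- the sign of a state -/
def ls (j : J) (m : ℕ) (z : G) : ℤ := if m < D.a j then 1 else D.c j z

theorem ls_sq (j : J) (m : ℕ) (z : G) : D.ls j m z = 1 ∨ D.ls j m z = -1 := by
  unfold ls
  split_ifs
  · exact Or.inl rfl
  · exact D.hc j z

theorem sum_ls (j : J) (z : G) : ∑ m ∈ Finset.range (D.d j), D.ls j m z = D.s j z := by
  unfold d s
  rw [Finset.sum_range_add]
  have h1 : ∀ m ∈ Finset.range (D.a j), D.ls j m z = 1 := by
    intro m hm
    exact if_pos (Finset.mem_range.1 hm)
  have h2 : ∀ m ∈ Finset.range (D.b j), D.ls j (D.a j + m) z = D.c j z := by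
    intro m _
    exact if_neg (by omega)
  rw [Finset.sum_congr rfl h1, Finset.sum_congr rfl h2]
  simp

/-- configurations -/
def Om : Type := {ω : J →₀ ℕ // ∀ j, ω j < D.d j}

instance [Countable J] : Countable D.Om := inferInstanceAs (Countable {ω : J →₀ ℕ // _})

instance : Zero D.Om := ⟨⟨0, fun j => D.d_pos j⟩⟩

/-- the value of a configuration at a site -/
def va (ω : D.Om) (j : J) : ℕ := ω.1 j

variable {D}

theorem va_lt (ω : D.Om) (j : J) : D.va ω j < D.d j := ω.2 j

theorem va_zero (j : J) : D.va 0 j = 0 := rfl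

theorem om_ext {ω ω' : D.Om} (h : ∀ j, D.va ω j = D.va ω' j) : ω = ω' :=
  Subtype.ext (Finsupp.ext h)

variable [DecidableEq J]

/-- replace the part of `ω` in `F` by that of `v` -/
noncomputable def upd (F : Finset J) (ω v : D.Om) : D.Om :=
  ⟨Finsupp.onFinset (ω.1.support ∪ F) (fun j => if j ∈ F then v.1 j else ω.1 j) (by
    intro j hj
    by_cases h : j ∈ F
    · simp [h]
    · rw [if_neg h] at hj
      simp only [Finset.mem_union, Finsupp.mem_support_iff]
      exact Or.inl hj), by
    intro j
    show (if j ∈ F then v.1 j else ω.1 j) < D.d j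
    split_ifs
    · exact v.2 j
    · exact ω.2 j⟩

theorem va_upd (F : Finset J) (ω v : D.Om) (j : J) :
    D.va (upd F ω v) j = if j ∈ F then D.va v j else D.va ω j := rfl

theorem va_upd_mem {F : Finset J} {j : J} (h : j ∈ F) (ω v : D.Om) :
    D.va (upd F ω v) j = D.va v j := if_pos h

theorem va_upd_not_mem {F : Finset J} {j : J} (h : j ∉ F) (ω v : D.Om) :
    D.va (upd F ω v) j = D.va ω j := if_neg h

/-- agreement on `F` -/
def agr (F : Finset J) (ω v : D.Om) : Prop := ∀ j ∈ F, D.va ω j = D.va v j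

omit [DecidableEq J] in
theorem agr.symm {F : Finset J} {ω v : D.Om} (h : agr F ω v) : agr F v ω :=
  fun j hj => (h j hj).symm

omit [DecidableEq J] in
theorem agr.trans {F : Finset J} {ω v w : D.Om} (h : agr F ω v) (h' : agr F v w) : agr F ω w :=
  fun j hj => (h j hj).trans (h' j hj)

omit [DecidableEq J] in
theorem agr.refl (F : Finset J) (ω : D.Om) : agr F ω ω := fun _ _ => rfl

theorem agr_upd (F : Finset J) (ω v : D.Om) : agr F (upd F ω v) v :=
  fun _ hj => va_upd_mem hj ω v

theorem upd_upd (F : Finset J) (ω v w : D.Om) : upd F (upd F ω v) w = upd F ω w := by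
  apply om_ext
  intro j
  by_cases h : j ∈ F
  · rw [va_upd_mem h, va_upd_mem h]
  · rw [va_upd_not_mem h, va_upd_not_mem h, va_upd_not_mem h]

theorem upd_self {F : Finset J} {ω v : D.Om} (h : agr F ω v) : upd F ω v = ω := by
  apply om_ext
  intro j
  by_cases hj : j ∈ F
  · rw [va_upd_mem hj, h j hj]
  · rw [va_upd_not_mem hj]

theorem upd_congr {F : Finset J} (ω : D.Om) {v w : D.Om} (h : agr F v w) :
    upd F ω v = upd F ω w := by
  apply om_ext
  intro j
  by_cases hj : j ∈ F
  · rw [va_upd_mem hj, va_upd_mem hj, h j hj]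
  · rw [va_upd_not_mem hj, va_upd_not_mem hj]

theorem agr_upd_iff (F : Finset J) (ω v w : D.Om) : agr F (upd F ω v) w ↔ agr F v w :=
  ⟨fun h => (agr_upd F ω v).symm.trans h, fun h => (agr_upd F ω v).trans h⟩

open Classical in
/-- the exchange of the `F`-parts `v` and `w` -/
noncomputable def pf (F : Finset J) (v w ω : D.Om) : D.Om :=
  if agr F ω v then upd F ω w else if agr F ω w then upd F ω v else ω

theorem pf_pos {F : Finset J} {v ω : D.Om} (w : D.Om) (h : agr F ω v) :
    pf F v w ω = upd F ω w := if_pos h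

theorem pf_pos' {F : Finset J} {v w ω : D.Om} (h : agr F ω w) : pf F v w ω = upd F ω v := by
  unfold pf
  split_ifs with h1
  · rw [upd_self h, upd_self h1]
  · rfl

theorem pf_neg {F : Finset J} {v w ω : D.Om} (h : ¬ agr F ω v) (h' : ¬ agr F ω w) :
    pf F v w ω = ω := by
  unfold pf
  rw [if_neg h, if_neg h']

theorem pf_pf (F : Finset J) (v w ω : D.Om) : pf F v w (pf F v w ω) = ω := by
  by_cases h : agr F ω v
  · rw [pf_pos w h, pf_pos' (agr_upd F ω w), upd_upd, upd_self h]
  · by_cases h' : agr F ω w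
    · rw [pf_pos' h', pf_pos w (agr_upd F ω v), upd_upd, upd_self h']
    · rw [pf_neg h h', pf_neg h h']

/-- the exchange of the `F`-parts `v` and `w` as a permutation -/
noncomputable def perm (F : Finset J) (v w : D.Om) : D.Om ≃ D.Om where
  toFun := pf F v w
  invFun := pf F v w
  left_inv := pf_pf F v w
  right_inv := pf_pf F v w

open Classical in
/-- the indicator of a cylinder -/
noncomputable def coef (F : Finset J) (v ω : D.Om) : ℂ := if agr F ω v then 1 else 0

omit [DecidableEq J] in
theorem norm_coef (F : Finset J) (v ω : D.Om) : ‖coef F v ω‖ ≤ 1 := by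
  unfold coef
  split_ifs <;> simp

omit [DecidableEq J] in
theorem coef_pos {F : Finset J} {v ω : D.Om} (h : agr F ω v) : coef F v ω = 1 := if_pos h

omit [DecidableEq J] in
theorem coef_neg {F : Finset J} {v ω : D.Om} (h : ¬ agr F ω v) : coef F v ω = 0 := if_neg h

variable {H : Type*} [NormedAddCommGroup H] [InnerProductSpace ℂ H] (b : HilbertBasis D.Om ℂ H)

/-- matrix units -/
noncomputable def E (F : Finset J) (v w : D.Om) : H →L[ℂ] H :=
  wp b (perm F v w) (coef F v) (norm_coef F v)

theorem repr_E_pos {F : Finset J} {v ω : D.Om} (h : agr F ω v) (w : D.Om) (ξ : H) :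
    b.repr (E b F v w ξ) ω = b.repr ξ (upd F ω w) := by
  rw [E, repr_wp, coef_pos h, one_mul]
  show b.repr ξ (pf F v w ω) = _
  rw [pf_pos w h]

theorem repr_E_neg {F : Finset J} {v ω : D.Om} (h : ¬ agr F ω v) (w : D.Om) (ξ : H) :
    b.repr (E b F v w ξ) ω = 0 := by
  rw [E, repr_wp, coef_neg h, zero_mul]

theorem E_congr {F : Finset J} {v v' w w' : D.Om} (hv : agr F v v') (hw : agr F w w') :
    E b F v w = E b F v' w' := by
  apply op_ext b
  intro ξ ω
  by_cases h : agr F ω v
  · rw [repr_E_pos b h, repr_E_pos b (h.trans hv), upd_congr ω hw]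
  · rw [repr_E_neg b h, repr_E_neg b (fun h' => h (h'.trans hv.symm))]

theorem E_mul_pos {F : Finset J} {v' w : D.Om} (h : agr F w v') (v w' : D.Om) :
    E b F v w * E b F v' w' = E b F v w' := by
  apply op_ext b
  intro ξ ω
  have e : (E b F v w * E b F v' w') ξ = E b F v w (E b F v' w' ξ) := rfl
  rw [e]
  by_cases h1 : agr F ω v
  · rw [repr_E_pos b h1, repr_E_pos b ((agr_upd F ω w).trans h), repr_E_pos b h1, upd_upd]
  · rw [repr_E_neg b h1, repr_E_neg b h1]

theorem E_mul_neg {F : Finset J} {v' w : D.Om} (h : ¬ agr F w v') (v w' : D.Om) :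
    E b F v w * E b F v' w' = 0 := by
  apply op_ext b
  intro ξ ω
  have e : (E b F v w * E b F v' w') ξ = E b F v w (E b F v' w' ξ) := rfl
  have e0 : b.repr ((0 : H →L[ℂ] H) ξ) ω = 0 := by
    show b.repr (0 : H) ω = 0
    rw [map_zero]
    rfl
  rw [e, e0]
  by_cases h1 : agr F ω v
  · rw [repr_E_pos b h1, repr_E_neg b]
    intro h2
    exact h ((agr_upd F ω w).symm.trans h2)
  · rw [repr_E_neg b h1]

theorem E_empty (v w : D.Om) : E b ∅ v w = 1 := by
  apply op_ext b
  intro ξ ω
  rw [repr_E_pos b (fun j hj => absurd hj (Finset.notMem_empty j))]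
  rw [upd_self (fun j hj => absurd hj (Finset.notMem_empty j))]
  rfl

/-- change one coordinate -/
noncomputable def up1 (v : D.Om) (j : J) (m : ℕ) : D.Om :=
  if h : m < D.d j then ⟨v.1.update j m, by
    intro i
    rw [Finsupp.update_apply]
    split_ifs with hi
    · rw [hi]; exact h
    · exact v.2 i⟩ else v

theorem va_up1_self (v : D.Om) {j : J} {m : ℕ} (h : m < D.d j) : D.va (up1 v j m) j = m := by
  unfold up1
  rw [dif_pos h]
  show (v.1.update j m) j = m
  simp

theorem va_up1_ne (v : D.Om) {j i : J} (m : ℕ) (hi : i ≠ j) :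
    D.va (up1 v j m) i = D.va v i := by
  unfold up1
  split_ifs with h
  · show (v.1.update j m) i = v.1 i
    rw [Finsupp.update_apply, if_neg hi]
  · rfl

theorem agr_insert_up1 {F : Finset J} {j : J} (hj : j ∉ F) (ω v : D.Om) {m : ℕ}
    (hm : m < D.d j) : agr (insert j F) ω (up1 v j m) ↔ agr F ω v ∧ D.va ω j = m := by
  constructor
  · intro h
    refine ⟨fun i hi => ?_, ?_⟩
    · have := h i (Finset.mem_insert_of_mem hi)
      rwa [va_up1_ne v m (ne_of_mem_of_not_mem hi hj)] at this
    · have := h j (Finset.mem_insert_self j F)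
      rwa [va_up1_self v hm] at this
  · rintro ⟨h1, h2⟩ i hi
    rcases Finset.mem_insert.1 hi with rfl | hi
    · rw [va_up1_self v hm, h2]
    · rw [va_up1_ne v m (ne_of_mem_of_not_mem hi hj)]
      exact h1 i hi

theorem upd_insert_up1 {F : Finset J} {j : J} (hj : j ∉ F) (ω w : D.Om) :
    upd (insert j F) ω (up1 w j (D.va ω j)) = upd F ω w := by
  apply om_ext
  intro i
  by_cases hi : i = j
  · subst hi
    rw [va_upd_mem (Finset.mem_insert_self i F), va_up1_self w (va_lt ω i), va_upd_not_mem hj]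
  · rw [va_upd, va_upd, va_up1_ne w _ hi]
    simp [hi]

theorem sum_apply_repr {ι : Type*} (t : Finset ι) (X : ι → (H →L[ℂ] H)) (ξ : H) (ω : D.Om) :
    b.repr ((∑ i ∈ t, X i) ξ) ω = ∑ i ∈ t, b.repr (X i ξ) ω := by
  classical
  induction t using Finset.induction_on with
  | empty =>
    simp only [Finset.sum_empty]
    show b.repr (0 : H) ω = 0
    rw [map_zero]
    rfl
  | insert i t hi ih =>
    rw [Finset.sum_insert hi, Finset.sum_insert hi, ← ih]
    show b.repr (X i ξ + (∑ i ∈ t, X i) ξ) ω = _
    rw [map_add]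
    rfl

/-- refinement of matrix units by one site -/
theorem E_insert {F : Finset J} {j : J} (hj : j ∉ F) (v w : D.Om) :
    E b F v w = ∑ m ∈ Finset.range (D.d j), E b (insert j F) (up1 v j m) (up1 w j m) := by
  apply op_ext b
  intro ξ ω
  rw [sum_apply_repr]
  by_cases h : agr F ω v
  · rw [repr_E_pos b h, Finset.sum_eq_single (D.va ω j)]
    · rw [repr_E_pos b ((agr_insert_up1 hj ω v (va_lt ω j)).2 ⟨h, rfl⟩), upd_insert_up1 hj]
    · intro m hm hne
      rw [repr_E_neg b]
      intro h'
      exact hne ((agr_insert_up1 hj ω v (Finset.mem_range.1 hm)).1 h').2.symm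
    · intro h'
      exact absurd (Finset.mem_range.2 (va_lt ω j)) h'
  · rw [repr_E_neg b h]
    symm
    refine Finset.sum_eq_zero fun m hm => ?_
    rw [repr_E_neg b]
    intro h'
    exact h ((agr_insert_up1 hj ω v (Finset.mem_range.1 hm)).1 h').1

section

variable [CompleteSpace H]

theorem star_E (F : Finset J) (v w : D.Om) : star (E b F v w) = E b F w v := by
  rw [E, adjoint_wp b (perm F v w) (coef F v) (norm_coef F v) (coef F w) (norm_coef F w)]
  · apply op_ext b
    intro ξ ω
    rw [repr_wp, E, repr_wp]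
    by_cases h : agr F ω w
    · show _ * b.repr ξ (pf F v w ω) = _ * b.repr ξ (pf F w v ω)
      rw [pf_pos' h, pf_pos v h]
    · rw [coef_neg h, zero_mul, zero_mul]
  · intro ω
    show coef F w (pf F v w ω) = _
    by_cases h : agr F ω v
    · rw [pf_pos w h, coef_pos (agr_upd F ω w), coef_pos h, map_one]
    · rw [coef_neg h, map_zero]
      by_cases h' : agr F ω w
      · rw [pf_pos' h', coef_neg]
        intro h2
        exact h (h'.trans ((agr_upd F ω v).symm.trans h2).symm)
      · rw [pf_neg h h', coef_neg h']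

end

end PT

end Pool.Agent.Lib.MP_5f80dd_lc
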