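import Mathlib

set_option autoImplicit false

namespace Pool.Agent.Lib.MP_5f80dd_lc

open Filter Topology

/-- two sequences agree below `n` -/
def agree {α : Type} (n : ℕ) (a b : ℕ → α) : Prop := ∀ i, i < n → a i = b i

theorem agree.symm {α : Type} {n : ℕ} {a b : ℕ → α} (h : agree n a b) : agree n b a :=
  fun i hi => (h i hi).symm

theorem agree.trans {α : Type} {n : ℕ} {a b c : ℕ → α} (h : agree n a b) (h' : agree n b c) :
    agree n a c := fun i hi => (h i hi).trans (h' i hi)

theorem agree.refl {α : Type} (n : ℕ) (a : ℕ → α) : agree n a a := fun _ _ => rfl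

theorem agree.mono {α : Type} {n m : ℕ} {a b : ℕ → α} (h : agree n a b) (hm : m ≤ n) :
    agree m a b := fun i hi => h i (hi.trans_le hm)

/-- a point of Cantor space -/
abbrev Cant := ℕ → Bool

/-- the one step relation at level `n` -/
def link (g : (ℕ → ℕ) → Cant × Cant) (n : ℕ) (γ : ℕ → ℕ) (a b : Cant) : Prop :=
  agree n a b ∨ ∃ δ : ℕ → ℕ, agree n (g δ).1 a ∧ agree n (g δ).2 b ∧
    ∀ i, i + 1 < n → δ i ≤ γ (i + 1)

/-- the tree of finite approximations to the chain relation -/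
def RR (g : (ℕ → ℕ) → Cant × Cant) (n : ℕ) (x y : Cant) (γ : ℕ → ℕ) : Prop :=
  ∃ z : ℕ → Cant, agree n (z 0) x ∧ agree n (z (γ 0)) y ∧
    ∀ i, i < γ 0 → link g n γ (z i) (z (i + 1))

variable {g : (ℕ → ℕ) → Cant × Cant}

theorem link.mono_gam {n : ℕ} {γ γ' : ℕ → ℕ} {a b : Cant} (h : link g n γ a b)
    (hγ : ∀ i, i + 1 < n → γ (i + 1) ≤ γ' (i + 1)) : link g n γ' a b := by
  rcases h with h | ⟨δ, h1, h2, h3⟩
  · exact Or.inl h
  · exact Or.inr ⟨δ, h1, h2, fun i hi => (h3 i hi).trans (hγ i hi)⟩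

theorem RR_zero (x y : Cant) (γ : ℕ → ℕ) : RR g 0 x y γ := by
  refine ⟨fun _ => x, fun i hi => absurd hi (Nat.not_lt_zero _),
    fun i hi => absurd hi (Nat.not_lt_zero _), fun i _ => Or.inl (agree.refl _ _)⟩

theorem RR_congr {n : ℕ} {x x' y y' : Cant} {γ γ' : ℕ → ℕ} (hx : agree n x x')
    (hy : agree n y y') (hγ : agree n γ γ') (h : RR g n x y γ) : RR g n x' y' γ' := by
  rcases Nat.eq_zero_or_pos n with hn | hn
  · subst hn
    exact RR_zero _ _ _
  · obtain ⟨z, h1, h2, h3⟩ := h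
    have h0 : γ 0 = γ' 0 := hγ 0 hn
    refine ⟨z, h1.trans hx, ?_, ?_⟩
    · rw [← h0]
      exact h2.trans hy
    · intro i hi
      rw [← h0] at hi
      exact (h3 i hi).mono_gam (fun j hj => (hγ (j + 1) hj).le)

theorem RR_mono {n m : ℕ} {x y : Cant} {γ : ℕ → ℕ} (hm : m ≤ n) (h : RR g n x y γ) :
    RR g m x y γ := by
  obtain ⟨z, h1, h2, h3⟩ := h
  refine ⟨z, h1.mono hm, h2.mono hm, fun i hi => ?_⟩
  rcases h3 i hi with h | ⟨δ, h4, h5, h6⟩
  · exact Or.inl (h.mono hm)
  · exact Or.inr ⟨δ, h4.mono hm, h5.mono hm, fun j hj => h6 j (hj.trans_le hm)⟩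

theorem RR_refl (n : ℕ) (x : Cant) (γ : ℕ → ℕ) : RR g n x x γ :=
  ⟨fun _ => x, agree.refl _ _, agree.refl _ _, fun _ _ => Or.inl (agree.refl _ _)⟩

theorem RR_trans {n : ℕ} {x y w : Cant} {γ γ' : ℕ → ℕ} (h : RR g n x y γ)
    (h' : RR g n y w γ') : RR g n x w (fun i => γ i + γ' i) := by
  obtain ⟨z, h1, h2, h3⟩ := h
  obtain ⟨z', h1', h2', h3'⟩ := h'
  refine ⟨fun i => if i < γ 0 then z i else z' (i - γ 0), ?_, ?_, ?_⟩
  · by_cases h0 : 0 < γ 0
    · simp only [h0, if_true]
      exact h1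
    · have h0' : γ 0 = 0 := by omega
      simp only [h0, if_false]
      rw [h0'] at h2 ⊢
      exact h1'.trans (h2.symm.trans h1)
  · have : ¬ (γ 0 + γ' 0 < γ 0) := by omega
    simp only [this, if_false]
    rw [Nat.add_sub_cancel_left]
    exact h2'
  · intro i hi
    have hle : ∀ j, j + 1 < n → γ (j + 1) ≤ γ (j + 1) + γ' (j + 1) := fun j _ =>
      Nat.le_add_right _ _
    have hle' : ∀ j, j + 1 < n → γ' (j + 1) ≤ γ (j + 1) + γ' (j + 1) := fun j _ =>
      Nat.le_add_left _ _
    by_cases hi1 : i + 1 < γ 0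
    · have hi2 : i < γ 0 := by omega
      simp only [hi1, hi2, if_true]
      exact (h3 i hi2).mono_gam hle
    · by_cases hi2 : i < γ 0
      · have hi3 : i + 1 = γ 0 := by omega
        have hk := h3 i hi2
        rw [hi3] at hk
        simp only [hi1, hi2, if_true, if_false]
        rw [hi3, Nat.sub_self]
        have hag : agree n (z (γ 0)) (z' 0) := h2.trans h1'.symm
        rcases hk with hk | ⟨δ, h4, h5, h6⟩
        · exact Or.inl (hk.trans hag)
        · exact Or.inr ⟨δ, h4, h5.trans hag, fun j hj => (h6 j hj).trans (hle j hj)⟩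
      · simp only [hi1, hi2, if_false]
        have hi4 : i + 1 - γ 0 = (i - γ 0) + 1 := by omega
        rw [hi4]
        have hi5 : i < γ 0 + γ' 0 := hi
        exact (h3' (i - γ 0) (by omega)).mono_gam hle'

theorem exists_RR {Q : Cant → Cant → Prop} (hg : ∀ a b, Q a b ↔ ∃ δ, g δ = (a, b))
    {x y : Cant} (h : Q x y) : ∃ γ : ℕ → ℕ, ∀ n, RR g n x y γ := by
  obtain ⟨δ, hδ⟩ := (hg x y).1 h
  refine ⟨fun i => if i = 0 then 1 else δ (i - 1), fun n => ?_⟩
  refine ⟨fun i => if i = 0 then x else y, ?_, ?_, ?_⟩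
  · simp only [if_true]
    exact agree.refl _ _
  · simp only [if_true]
    exact agree.refl _ _
  · intro i hi
    simp only [if_true] at hi
    have hi0 : i = 0 := by omega
    subst hi0
    right
    refine ⟨δ, ?_, ?_, ?_⟩
    · rw [hδ]; exact agree.refl _ _
    · rw [hδ]; exact agree.refl _ _
    · intro j _
      simp

theorem ultra_bool (U : Ultrafilter ℕ) (f : ℕ → Bool) : ∃ b, ∀ᶠ n in (U : Filter ℕ), f n = b := by
  rcases U.em (fun n => f n = true) with h | h
  · exact ⟨true, h⟩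
  · refine ⟨false, h.mono fun n hn => ?_⟩
    cases hf : f n
    · rfl
    · exact absurd hf hn

theorem ultra_bdd (U : Ultrafilter ℕ) (f : ℕ → ℕ) (N : ℕ)
    (h : ∀ᶠ n in (U : Filter ℕ), f n ≤ N) : ∃ b, ∀ᶠ n in (U : Filter ℕ), f n = b := by
  induction N with
  | zero => exact ⟨0, h.mono fun n hn => Nat.le_zero.1 hn⟩
  | succ N ih =>
    rcases U.em (fun n => f n ≤ N) with h' | h'
    · exact ih h'
    · refine ⟨N + 1, ?_⟩
      filter_upwards [h, h'] with n h1 h2
      omega

theorem of_RR {Q : Cant → Cant → Prop} (hg : ∀ a b, Q a b ↔ ∃ δ, g δ = (a, b))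
    (hc : Continuous g) (hrefl : ∀ a, Q a a) (htrans : ∀ a b c, Q a b → Q b c → Q a c)
    {x y : Cant} {γ : ℕ → ℕ} (h : ∀ n, RR g n x y γ) : Q x y := by
  choose z h1 h2 h3 using h
  let U : Ultrafilter ℕ := Filter.hyperfilter ℕ
  have hU : ∀ m, ∀ᶠ n in (U : Filter ℕ), m < n := by
    intro m
    have : ∀ᶠ n in (atTop : Filter ℕ), m < n := eventually_gt_atTop m
    exact Nat.hyperfilter_le_atTop this
  have hz : ∀ i m, ∃ b, ∀ᶠ n in (U : Filter ℕ), z n i m = b := fun i m =>
    ultra_bool U (fun n => z n i m)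
  choose w hw using hz
  have hw0 : w 0 = x := by
    funext m
    have := (hw 0 m).and (hU m)
    obtain ⟨n, hn1, hn2⟩ := this.exists
    rw [← hn1]
    exact h1 n m hn2
  have hwk : w (γ 0) = y := by
    funext m
    have := (hw (γ 0) m).and (hU m)
    obtain ⟨n, hn1, hn2⟩ := this.exists
    rw [← hn1]
    exact h2 n m hn2
  have hstep : ∀ i, i < γ 0 → Q (w i) (w (i + 1)) := by
    intro i hi
    rcases U.em (fun n => agree n (z n i) (z n (i + 1))) with hE | hE
    · have : w i = w (i + 1) := by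
        funext m
        obtain ⟨n, ⟨⟨hn1, hn2⟩, hn3⟩, hn4⟩ :=
          ((((hw i m).and (hw (i + 1) m)).and hE).and (hU m)).exists
        rw [← hn1, ← hn2]
        exact hn3 m hn4
      rw [this]
      exact hrefl _
    · have hL : ∀ n, ¬ agree n (z n i) (z n (i + 1)) → ∃ δ : ℕ → ℕ, agree n (g δ).1 (z n i) ∧
          agree n (g δ).2 (z n (i + 1)) ∧ ∀ j, j + 1 < n → δ j ≤ γ (j + 1) := by
        intro n hn
        rcases h3 n i hi with h | h
        · exact absurd h hn
        · exact h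
      have hL' : ∀ n, ∃ δ : ℕ → ℕ, ¬ agree n (z n i) (z n (i + 1)) → agree n (g δ).1 (z n i) ∧
          agree n (g δ).2 (z n (i + 1)) ∧ ∀ j, j + 1 < n → δ j ≤ γ (j + 1) := by
        intro n
        by_cases hn : agree n (z n i) (z n (i + 1))
        · exact ⟨fun _ => 0, fun h => absurd hn h⟩
        · obtain ⟨δ, hδ⟩ := hL n hn
          exact ⟨δ, fun _ => hδ⟩
      choose D hD using hL'
      have hbd : ∀ m, ∃ b, ∀ᶠ n in (U : Filter ℕ), D n m = b := by
        intro m
        refine ultra_bdd U (fun n => D n m) (γ (m + 1)) ?_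
        filter_upwards [hE, hU (m + 1)] with n hn1 hn2
        exact (hD n hn1).2.2 m hn2
      choose d hd using hbd
      have hlim : Tendsto D (U : Filter ℕ) (𝓝 d) := by
        rw [tendsto_pi_nhds]
        intro m
        exact tendsto_nhds_of_eventually_eq (hd m)
      have hglim : Tendsto (fun n => g (D n)) (U : Filter ℕ) (𝓝 (g d)) :=
        (hc.tendsto d).comp hlim
      have e1 : (g d).1 = w i := by
        funext m
        have t1 : Tendsto (fun n => (g (D n)).1 m) (U : Filter ℕ) (𝓝 ((g d).1 m)) :=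
          ((continuous_apply m).comp continuous_fst).tendsto _ |>.comp hglim
        have t2 : Tendsto (fun n => (g (D n)).1 m) (U : Filter ℕ) (𝓝 (w i m)) := by
          refine tendsto_nhds_of_eventually_eq ?_
          filter_upwards [hE, hU m, hw i m] with n hn1 hn2 hn3
          rw [← hn3]
          exact (hD n hn1).1 m hn2
        exact tendsto_nhds_unique t1 t2
      have e2 : (g d).2 = w (i + 1) := by
        funext m
        have t1 : Tendsto (fun n => (g (D n)).2 m) (U : Filter ℕ) (𝓝 ((g d).2 m)) :=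
          ((continuous_apply m).comp continuous_snd).tendsto _ |>.comp hglim
        have t2 : Tendsto (fun n => (g (D n)).2 m) (U : Filter ℕ) (𝓝 (w (i + 1) m)) := by
          refine tendsto_nhds_of_eventually_eq ?_
          filter_upwards [hE, hU m, hw (i + 1) m] with n hn1 hn2 hn3
          rw [← hn3]
          exact (hD n hn1).2.1 m hn2
        exact tendsto_nhds_unique t1 t2
      rw [hg]
      exact ⟨d, Prod.ext e1 e2⟩
  have hall : ∀ i, i ≤ γ 0 → Q (w 0) (w i) := by
    intro i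
    induction i with
    | zero => intro _; exact hrefl _
    | succ i ih => intro hi; exact htrans _ _ _ (ih (by omega)) (hstep i (by omega))
  have := hall (γ 0) le_rfl
  rwa [hw0, hwk] at this

end Pool.Agent.Lib.MP_5f80dd_lc
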