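import Pool.Agent.Lib.MP_5f80dd_lc.Gen

set_option autoImplicit false

namespace Pool.Agent.Lib.MP_5f80dd_lc

open scoped InnerProductSpace ENNReal

variable {H : Type*} [NormedAddCommGroup H] [InnerProductSpace ℂ H] [CompleteSpace H]

/-- conjugation by a unitary -/
noncomputable def conjHom (U : H →L[ℂ] H) (h : star U * U = 1) :
    (H →L[ℂ] H) →⋆ₙₐ[ℂ] (H →L[ℂ] H) where
  toFun X := U * X * star U
  map_smul' c X := by simp
  map_zero' := by simp
  map_add' X Y := by simp [mul_add, add_mul]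
  map_mul' X Y := by
    calc U * (X * Y) * star U = U * X * 1 * Y * star U := by simp [mul_assoc]
      _ = U * X * star U * (U * Y * star U) := by rw [← h]; simp [mul_assoc]
  map_star' X := by simp [mul_assoc]

theorem conjHom_apply (U : H →L[ℂ] H) (h : star U * U = 1) (X : H →L[ℂ] H) :
    conjHom U h X = U * X * star U := rfl

theorem conjHom_injective (U : H →L[ℂ] H) (h : star U * U = 1) :
    Function.Injective (conjHom U h) := by
  intro X Y hXY
  rw [conjHom_apply, conjHom_apply] at hXY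
  calc X = star U * U * X * (star U * U) := by rw [h]; simp
    _ = star U * (U * X * star U) * U := by simp [mul_assoc]
    _ = star U * (U * Y * star U) * U := by rw [hXY]
    _ = star U * U * Y * (star U * U) := by simp [mul_assoc]
    _ = Y := by rw [h]; simp

/-- permutation of the basis -/
def permJ (θ : (List ℕ × ℕ) ≃ (List ℕ × ℕ)) : JJ ≃ JJ where
  toFun i := ((θ (i.1, i.2.1)).1, (θ (i.1, i.2.1)).2, i.2.2)
  invFun i := ((θ.symm (i.1, i.2.1)).1, (θ.symm (i.1, i.2.1)).2, i.2.2)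
  left_inv i := by simp
  right_inv i := by simp

variable (b : HilbertBasis JJ ℂ H)

/-- the permutation unitary -/
noncomputable def UU (θ : (List ℕ × ℕ) ≃ (List ℕ × ℕ)) : H →L[ℂ] H :=
  wp b (permJ θ) (fun _ => 1) (fun _ => by simp)

theorem repr_UU (θ : (List ℕ × ℕ) ≃ (List ℕ × ℕ)) (ξ : H) (i : JJ) :
    b.repr (UU b θ ξ) i = b.repr ξ (permJ θ i) := by
  rw [UU, repr_wp, one_mul]

theorem star_UU (θ : (List ℕ × ℕ) ≃ (List ℕ × ℕ)) : star (UU b θ) = UU b θ.symm := by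
  rw [UU, adjoint_wp b (permJ θ) (fun _ => 1) _ (fun _ => 1) (fun _ => by simp)
    (fun i => by simp)]
  rfl

theorem star_UU_mul (θ : (List ℕ × ℕ) ≃ (List ℕ × ℕ)) : star (UU b θ) * UU b θ = 1 := by
  rw [star_UU]
  apply op_ext b
  intro ξ i
  have e : (UU b θ.symm * UU b θ) ξ = UU b θ.symm (UU b θ ξ) := rfl
  rw [e, repr_UU, repr_UU]
  have : permJ θ (permJ θ.symm i) = i := (permJ θ).apply_symm_apply i
  rw [this]
  rfl

theorem UU_mul_star (θ : (List ℕ × ℕ) ≃ (List ℕ × ℕ)) : UU b θ * star (UU b θ) = 1 := by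
  have := star_UU_mul b θ.symm
  rw [star_UU, Equiv.symm_symm] at this
  rw [star_UU]
  exact this

theorem UU_EE (α : ℕ → ℕ) (θ : (List ℕ × ℕ) ≃ (List ℕ × ℕ))
    (hθ : ∀ s, (θ s).1 = cut α s.1) (t : List ℕ) (g : Gam) :
    UU b θ * EE b t g = EE b (addl α t) g * UU b θ := by
  apply op_ext b
  rintro ξ ⟨w, m, k⟩
  have e1 : (UU b θ * EE b t g) ξ = UU b θ (EE b t g ξ) := rfl
  have e2 : (EE b (addl α t) g * UU b θ) ξ = EE b (addl α t) g (UU b θ ξ) := rfl
  have e5 : b.repr (UU b θ (EE b t g ξ)) (w, m, k) =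
      coefE t g ((θ (w, m)).1, (θ (w, m)).2, k) * b.repr ξ ((θ (w, m)).1, (θ (w, m)).2, k - g) := by
    rw [repr_UU]
    exact repr_EE b t g ξ _ _ _
  have e6 : b.repr (EE b (addl α t) g (UU b θ ξ)) (w, m, k) =
      coefE (addl α t) g (w, m, k) * b.repr ξ ((θ (w, m)).1, (θ (w, m)).2, k - g) := by
    rw [repr_EE, repr_UU]
    rfl
  rw [e1, e2, e5, e6]
  by_cases h : t <+: (θ (w, m)).1
  · rw [coefE_pos h]
    rw [hθ, prefix_cut_iff] at h
    rw [coefE_pos h]
  · rw [coefE_neg h]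
    rw [hθ, prefix_cut_iff] at h
    rw [coefE_neg h]

theorem conj_mem (α : ℕ → ℕ) (θ : (List ℕ × ℕ) ≃ (List ℕ × ℕ))
    (hθ : ∀ s, (θ s).1 = cut α s.1) {L L' : List ℕ → Set Lab} (hL : Mono L) (hL' : Mono L')
    (h : ∀ t, L t ⊆ L' (addl α t)) {X : H →L[ℂ] H} (hX : X ∈ cst b L hL) :
    conjHom (UU b θ) (star_UU_mul b θ) X ∈ cst b L' hL' := by
  let f : (H →L[ℂ] H) →ₗ[ℂ] (H →L[ℂ] H) :=
    { toFun := fun X => UU b θ * X * star (UU b θ)
      map_add' := fun X Y => by simp [mul_add, add_mul]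
      map_smul' := fun c X => by simp }
  have hf : Continuous f := by
    show Continuous (fun X => UU b θ * X * star (UU b θ))
    fun_prop
  let T : Submodule ℂ (H →L[ℂ] H) := (cst b L' hL').toSubmodule
  have hT : IsClosed (T : Set (H →L[ℂ] H)) :=
    NonUnitalStarSubalgebra.isClosed_topologicalClosure _
  have key := cst_le_of_closed b hL (T.comap f) (hT.preimage hf) (fun t g hg => ?_) hX
  · exact key
  · show UU b θ * EE b t g * star (UU b θ) ∈ cst b L' hL'
    rw [UU_EE b α θ hθ, mul_assoc, UU_mul_star, mul_one]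
    exact EE_mem_cst b hL' (hg.trans (h t))

/-- the forward direction -/
theorem exists_embedding (α : ℕ → ℕ) {L L' : List ℕ → Set Lab} (hL : Mono L) (hL' : Mono L')
    (h : ∀ t, L t ⊆ L' (addl α t)) :
    ∃ φ : (cst b L hL) →⋆ₙₐ[ℂ] (cst b L' hL'), Function.Injective φ := by
  obtain ⟨θ, hθ⟩ := exists_theta α
  let ψ : (cst b L hL) →⋆ₙₐ[ℂ] (H →L[ℂ] H) :=
    (conjHom (UU b θ) (star_UU_mul b θ)).comp (NonUnitalStarSubalgebraClass.subtype (cst b L hL))
  have hψ : ∀ x, ψ x ∈ cst b L' hL' := fun x => conj_mem b α θ hθ hL hL' h x.2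
  refine ⟨NonUnitalStarAlgHom.codRestrict ψ (cst b L' hL') hψ, ?_⟩
  intro x y hxy
  have h1 : ψ x = ψ y := congrArg Subtype.val hxy
  exact Subtype.ext (conjHom_injective (UU b θ) (star_UU_mul b θ) h1)

end Pool.Agent.Lib.MP_5f80dd_lc
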