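import Pool.Agent.Lib.MP_5f80dd_lc.Det2
import Pool.Agent.Lib.MP_5f80dd_lc.Fwd
import Pool.Agent.Lib.MP_5f80dd_lc.Basis

set_option autoImplicit false

namespace Pool.Agent.Lib.MP_5f80dd_lc

open scoped InnerProductSpace
open MeasureTheory

/-- the relation on Cantor space transported from a standard Borel space -/
def QQ {X : Type*} (ι : X → Cant) (E : X → X → Prop) (a b : Cant) : Prop :=
  a = b ∨ ∃ x y, ι x = a ∧ ι y = b ∧ E x y

theorem QQ_iff {X : Type*} {ι : X → Cant} (hι : Function.Injective ι) {E : X → X → Prop}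
    (hr : ∀ x, E x x) (x y : X) : QQ ι E (ι x) (ι y) ↔ E x y := by
  constructor
  · rintro (h | ⟨x', y', hx, hy, h⟩)
    · rw [hι h]
      exact hr y
    · rwa [← hι hx, ← hι hy]
  · intro h
    exact Or.inr ⟨x, y, rfl, rfl, h⟩

theorem QQ_trans {X : Type*} {ι : X → Cant} (hι : Function.Injective ι) {E : X → X → Prop}
    (ht : ∀ x y z, E x y → E y z → E x z) (a b c : Cant) (h : QQ ι E a b) (h' : QQ ι E b c) :
    QQ ι E a c := by
  rcases h with rfl | ⟨x, y, rfl, rfl, h⟩
  · exact h'
  · rcases h' with rfl | ⟨y', z, hy, rfl, h'⟩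
    · exact Or.inr ⟨x, y, rfl, rfl, h⟩
    · rw [hι hy] at h'
      exact Or.inr ⟨x, z, rfl, rfl, ht _ _ _ h h'⟩

theorem exists_param {X : Type*} [MeasurableSpace X] [StandardBorelSpace X]
    {E : X → X → Prop} {S : Set ((X × X) × (ℕ → ℕ))} (hS : MeasurableSet S)
    (hE : ∀ x y, E x y ↔ ∃ z, ((x, y), z) ∈ S) {ι : X → Cant} (hι : Measurable ι) :
    ∃ g : (ℕ → ℕ) → Cant × Cant, Continuous g ∧ ∀ a b, QQ ι E a b ↔ ∃ δ, g δ = (a, b) := by
  haveI hm : TopologicalSpace.IsCompletelyMetrizableSpace Cant :=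
    TopologicalSpace.IsCompletelyMetrizableSpace.pi_countable
  haveI hP : PolishSpace Cant := PolishSpace.mk
  have h1 : AnalyticSet {p : Cant × Cant | QQ ι E p.1 p.2} := by
    have e : {p : Cant × Cant | QQ ι E p.1 p.2} =
        {p : Cant × Cant | p.1 = p.2} ∪
          (fun q : (X × X) × (ℕ → ℕ) => ((ι q.1.1, ι q.1.2) : Cant × Cant)) '' S := by
      ext ⟨a, b⟩
      constructor
      · rintro (h | ⟨x, y, hx, hy, h⟩)
        · exact Or.inl h
        · obtain ⟨z, hz⟩ := (hE x y).1 h
          exact Or.inr ⟨((x, y), z), hz, Prod.ext hx hy⟩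
      · rintro (h | ⟨⟨⟨x, y⟩, z⟩, hz, h⟩)
        · exact Or.inl h
        · exact Or.inr ⟨x, y, (Prod.ext_iff.1 h).1, (Prod.ext_iff.1 h).2, (hE x y).2 ⟨z, hz⟩⟩
    rw [e]
    have a1 : AnalyticSet {p : Cant × Cant | p.1 = p.2} :=
      (isClosed_eq continuous_fst continuous_snd).analyticSet
    have a2 : AnalyticSet
        ((fun q : (X × X) × (ℕ → ℕ) => ((ι q.1.1, ι q.1.2) : Cant × Cant)) '' S) := by
      refine hS.analyticSet_image ?_
      exact (hι.comp (measurable_fst.comp measurable_fst)).prodMk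
        (hι.comp (measurable_snd.comp measurable_fst))
    have a3 := AnalyticSet.iUnion (s := fun i : Bool => if i then {p : Cant × Cant | p.1 = p.2}
      else ((fun q : (X × X) × (ℕ → ℕ) => ((ι q.1.1, ι q.1.2) : Cant × Cant)) '' S))
      (by
        intro i
        cases i
        · simpa using a2
        · simpa using a1)
    rw [Set.union_eq_iUnion]
    convert a3 using 3
    rename_i i
    cases i <;> simp
  rw [AnalyticSet] at h1
  rcases h1 with h | ⟨g, hg, hr⟩
  · exfalso
    have : ((fun _ => false, fun _ => false) : Cant × Cant) ∈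
        {p : Cant × Cant | QQ ι E p.1 p.2} := Or.inl rfl
    rw [h] at this
    exact this
  · refine ⟨g, hg, fun a b => ?_⟩
    have : ((a, b) : Cant × Cant) ∈ {p : Cant × Cant | QQ ι E p.1 p.2} ↔
        ((a, b) : Cant × Cant) ∈ Set.range g := by rw [hr]
    exact this

variable {H : Type*} [NormedAddCommGroup H] [InnerProductSpace ℂ H]
  (b : HilbertBasis JJ ℂ H)

/-- codes attached to points of Cantor space -/
noncomputable def codeMap (s : ℕ → List ℕ × Gam) (g : (ℕ → ℕ) → Cant × Cant) (x : Cant) (n : ℕ) :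
    H →WOT[ℂ] H := ContinuousLinearMapWOT.ofCLM (codeSeq b s (LL g x) n)

theorem continuous_codeMap (s : ℕ → List ℕ × Gam) (g : (ℕ → ℕ) → Cant × Cant) :
    Continuous (codeMap b s g) := by
  refine continuous_pi fun n => ?_
  have hloc : IsLocallyConstant (fun x => codeMap b s g x n) := by
    rw [IsLocallyConstant.iff_eventually_eq]
    intro x
    have h1 : ∀ᶠ y in nhds x, ∀ i ∈ Finset.range (s n).1.length, y i = x i := by
      rw [Filter.eventually_all_finset]
      intro i _
      have hc : Continuous fun y : Cant => y i := continuous_apply i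
      exact (hc.tendsto x).eventually (by
        have : ∀ᶠ z in nhds (x i), z = x i := by
          rw [nhds_discrete]
          exact Filter.eventually_pure.2 rfl
        exact this)
    filter_upwards [h1] with y hy
    have h2 : LL g y (s n).1 = LL g x (s n).1 :=
      LL_congr fun i hi => hy i (Finset.mem_range.2 hi)
    show ContinuousLinearMapWOT.ofCLM (codeSeq b s (LL g y) n) =
      ContinuousLinearMapWOT.ofCLM (codeSeq b s (LL g x) n)
    unfold codeSeq
    rw [h2]
  exact hloc.continuous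

end Pool.Agent.Lib.MP_5f80dd_lc
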