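import Pool.Agent.Lib.MP_5f80dd_lc.Det4
import Pool.Agent.Lib.MP_5f80dd_lc.Meas

set_option autoImplicit false

namespace Pool.Agent.Lib.MP_5f80dd_lc

open scoped InnerProductSpace

theorem exists_basis_of (ι : Type) [Countable ι] [Infinite ι] (H : Type*) [NormedAddCommGroup H]
    [InnerProductSpace ℂ H] [CompleteSpace H] [TopologicalSpace.SeparableSpace H]
    (hH : ¬ FiniteDimensional ℂ H) : Nonempty (HilbertBasis ι ℂ H) := by
  obtain ⟨w, b, hb⟩ := exists_hilbertBasis ℂ H
  have hw : Countable w := orthonormal_countable b.orthonormal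
  have hwi : Infinite w := by
    by_contra hcon
    have hfin : Finite w := not_infinite_iff_finite.1 hcon
    have := Fintype.ofFinite w
    exact hH (b.toOrthonormalBasis.toBasis.finiteDimensional_of_finite)
  obtain ⟨e⟩ : Nonempty (ι ≃ w) := nonempty_equiv_of_countable
  refine ⟨HilbertBasis.mk (v := fun j => b (e j)) (b.orthonormal.comp e e.injective) ?_⟩
  have : Set.range (fun j => b (e j)) = Set.range b := by
    rw [← Function.comp_def, Set.range_comp, e.surjective.range_eq, Set.image_univ]
  rw [this, b.dense_span]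

instance : Infinite (PT.Om DD) := by
  refine Infinite.of_injective (fun n : ℕ => vn n) ?_
  intro n m h
  by_contra hne
  have h1 : DD.va (vn n) (jn n) = DD.va (vn m) (jn n) := by
    have h' : vn n = vn m := h
    rw [h']
  rw [va_vn_self, va_vn_ne (jn_ne hne)] at h1
  norm_num at h1

namespace PT

variable {J G : Type} {D : PT J G} [DecidableEq J]
variable {H : Type*} [NormedAddCommGroup H] [InnerProductSpace ℂ H] [CompleteSpace H]
  (b : HilbertBasis D.Om ℂ H)

open Classical in
/-- the sequence of generators attached to a surjection from the natural numbers -/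
noncomputable def cseq (s : ℕ → Finset J × D.Om × D.Om) (X : Set J) (n : ℕ) : H →L[ℂ] H :=
  if ((s n).1 : Set J) ⊆ X ∧ chEq (s n).1 (s n).2.1 (s n).2.2 then
    E b (s n).1 (s n).2.1 (s n).2.2 else 0

theorem cseq_congr (s : ℕ → Finset J × D.Om × D.Om) {X Y : Set J} {n : ℕ}
    (h : (((s n).1 : Set J) ⊆ X) ↔ (((s n).1 : Set J) ⊆ Y)) : cseq b s X n = cseq b s Y n := by
  unfold cseq
  by_cases h1 : ((s n).1 : Set J) ⊆ X ∧ chEq (s n).1 (s n).2.1 (s n).2.2
  · rw [if_pos h1, if_pos ⟨h.1 h1.1, h1.2⟩]
  · rw [if_neg h1, if_neg (fun h2 => h1 ⟨h.2 h2.1, h2.2⟩)]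

theorem adjoin_cseq (s : ℕ → Finset J × D.Om × D.Om) (hs : Function.Surjective s) (X : Set J) :
    NonUnitalStarAlgebra.adjoin ℂ (Set.range (cseq b s X)) = algX b X := by
  apply le_antisymm
  · apply NonUnitalStarAlgebra.adjoin_le
    rintro _ ⟨n, rfl⟩
    show cseq b s X n ∈ algX b X
    unfold cseq
    split_ifs with h
    · exact (mem_algX b).2 ⟨_, h.1, E_mem_St b h.2⟩
    · exact zero_mem _
  · intro x hx
    obtain ⟨F, hF, hx⟩ := (mem_algX b).1 hx
    refine St_le_of b
      ((NonUnitalStarAlgebra.adjoin ℂ (Set.range (cseq b s X))).toSubmodule) (fun v w h => ?_) hx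
    obtain ⟨n, hn⟩ := hs (F, v, w)
    apply NonUnitalStarAlgebra.subset_adjoin
    refine ⟨n, ?_⟩
    unfold cseq
    rw [hn]
    exact if_pos ⟨hF, h⟩

/-- the C*-algebra is the closure of an increasing union of finite dimensional subalgebras -/
theorem exists_af_BB [Countable J] [Nonempty J] (X : Set J) :
    ∃ B : ℕ → NonUnitalStarSubalgebra ℂ (H →L[ℂ] H), Monotone B ∧
      (∀ n, FiniteDimensional ℂ (B n)) ∧
      (BB b X : Set (H →L[ℂ] H)) = closure (⋃ n, (B n : Set (H →L[ℂ] H))) := by
  classical
  obtain ⟨e, he⟩ := exists_surjective_nat J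
  let F : ℕ → Finset J := fun n => ((Finset.range n).image e).filter (· ∈ X)
  have hFX : ∀ n, (F n : Set J) ⊆ X := by
    intro n j hj
    exact (Finset.mem_filter.1 (Finset.mem_coe.1 hj)).2
  have hmono : Monotone F := by
    intro m n hmn
    apply Finset.filter_subset_filter
    apply Finset.image_subset_image
    exact Finset.range_mono hmn
  refine ⟨fun n => St b (F n), fun m n hmn => St_mono b (hmono hmn), fun n => ?_, ?_⟩
  · exact finiteDimensional_St b (F n)
  · show closure _ = closure _
    congr 1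
    apply Set.Subset.antisymm
    · intro x hx
      obtain ⟨F', hF', hx⟩ := (mem_algX b).1 hx
      choose i hi using he
      refine Set.mem_iUnion.2 ⟨(F'.sup i) + 1, St_mono b ?_ hx⟩
      intro j hj
      refine Finset.mem_filter.2 ⟨Finset.mem_image.2 ⟨i j, ?_, hi j⟩, hF' hj⟩
      exact Finset.mem_range.2 (Nat.lt_succ_of_le (Finset.le_sup hj))
    · refine Set.iUnion_subset fun n x hx => ?_
      exact (mem_algX b).2 ⟨F n, hFX n, hx⟩

end PT

variable {H : Type*} [NormedAddCommGroup H] [InnerProductSpace ℂ H] [CompleteSpace H]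
  (b : HilbertBasis (PT.Om DD) ℂ H)

/-- codes attached to points of Cantor space -/
noncomputable def cmap (s : ℕ → Finset Site × PT.Om DD × PT.Om DD)
    (g : (ℕ → ℕ) → Cant × Cant) (x : Cant) (n : ℕ) :
    H →WOT[ℂ] H := ContinuousLinearMapWOT.ofCLM (PT.cseq b s (XX g x) n)

theorem XX_congr {g : (ℕ → ℕ) → Cant × Cant} {x y : Cant} {j : Site}
    (h : agree j.2.1.length x y) : j ∈ XX g x ↔ j ∈ XX g y := by
  unfold XX
  simp only [Set.mem_setOf_eq]
  rw [LL_congr h]

theorem continuous_cmap (s : ℕ → Finset Site × PT.Om DD × PT.Om DD)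
    (g : (ℕ → ℕ) → Cant × Cant) : Continuous (cmap b s g) := by
  refine continuous_pi fun n => ?_
  have hloc : IsLocallyConstant (fun x => cmap b s g x n) := by
    rw [IsLocallyConstant.iff_eventually_eq]
    intro x
    have h1 : ∀ᶠ y in nhds x, ∀ i ∈ Finset.range ((s n).1.sup fun j => j.2.1.length),
        y i = x i := by
      rw [Filter.eventually_all_finset]
      intro i _
      have hc : Continuous fun y : Cant => y i := continuous_apply i
      exact (hc.tendsto x).eventually (by
        have : ∀ᶠ z in nhds (x i), z = x i := by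
          rw [nhds_discrete]
          exact Filter.eventually_pure.2 rfl
        exact this)
    filter_upwards [h1] with y hy
    have h2 : (((s n).1 : Set Site) ⊆ XX g y) ↔ (((s n).1 : Set Site) ⊆ XX g x) := by
      have h3 : ∀ j ∈ (s n).1, (j ∈ XX g y ↔ j ∈ XX g x) := by
        intro j hj
        refine XX_congr fun i hi => hy i (Finset.mem_range.2 (hi.trans_le ?_))
        exact Finset.le_sup (f := fun j : Site => j.2.1.length) hj
      constructor
      · intro h j hj
        exact (h3 j hj).1 (h hj)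
      · intro h j hj
        exact (h3 j hj).2 (h hj)
    show ContinuousLinearMapWOT.ofCLM (PT.cseq b s (XX g y) n) =
      ContinuousLinearMapWOT.ofCLM (PT.cseq b s (XX g x) n)
    rw [PT.cseq_congr b s h2]
  exact hloc.continuous

end Pool.Agent.Lib.MP_5f80dd_lc
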