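import Pool.Agent.Lib.MP_5f80dd_lc.Rat

set_option autoImplicit false

namespace Pool.Agent.Lib.MP_5f80dd_lc

open scoped InnerProductSpace ENNReal

variable {H : Type*} [NormedAddCommGroup H] [InnerProductSpace ℂ H]
  (b : HilbertBasis JJ ℂ H)

theorem norm_wp_le (e : JJ ≃ JJ) (c : JJ → ℂ) (hc : ∀ i, ‖c i‖ ≤ 1) (ξ : H) :
    ‖wp b e c hc ξ‖ ≤ ‖ξ‖ := by
  have h1 : b.repr (wp b e c hc ξ) = wp2 e c hc (b.repr ξ) := by
    simp [wp]
  rw [← b.repr.norm_map (wp b e c hc ξ), h1, ← b.repr.norm_map ξ]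
  exact norm_wpfun_le e c hc (b.repr ξ)

/-- matrix entries as functionals -/
noncomputable def ent (i j : JJ) : (H →L[ℂ] H) →L[ℂ] ℂ :=
  (innerSL ℂ (b j)) ∘L (ContinuousLinearMap.apply ℂ H (b i))

theorem ent_apply (i j : JJ) (X : H →L[ℂ] H) : ent b i j X = b.repr (X (b i)) j := by
  rw [← inner_basis]
  rfl

/-- exchange of two nodes -/
def swapJ (w v : List ℕ) : JJ ≃ JJ := Equiv.prodCongr (Equiv.swap w v) (Equiv.refl _)

theorem swapJ_apply (w v z : List ℕ) (m : ℕ) (k : Gam) :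
    swapJ w v (z, m, k) = (Equiv.swap w v z, m, k) := rfl

/-- indicator of a block -/
noncomputable def indJ (v : List ℕ) (i : JJ) : ℂ := if i.1 = v then 1 else 0

theorem norm_indJ (v : List ℕ) (i : JJ) : ‖indJ v i‖ ≤ 1 := by
  unfold indJ
  split_ifs <;> simp

/-- the partial isometry carrying block `w` to block `v` -/
noncomputable def WW (w v : List ℕ) : H →L[ℂ] H := wp b (swapJ w v) (indJ v) (norm_indJ v)

theorem repr_WW_self (w v : List ℕ) (ξ : H) (m : ℕ) (k : Gam) :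
    b.repr (WW b w v ξ) (v, m, k) = b.repr ξ (w, m, k) := by
  rw [WW, repr_wp, swapJ_apply, Equiv.swap_apply_right, indJ]
  simp

theorem repr_WW_ne {w v z : List ℕ} (hz : z ≠ v) (ξ : H) (m : ℕ) (k : Gam) :
    b.repr (WW b w v ξ) (z, m, k) = 0 := by
  rw [WW, repr_wp, indJ]
  simp [hz]

theorem WW_basis_self (w v : List ℕ) (m : ℕ) (k : Gam) :
    WW b w v (b (w, m, k)) = b (v, m, k) := by
  classical
  apply hb_ext b
  rintro ⟨z, m', k'⟩
  by_cases hz : z = v
  · subst hz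
    rw [repr_WW_self, repr_basis, repr_basis]
    simp
  · rw [repr_WW_ne b hz, repr_basis, if_neg]
    intro h
    exact hz (Prod.ext_iff.1 h).1

theorem WW_basis_ne {w v z : List ℕ} (hz : z ≠ w) (m : ℕ) (k : Gam) :
    WW b w v (b (z, m, k)) = 0 := by
  classical
  apply hb_ext b
  rintro ⟨z', m', k'⟩
  rw [repr_zero']
  by_cases hz' : z' = v
  · subst hz'
    rw [repr_WW_self, repr_basis, if_neg]
    intro h
    exact hz (Prod.ext_iff.1 h).1.symm
  · rw [repr_WW_ne b hz']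

section

variable [CompleteSpace H]

theorem block_pres {L : List ℕ → Set Lab} (hL : Mono L) {X : H →L[ℂ] H} (hX : X ∈ cst b L hL)
    {w z : List ℕ} (hz : z ≠ w) (m m' : ℕ) (h h' : Gam) :
    b.repr (X (b (w, m, h))) (z, m', h') = 0 := by
  classical
  have := cst_le_of_closed b hL
    (LinearMap.ker ((ent b (w, m, h) (z, m', h') : (H →L[ℂ] H) →L[ℂ] ℂ) :
      (H →L[ℂ] H) →ₗ[ℂ] ℂ))
    (ContinuousLinearMap.isClosed_ker (ent b (w, m, h) (z, m', h'))) (fun t g _ => ?_) hX
  · rw [← ent_apply]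
    exact this
  · show ent b (w, m, h) (z, m', h') (EE b t g) = 0
    rw [ent_apply, repr_EE, repr_basis, if_neg, mul_zero]
    intro h
    exact hz (Prod.ext_iff.1 h).1

theorem WW_comm {L : List ℕ → Set Lab} (hL : Mono L) {T : Set (List ℕ)} {F₀ : AddSubgroup Gam}
    {X : H →L[ℂ] H} (hX : X ∈ algTF b L hL T F₀) {w v : List ℕ}
    (hT : ∀ t ∈ T, t <+: w ↔ t <+: v) (ξ : H) :
    X (WW b w v ξ) = WW b w v (X ξ) := by
  have hX' : X ∈ Submodule.span ℂ (genTF b L T F₀) := hX
  induction hX' using Submodule.span_induction with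
  | zero =>
    show (0 : H) = WW b w v 0
    rw [map_zero]
  | add p q _ _ hp hq =>
    show p (WW b w v ξ) + q (WW b w v ξ) = WW b w v (p ξ + q ξ)
    rw [map_add, hp (by assumption), hq (by assumption)]
  | smul c p _ hp =>
    show c • p (WW b w v ξ) = WW b w v (c • p ξ)
    rw [map_smul, hp (by assumption)]
  | mem p hp =>
    obtain ⟨t, ht, g, hg, hlab, rfl⟩ := hp
    apply hb_ext b
    rintro ⟨z, m, k⟩
    by_cases hz : z = v
    · subst hz
      rw [repr_EE, repr_WW_self, repr_WW_self, repr_EE]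
      by_cases h1 : t <+: z
      · rw [coefE_pos h1, coefE_pos ((hT t ht).2 h1)]
      · rw [coefE_neg h1, coefE_neg (fun h => h1 ((hT t ht).1 h))]
    · rw [repr_EE, repr_WW_ne b hz, repr_WW_ne b hz, mul_zero]

/-- a projection of the algebra which vanishes at short nodes lives above finitely many nodes
of the next level -/
theorem finite_levels {L : List ℕ → Set Lab} (hL : Mono L) {q : H →L[ℂ] H}
    (hq : IsStarProjection q) (hqS : q ∈ cst b L hL) (n : ℕ)
    (hn : ∀ w : List ℕ, w.length < n → tau b (w, 0, 0) q = 0) :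
    {v : List ℕ | v.length = n ∧ ∃ w, v <+: w ∧ tau b (w, 0, 0) q ≠ 0}.Finite := by
  rcases Nat.eq_zero_or_pos n with hn0 | hn0
  · subst hn0
    refine (Set.finite_singleton ([] : List ℕ)).subset ?_
    rintro v ⟨hv, _⟩
    exact List.length_eq_zero_iff.1 hv
  obtain ⟨X, hX, hXq⟩ : ∃ x ∈ alg b L hL, ‖q - x‖ ≤ 1 / 4 := by
    have h1 : q ∈ closure (alg b L hL : Set (H →L[ℂ] H)) := hqS
    obtain ⟨x, hx, hxq⟩ := Metric.mem_closure_iff.1 h1 (1 / 4) (by norm_num)
    exact ⟨x, hx, by rw [← dist_eq_norm]; exact hxq.le⟩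
  obtain ⟨T, F₀, hT, hF₀, hXD⟩ := exists_finite_algTF b hL hX
  have hfin : (⋃ t ∈ T, {v : List ℕ | v <+: t}).Finite := by
    refine hT.biUnion fun t _ => ?_
    refine (List.finite_toSet t.inits).subset ?_
    intro v hv
    exact (List.mem_inits v t).2 hv
  refine hfin.subset ?_
  rintro v ⟨hv, w, hvw, hw⟩
  by_contra hcon
  simp only [Set.mem_iUnion, Set.mem_setOf_eq, not_exists] at hcon
  apply hw
  -- the node below
  set v' := v.dropLast with hv'
  have hv'v : v' <+: v := List.dropLast_prefix v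
  have hv'l : v'.length < n := by
    rw [hv', List.length_dropLast]
    omega
  have hTw : ∀ t ∈ T, t <+: w ↔ t <+: v' := by
    intro t ht
    constructor
    · intro h1
      rcases Nat.lt_or_ge t.length n with h2 | h2
      · refine List.prefix_of_prefix_length_le h1 (hv'v.trans hvw) ?_
        rw [hv', List.length_dropLast]
        omega
      · exact absurd (List.prefix_of_prefix_length_le hvw h1 (by omega)) (hcon t ht)
    · intro h1
      exact h1.trans (hv'v.trans hvw)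
  set ξ : H := q (b (w, 0, 0)) with hξ
  have hqξ : q ξ = ξ := by
    have := hq.isIdempotentElem
    exact congrArg (fun Z : H →L[ℂ] H => Z (b (w, 0, 0))) this
  have hqW : q (WW b w v' ξ) = 0 := by
    have h1 : q * WW b w v' = 0 := by
      apply op_eq_zero_of_basis b
      rintro ⟨z, m, k⟩
      show q (WW b w v' (b (z, m, k))) = 0
      by_cases hz : z = w
      · subst hz
        rw [WW_basis_self]
        exact proj_apply_eq_zero b hL hq hqS (hn v' hv'l) m k
      · rw [WW_basis_ne b hz, map_zero]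
    exact congrArg (fun Z : H →L[ℂ] H => Z ξ) h1
  have hback : WW b v' w (WW b w v' ξ) = ξ := by
    apply hb_ext b
    rintro ⟨z, m, k⟩
    by_cases hz : z = w
    · subst hz
      rw [repr_WW_self, repr_WW_self]
    · rw [repr_WW_ne b hz, hξ, block_pres b hL hqS hz]
  have hnorm1 : ‖ξ‖ ≤ ‖WW b w v' ξ‖ := by
    conv_lhs => rw [← hback]
    exact norm_wp_le b _ _ _ _
  have hnorm2 : ‖WW b w v' ξ‖ ≤ ‖ξ‖ := norm_wp_le b _ _ _ _
  have hW : WW b w v' ξ = WW b w v' ((q - X) ξ) - (q - X) (WW b w v' ξ) := by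
    have e1 : (q - X) ξ = ξ - X ξ := by
      show q ξ - X ξ = _
      rw [hqξ]
    have e2 : (q - X) (WW b w v' ξ) = - X (WW b w v' ξ) := by
      show q (WW b w v' ξ) - X (WW b w v' ξ) = _
      rw [hqW, zero_sub]
    rw [e1, e2, map_sub, WW_comm b hL hXD hTw]
    abel
  have hbd : ‖WW b w v' ξ‖ ≤ 1 / 2 * ‖ξ‖ := by
    have a1 : ‖WW b w v' ((q - X) ξ)‖ ≤ 1 / 4 * ‖ξ‖ := by
      refine (norm_wp_le b _ _ _ _).trans ?_
      refine ((q - X).le_opNorm ξ).trans ?_
      exact mul_le_mul_of_nonneg_right hXq (norm_nonneg _)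
    have a2 : ‖(q - X) (WW b w v' ξ)‖ ≤ 1 / 4 * ‖ξ‖ := by
      refine ((q - X).le_opNorm _).trans ?_
      exact mul_le_mul hXq hnorm2 (norm_nonneg _) (by norm_num)
    have a3 : ‖WW b w v' ((q - X) ξ) - (q - X) (WW b w v' ξ)‖ ≤ 1 / 4 * ‖ξ‖ + 1 / 4 * ‖ξ‖ :=
      (norm_sub_le _ _).trans (add_le_add a1 a2)
    rw [← hW] at a3
    linarith
  have hξ0 : ‖ξ‖ = 0 := by
    have := norm_nonneg ξ
    linarith
  rw [tau_proj b hq, ← hξ, hξ0]
  simp

end

end Pool.Agent.Lib.MP_5f80dd_lc
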