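import Pool.Agent.Lib.MP_5f80dd_lc.Det

set_option autoImplicit false

namespace Pool.Agent.Lib.MP_5f80dd_lc

open scoped InnerProductSpace ENNReal

variable {H : Type*} [NormedAddCommGroup H] [InnerProductSpace ℂ H] [CompleteSpace H]
  (b : HilbertBasis JJ ℂ H)

/-- the generators as elements of the C*-algebra -/
noncomputable def PP {L : List ℕ → Set Lab} (hL : Mono L) (t : List ℕ) (g : Gam)
    (h : lab g ⊆ L t) : cst b L hL := ⟨EE b t g, EE_mem_cst b hL h⟩

variable {L : List ℕ → Set Lab} (hL : Mono L)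

theorem PP_mul (t : List ℕ) (g g' : Gam) (h : lab g ⊆ L t) (h' : lab g' ⊆ L t)
    (h'' : lab (g + g') ⊆ L t) :
    PP b hL t g h * PP b hL t g' h' = bet g g' • PP b hL t (g + g') h'' := by
  apply Subtype.ext
  exact EE_mul_of_prefix b (List.prefix_refl t) g g'

theorem PP_congr (t : List ℕ) {g g' : Gam} (h : lab g ⊆ L t) (h' : lab g' ⊆ L t)
    (hg : g = g') : PP b hL t g h = PP b hL t g' h' := by
  subst hg
  rfl

theorem star_PP (t : List ℕ) (g : Gam) (h : lab g ⊆ L t) (h' : lab (-g) ⊆ L t) :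
    star (PP b hL t g h) = bet g g • PP b hL t (-g) h' := by
  apply Subtype.ext
  exact star_EE b t g

/-- a tracial functional vanishes on noncommuting generators -/
theorem trace_PP_eq_zero (T : cst b L hL →ₗ[ℂ] ℂ) (hT : ∀ X Y, T (X * Y) = T (Y * X))
    (t : List ℕ) (g h : Gam) (hg : lab g ⊆ L t) (hh : lab h ⊆ L t) (hne : bet g h ≠ bet h g) :
    T (PP b hL t g hg) = 0 := by
  have hgh : lab (g - h) ⊆ L t := by
    rw [sub_eq_add_neg]
    refine (lab_add _ _).trans (Set.union_subset hg ?_)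
    rw [lab_neg]
    exact hh
  have e1 : PP b hL t h hh * PP b hL t (g - h) hgh = bet h (g - h) • PP b hL t g hg := by
    rw [PP_mul b hL t h (g - h) hh hgh (by rw [add_sub_cancel]; exact hg)]
    rw [PP_congr b hL t _ hg (by abel)]
  have e2 : PP b hL t (g - h) hgh * PP b hL t h hh = bet (g - h) h • PP b hL t g hg := by
    rw [PP_mul b hL t (g - h) h hgh hh (by rw [sub_add_cancel]; exact hg)]
    rw [PP_congr b hL t _ hg (by abel)]
  have e3 := hT (PP b hL t h hh) (PP b hL t (g - h) hgh)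
  rw [e1, e2, map_smul, map_smul, smul_eq_mul, smul_eq_mul] at e3
  have e4 : bet h (g - h) = bet h g * bet h (-h) := by rw [sub_eq_add_neg, bet_add_right]
  have e5 : bet (g - h) h = bet g h * bet h (-h) := by
    rw [sub_eq_add_neg, bet_add_left, bet_neg_left, bet_neg_right]
  rw [e4, e5] at e3
  have e6 : (bet h g - bet g h) * (bet h (-h) * T (PP b hL t g hg)) = 0 := by
    linear_combination e3
  rcases mul_eq_zero.1 e6 with h1 | h1
  · exact absurd (sub_eq_zero.1 h1).symm hne
  · exact (mul_eq_zero.1 h1).resolve_left (bet_ne_zero _ _)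

theorem lab_iot_sub {t : List ℕ} {u : Lab} (hu : u ∈ L t) (k : ℕ) (v : Fin k → ZMod (pr u)) :
    lab (iot u k v) ⊆ L t := by
  intro a ha
  have := lab_iot u k v ha
  rw [Set.mem_singleton_iff] at this
  rw [this]
  exact hu

/-- a small projection below `PP t 0` -/
noncomputable def smallP {t : List ℕ} {u : Lab} (hu : u ∈ L t) (k : ℕ) : cst b L hL :=
  ((pr u : ℂ) ^ k)⁻¹ • ∑ v : Fin k → ZMod (pr u), PP b hL t (iot u k v) (lab_iot_sub hu k v)

theorem pr_ne_zero (u : Lab) : (pr u : ℂ) ≠ 0 := by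
  have := (pr_prime u).ne_zero
  exact_mod_cast this

theorem smallP_idem {t : List ℕ} {u : Lab} (hu : u ∈ L t) (k : ℕ) :
    smallP b hL hu k * smallP b hL hu k = smallP b hL hu k := by
  unfold smallP
  rw [smul_mul_smul_comm, Finset.sum_mul_sum]
  have h1 : ∀ v : Fin k → ZMod (pr u), (∑ w : Fin k → ZMod (pr u),
      PP b hL t (iot u k v) (lab_iot_sub hu k v) * PP b hL t (iot u k w) (lab_iot_sub hu k w)) =
      ∑ w : Fin k → ZMod (pr u), PP b hL t (iot u k w) (lab_iot_sub hu k w) := by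
    intro v
    rw [← Equiv.sum_comp (Equiv.addLeft v)
      (fun w => PP b hL t (iot u k w) (lab_iot_sub hu k w))]
    refine Finset.sum_congr rfl fun w _ => ?_
    have h2 : lab (iot u k v + iot u k w) ⊆ L t := by
      rw [← map_add]
      exact lab_iot_sub hu k _
    rw [PP_mul b hL t _ _ _ _ h2, bet_iot_iot, one_smul]
    apply PP_congr
    rw [Equiv.coe_addLeft, map_add]
  rw [Finset.sum_congr rfl (fun v _ => h1 v), Finset.sum_const, Finset.card_univ,
    ← Nat.cast_smul_eq_nsmul ℂ, smul_smul]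
  congr 1
  have h3 : (Fintype.card (Fin k → ZMod (pr u)) : ℂ) = (pr u : ℂ) ^ k := by
    rw [Fintype.card_fun, ZMod.card, Fintype.card_fin]
    push_cast
    rfl
  rw [h3]
  have := pow_ne_zero k (pr_ne_zero u)
  field_simp

theorem star_smallP {t : List ℕ} {u : Lab} (hu : u ∈ L t) (k : ℕ) :
    star (smallP b hL hu k) = smallP b hL hu k := by
  unfold smallP
  rw [star_smul, star_sum]
  congr 1
  · simp
  · rw [← Equiv.sum_comp (Equiv.neg _)
      (fun w => PP b hL t (iot u k w) (lab_iot_sub hu k w))]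
    refine Finset.sum_congr rfl fun v _ => ?_
    have h2 : lab (-(iot u k v)) ⊆ L t := by
      rw [lab_neg]
      exact lab_iot_sub hu k _
    rw [star_PP b hL t _ _ h2, bet_iot_iot, one_smul]
    apply PP_congr
    rw [Equiv.neg_apply, map_neg]

theorem trace_smallP (T : cst b L hL →ₗ[ℂ] ℂ) (hT : ∀ X Y, T (X * Y) = T (Y * X))
    {t : List ℕ} {u : Lab} (hu : u ∈ L t) (k : ℕ) (h0 : lab 0 ⊆ L t) :
    T (PP b hL t 0 h0) = (pr u : ℂ) ^ k * T (smallP b hL hu k) := by
  unfold smallP
  rw [map_smul, map_sum, Finset.sum_eq_single (0 : Fin k → ZMod (pr u))]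
  · rw [PP_congr b hL t (lab_iot_sub hu k 0) h0 (map_zero _), smul_eq_mul, ← mul_assoc,
      mul_inv_cancel₀ (pow_ne_zero k (pr_ne_zero u)), one_mul]
  · intro v _ hv
    obtain ⟨h, hh, hne⟩ := exists_noncomm u k v hv
    refine trace_PP_eq_zero b hL T hT t _ h _ ?_ hne
    intro a ha
    have := hh ha
    rw [Set.mem_singleton_iff] at this
    rw [this]
    exact hu
  · intro h
    exact absurd (Finset.mem_univ _) h

theorem lab_zero_sub (t : List ℕ) : lab 0 ⊆ L t := by
  rw [lab_zero]
  exact Set.empty_subset _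

variable {L' : List ℕ → Set Lab} (hL' : Mono L')

/-- the image of the projection of a node -/
noncomputable def ff (π : cst b L hL →⋆ₙₐ[ℂ] cst b L' hL') (t : List ℕ) : H →L[ℂ] H :=
  (π (PP b hL t 0 (lab_zero_sub t)) : H →L[ℂ] H)

theorem ff_mem (π : cst b L hL →⋆ₙₐ[ℂ] cst b L' hL') (t : List ℕ) :
    ff b hL hL' π t ∈ cst b L' hL' := (π (PP b hL t 0 (lab_zero_sub t))).2

theorem ff_mul (π : cst b L hL →⋆ₙₐ[ℂ] cst b L' hL') {t t' : List ℕ} (h : t <+: t') :
    ff b hL hL' π t' * ff b hL hL' π t = ff b hL hL' π t' := by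
  have h1 : PP b hL t' 0 (lab_zero_sub t') * PP b hL t 0 (lab_zero_sub t) =
      PP b hL t' 0 (lab_zero_sub t') := by
    apply Subtype.ext
    show EE b t' 0 * EE b t 0 = EE b t' 0
    rw [EE_mul_of_prefix' b h, bet_zero_left, one_smul, add_zero]
  have h2 := congrArg (fun z => ((π z : cst b L' hL') : H →L[ℂ] H)) h1
  simp only [map_mul] at h2
  exact h2

theorem ff_proj (π : cst b L hL →⋆ₙₐ[ℂ] cst b L' hL') (t : List ℕ) :
    IsStarProjection (ff b hL hL' π t) := by
  refine ⟨ff_mul b hL hL' π (List.prefix_refl t), ?_⟩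
  show star (ff b hL hL' π t) = ff b hL hL' π t
  have h1 : star (PP b hL t 0 (lab_zero_sub t)) = PP b hL t 0 (lab_zero_sub t) := by
    apply Subtype.ext
    show star (EE b t 0) = EE b t 0
    rw [star_EE, bet_zero_left, one_smul, neg_zero]
  have h2 := congrArg (fun z => ((π z : cst b L' hL') : H →L[ℂ] H)) h1
  simp only [map_star] at h2
  exact h2

theorem EE_zero_ne (t : List ℕ) : EE b t 0 ≠ 0 := by
  classical
  intro h
  have h1 := tau_EE b t 0 0 t 0
  rw [h, map_zero] at h1
  simp at h1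

theorem ff_ne_zero (π : cst b L hL →⋆ₙₐ[ℂ] cst b L' hL') (hπ : Function.Injective π)
    (t : List ℕ) : ff b hL hL' π t ≠ 0 := by
  intro h
  have h1 : π (PP b hL t 0 (lab_zero_sub t)) = π 0 := by
    rw [map_zero]
    exact Subtype.ext h
  have h2 := hπ h1
  exact EE_zero_ne b t (congrArg Subtype.val h2)

/-- labels are detected by divisibility of traces -/
theorem label_of_trace (π : cst b L hL →⋆ₙₐ[ℂ] cst b L' hL') {t w : List ℕ} {u : Lab}
    (hu : u ∈ L t) (hw : tau b (w, 0, 0) (ff b hL hL' π t) ≠ 0) : u ∈ L' w := by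
  let T : cst b L hL →ₗ[ℂ] ℂ :=
    { toFun := fun X => tau b (w, 0, 0) (π X : H →L[ℂ] H)
      map_add' := fun X Y => by simp [map_add]
      map_smul' := fun c X => by simp [map_smul] }
  have hTa : ∀ X, T X = tau b (w, 0, 0) (π X : H →L[ℂ] H) := fun X => rfl
  have hT : ∀ X Y, T (X * Y) = T (Y * X) := by
    intro X Y
    rw [hTa, hTa, map_mul, map_mul]
    exact tau_comm b hL' (π X).2 (π Y).2 _
  by_contra hcon
  have hcop : ∀ F : AddSubgroup Gam, Finite F → F ≤ GG (L' w) →
      Nat.Coprime (pr u) (Nat.card F) := by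
    intro F hF hFG
    rw [(pr_prime u).coprime_iff_not_dvd]
    intro hd
    obtain ⟨u', hu', he⟩ := exists_label_of_dvd_card F hFG (pr_prime u) hd
    rw [pr_injective he] at hcon
    exact hcon hu'
  obtain ⟨n, F, hF, hFG, hn⟩ := tau_rational b hL' (ff_proj b hL hL' π t)
    (ff_mem b hL hL' π t) w
  have hcard : 0 < Nat.card F := Nat.card_pos
  have hpow : ∀ k : ℕ, (pr u) ^ k ∣ n := by
    intro k
    have hproj : IsStarProjection (π (smallP b hL hu k) : H →L[ℂ] H) := by
      constructor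
      · have h2 := congrArg (fun z => ((π z : cst b L' hL') : H →L[ℂ] H))
          (smallP_idem b hL hu k)
        simp only [map_mul] at h2
        exact h2
      · have h2 := congrArg (fun z => ((π z : cst b L' hL') : H →L[ℂ] H))
          (star_smallP b hL hu k)
        simp only [map_star] at h2
        exact h2
    obtain ⟨n', F', hF', hFG', hn'⟩ := tau_rational b hL' hproj (π (smallP b hL hu k)).2 w
    have hcard' : 0 < Nat.card F' := Nat.card_pos
    have h3 := trace_smallP b hL T hT hu k (lab_zero_sub t)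
    rw [hTa, hTa] at h3
    have h4 : tau b (w, 0, 0) (ff b hL hL' π t) =
        (pr u : ℂ) ^ k * tau b (w, 0, 0) (π (smallP b hL hu k) : H →L[ℂ] H) := h3
    have h5 : (n * Nat.card F' : ℂ) = (pr u : ℂ) ^ k * (n' * Nat.card F) := by
      rw [← hn, ← hn', h4]
      ring
    have h6 : n * Nat.card F' = (pr u) ^ k * (n' * Nat.card F) := by exact_mod_cast h5
    have h7 : (pr u) ^ k ∣ n * Nat.card F' := ⟨_, h6⟩
    exact (Nat.Coprime.pow_left k (hcop F' hF' hFG')).dvd_of_dvd_mul_right h7
  have hn0 : n = 0 := by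
    by_contra hne
    obtain ⟨k, hk⟩ : ∃ k, n < (pr u) ^ k :=
      ⟨n, Nat.lt_pow_self (pr_prime u).one_lt⟩
    exact absurd (Nat.le_of_dvd (Nat.pos_of_ne_zero hne) (hpow k)) (by omega)
  apply hw
  rw [hn0, Nat.cast_zero] at hn
  rcases mul_eq_zero.1 hn with h1 | h1
  · exact h1
  · exfalso
    have : Nat.card F = 0 := by exact_mod_cast h1
    omega

/-- the detection theorem -/
theorem detect {g : (ℕ → ℕ) → Cant × Cant} {Q : Cant → Cant → Prop}
    (hg : ∀ a b, Q a b ↔ ∃ δ, g δ = (a, b)) (hc : Continuous g) (hrefl : ∀ a, Q a a)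
    (htrans : ∀ a b c, Q a b → Q b c → Q a c) {x y : Cant}
    (hx : Mono (LL g x)) (hy : Mono (LL g y))
    (π : cst b (LL g x) hx →⋆ₙₐ[ℂ] cst b (LL g y) hy) (hπ : Function.Injective π) :
    Q x y := by
  classical
  let f : ℕ → (H →L[ℂ] H) := fun n => ff b hx hy π (List.replicate n 0)
  have hf : ∀ n, f n = ff b hx hy π (List.replicate n 0) := fun n => rfl
  have hpre : ∀ m n, m ≤ n → List.replicate m 0 <+: List.replicate n 0 := by
    intro m n hmn
    refine ⟨List.replicate (n - m) 0, ?_⟩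
    rw [← List.replicate_add]
    congr 1
    omega
  have hlab : ∀ n w, tau b (w, 0, 0) (f n) ≠ 0 → n ≤ w.length ∧ RR g n x y (ext0 w) := by
    intro n w hw
    apply RR_of_restr_mem
    refine label_of_trace b hx hy π (t := List.replicate n 0) ?_ hw
    exact restr_mem_LL x n _ (by rw [List.length_replicate])
  have hmono : ∀ m n w, m ≤ n → tau b (w, 0, 0) (f n) ≠ 0 → tau b (w, 0, 0) (f m) ≠ 0 := by
    intro m n w hmn hw h0
    apply hw
    have h1 : f m (b (w, 0, 0)) = 0 :=
      proj_apply_eq_zero b hy (ff_proj b hx hy π _) (ff_mem b hx hy π _) h0 0 0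
    have h2 : f n * f m = f n := ff_mul b hx hy π (hpre m n hmn)
    have h3 : f n (b (w, 0, 0)) = 0 := by
      rw [← h2]
      show f n (f m (b (w, 0, 0))) = 0
      rw [h1, map_zero]
    rw [tau_apply, h3, repr_zero']
  let K : ℕ → Set (List ℕ) := fun n =>
    {v | v.length = n ∧ ∃ w, v <+: w ∧ tau b (w, 0, 0) (f n) ≠ 0}
  have hKfin : ∀ n, (K n).Finite := by
    intro n
    refine finite_levels b hy (ff_proj b hx hy π _) (ff_mem b hx hy π _) n ?_
    intro w hw
    by_contra hne
    have := (hlab n w hne).1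
    omega
  have hKne : ∀ n, (K n).Nonempty := by
    intro n
    obtain ⟨w, hw⟩ := exists_tau_ne_zero b hy (ff_proj b hx hy π (List.replicate n 0))
      (ff_mem b hx hy π _) (ff_ne_zero b hx hy π hπ _)
    have hl := (hlab n w hw).1
    refine ⟨w.take n, ?_, w, List.take_prefix _ _, hw⟩
    rw [List.length_take]
    omega
  have hKres : ∀ m n v, m ≤ n → v ∈ K n → v.take m ∈ K m := by
    rintro m n v hmn ⟨hv, w, hvw, hw⟩
    refine ⟨?_, w, (List.take_prefix _ _).trans hvw, hmono m n w hmn hw⟩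
    rw [List.length_take]
    omega
  have hne : ∀ i, Nonempty {v // v ∈ K i} := fun i => (hKne i).to_subtype
  have hfi : ∀ i, Finite {v // v ∈ K i} := fun i => (hKfin i).to_subtype
  have hfi0 : Finite {v // v ∈ K 0} := hfi 0
  obtain ⟨s, hs⟩ := exists_seq_forall_proj_of_forall_finite (α := fun n => {v // v ∈ K n})
    (fun {i j} hij v => ⟨v.1.take i, hKres i j v.1 hij v.2⟩)
    (by
      rintro i ⟨v, hv⟩
      apply Subtype.ext
      show v.take i = v
      rw [← hv.1, List.take_length])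
    (by
      rintro i j k hij hjk ⟨v, hv⟩
      apply Subtype.ext
      show (v.take j).take i = v.take i
      rw [List.take_take, min_eq_left hij])
    (by
      intro i a
      exact Set.toFinite _)
  let β : ℕ → ℕ := fun i => (s (i + 1)).1.getD i 0
  have hβ : ∀ n, agree n (ext0 (s n).1) β := by
    intro n i hi
    have h1 := hs (show i + 1 ≤ n from hi)
    have h2 : (s n).1.take (i + 1) = (s (i + 1)).1 := congrArg Subtype.val h1
    show (s n).1.getD i 0 = (s (i + 1)).1.getD i 0
    rw [← h2]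
    simp [List.getD_eq_getElem?_getD, List.getElem?_take]
  refine of_RR hg hc hrefl htrans (γ := β) fun n => ?_
  obtain ⟨hl, w, hvw, hw⟩ := (s n).2
  have h1 := (hlab n w hw).2
  refine RR_congr (agree.refl _ _) (agree.refl _ _) ?_ h1
  exact (agree_ext0 hvw hl.ge).symm.trans (hβ n)

end Pool.Agent.Lib.MP_5f80dd_lc
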