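import Pool.Agent.Lib.MP_5f80dd_lc.Simp

set_option autoImplicit false

namespace Pool.Agent.Lib.MP_5f80dd_lc

open scoped InnerProductSpace ENNReal

namespace PT

variable {J G : Type} {D : PT J G} [DecidableEq J]
variable {H : Type*} [NormedAddCommGroup H] [InnerProductSpace ℂ H] [CompleteSpace H]
  (b : HilbertBasis D.Om ℂ H)

/-- the dimension of a projection at a point -/
noncomputable def dm (Y : Set J) (z : G) (q : H →L[ℂ] H) : ℂ :=
  (tower b Y).dim (fun F => TT b z F.1) q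

theorem tower_tr (Y : Set J) (z : G) : ∀ F : {F : Finset J // (F : Set J) ⊆ Y},
    ∀ x ∈ (tower b Y).St F, ∀ y ∈ (tower b Y).St F,
    (fun F : {F : Finset J // (F : Set J) ⊆ Y} => TT b z F.1) F (x * y) =
    (fun F : {F : Finset J // (F : Set J) ⊆ Y} => TT b z F.1) F (y * x) :=
  fun F _ hx _ hy => TT_tracial b z F.1 hx hy

theorem tower_comp (Y : Set J) (z : G) : ∀ F F' : {F : Finset J // (F : Set J) ⊆ Y},
    (tower b Y).le F F' → ∀ x ∈ (tower b Y).St F,
    (fun F : {F : Finset J // (F : Set J) ⊆ Y} => TT b z F.1) F' x =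
    (fun F : {F : Finset J // (F : Set J) ⊆ Y} => TT b z F.1) F x :=
  fun _ _ h _ hx => TT_compat b z h hx

theorem dm_add (Y : Set J) (z : G) {q₁ q₂ : H →L[ℂ] H} (h₁ : q₁ ∈ BB b Y) (h₂ : q₂ ∈ BB b Y)
    (hp₁ : IsStarProjection q₁) (hp₂ : IsStarProjection q₂) (h0 : q₁ * q₂ = 0) :
    dm b Y z (q₁ + q₂) = dm b Y z q₁ + dm b Y z q₂ :=
  (tower b Y).dim_add (fun F => TT b z F.1) (tower_tr b Y z) (tower_comp b Y z) h₁ h₂ hp₁ hp₂ h0

theorem dm_sum (Y : Set J) (z : G) {n : ℕ} (q : ℕ → (H →L[ℂ] H))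
    (hq : ∀ i, i < n → q i ∈ BB b Y) (hp : ∀ i, i < n → IsStarProjection (q i))
    (h0 : ∀ i j, i < n → j < n → i ≠ j → q i * q j = 0) :
    dm b Y z (∑ i ∈ Finset.range n, q i) = ∑ i ∈ Finset.range n, dm b Y z (q i) :=
  (tower b Y).dim_sum (fun F => TT b z F.1) (tower_tr b Y z) (tower_comp b Y z) q hq hp h0

theorem dm_equiv (Y : Set J) (z : G) {V : H →L[ℂ] H} (hV : V ∈ BB b Y)
    (h1 : V * star V * V = V) (h0 : V * V = 0) :
    dm b Y z (V * star V) = dm b Y z (star V * V) :=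
  (tower b Y).dim_equiv (fun F => TT b z F.1) (tower_tr b Y z) (tower_comp b Y z) hV h1 h0

/-- the dimension as a function of the point -/
theorem dm_form {Y : Set J} {q : H →L[ℂ] H} (hq : IsStarProjection q) (hqB : q ∈ BB b Y) :
    ∃ F : Finset J, (F : Set J) ⊆ Y ∧ ∃ p ∈ St b F, IsStarProjection p ∧ ‖q - p‖ < 1 / 2 ∧
      ∀ z, dm b Y z q = TT b z F p := by
  obtain ⟨F, p, hp, hpp, hqp⟩ := (tower b Y).exists_proj hqB hq (show (0 : ℝ) < 1 / 4 by norm_num)
  refine ⟨F.1, F.2, p, hp, hpp, by linarith, fun z => ?_⟩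
  exact (tower b Y).dim_eq (fun F => TT b z F.1) (tower_tr b Y z) (tower_comp b Y z)
    ⟨F, p, hp, hpp, by linarith, rfl⟩

theorem dm_int {Y : Set J} {q : H →L[ℂ] H} (hq : IsStarProjection q) (hqB : q ∈ BB b Y) (z : G) :
    ∃ F : Finset J, (F : Set J) ⊆ Y ∧ ∃ n : ℤ, dm b Y z q * ((sF D F z : ℤ) : ℂ) = n := by
  obtain ⟨F, hF, p, hp, hpp, _, h⟩ := dm_form b hq hqB
  rw [h z]
  exact ⟨F, hF, exists_int b hpp hp z⟩

theorem dm_locally {Y : Set J} {q : H →L[ℂ] H} (hq : IsStarProjection q) (hqB : q ∈ BB b Y) :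
    ∃ F : Finset J, (F : Set J) ⊆ Y ∧ ∀ z z', (∀ j ∈ F, D.c j z = D.c j z') →
      dm b Y z q = dm b Y z' q := by
  obtain ⟨F, hF, p, hp, hpp, _, h⟩ := dm_form b hq hqB
  refine ⟨F, hF, fun z z' hz => ?_⟩
  rw [h z, h z']
  exact TT_congr_point b hz p

theorem dm_ne_zero {Y : Set J} {q : H →L[ℂ] H} (hq : IsStarProjection q) (hqB : q ∈ BB b Y)
    (hq0 : q ≠ 0) {z : G} (hz : ∀ j, D.c j z = 1) : dm b Y z q ≠ 0 := by
  obtain ⟨F, hF, p, hp, hpp, hqp, h⟩ := dm_form b hq hqB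
  rw [h z]
  refine TT_ne_zero b hpp hp (fun j _ => hz j) ?_
  rintro rfl
  rw [sub_zero] at hqp
  have h1 : ‖q‖ = ‖q‖ * ‖q‖ := by
    have h2 : ‖star q * q‖ = ‖q‖ * ‖q‖ := CStarRing.norm_star_mul_self
    have h3 : star q = q := hq.isSelfAdjoint
    have h4 : q * q = q := hq.isIdempotentElem
    rwa [h3, h4] at h2
  have h2 : 0 < ‖q‖ := norm_pos_iff.2 hq0
  nlinarith

section hom

variable {X Y : Set J} (π : (BB b X) →⋆ₙₐ[ℂ] (BB b Y))

open Classical in
/-- the extension by zero of a homomorphism -/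
noncomputable def pit (x : H →L[ℂ] H) : H →L[ℂ] H :=
  if h : x ∈ BB b X then (π ⟨x, h⟩ : H →L[ℂ] H) else 0

theorem pit_of_mem {x : H →L[ℂ] H} (h : x ∈ BB b X) : pit b π x = (π ⟨x, h⟩ : H →L[ℂ] H) :=
  dif_pos h

theorem pit_mem {x : H →L[ℂ] H} (h : x ∈ BB b X) : pit b π x ∈ BB b Y := by
  rw [pit_of_mem b π h]
  exact (π ⟨x, h⟩).2

theorem pit_mul {x y : H →L[ℂ] H} (hx : x ∈ BB b X) (hy : y ∈ BB b X) :
    pit b π (x * y) = pit b π x * pit b π y := by
  rw [pit_of_mem b π hx, pit_of_mem b π hy, pit_of_mem b π (mul_mem hx hy)]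
  have : (⟨x * y, mul_mem hx hy⟩ : BB b X) = ⟨x, hx⟩ * ⟨y, hy⟩ := rfl
  rw [this, map_mul]
  rfl

theorem pit_star {x : H →L[ℂ] H} (hx : x ∈ BB b X) : pit b π (star x) = star (pit b π x) := by
  rw [pit_of_mem b π hx, pit_of_mem b π (star_mem hx)]
  have : (⟨star x, star_mem hx⟩ : BB b X) = star ⟨x, hx⟩ := rfl
  rw [this, map_star]
  rfl

theorem pit_add {x y : H →L[ℂ] H} (hx : x ∈ BB b X) (hy : y ∈ BB b X) :
    pit b π (x + y) = pit b π x + pit b π y := by
  rw [pit_of_mem b π hx, pit_of_mem b π hy, pit_of_mem b π (add_mem hx hy)]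
  have : (⟨x + y, add_mem hx hy⟩ : BB b X) = ⟨x, hx⟩ + ⟨y, hy⟩ := rfl
  rw [this, map_add]
  rfl

theorem pit_zero : pit b π 0 = 0 := by
  rw [pit_of_mem b π (zero_mem _)]
  have : (⟨0, zero_mem _⟩ : BB b X) = 0 := rfl
  rw [this, map_zero]
  rfl

theorem pit_sum {n : ℕ} (x : ℕ → (H →L[ℂ] H)) (hx : ∀ i, x i ∈ BB b X) :
    pit b π (∑ i ∈ Finset.range n, x i) = ∑ i ∈ Finset.range n, pit b π (x i) := by
  induction n with
  | zero => rw [Finset.sum_range_zero, Finset.sum_range_zero, pit_zero]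
  | succ n ih =>
    rw [Finset.sum_range_succ, Finset.sum_range_succ,
      pit_add b π (sum_mem fun i _ => hx i) (hx n), ih]

theorem pit_ne_zero (hπ : Function.Injective π) {x : H →L[ℂ] H} (hx : x ∈ BB b X)
    (hx0 : x ≠ 0) : pit b π x ≠ 0 := by
  rw [pit_of_mem b π hx]
  intro h
  have h1 : π ⟨x, hx⟩ = π 0 := by
    rw [map_zero]
    exact Subtype.ext h
  exact hx0 (congrArg Subtype.val (hπ h1))

/-- the dimension of the image of a diagonal matrix unit -/
noncomputable def phi (z : G) (F : Finset J) (v : D.Om) : ℂ := dm b Y z (pit b π (E b F v v))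

theorem E_diag_mem {F : Finset J} (hF : (F : Set J) ⊆ X) (v : D.Om) : E b F v v ∈ BB b X :=
  E_mem_BB b hF (fun _ => rfl)

theorem pit_E_proj {F : Finset J} (hF : (F : Set J) ⊆ X) (v : D.Om) :
    IsStarProjection (pit b π (E b F v v)) := by
  have hm := E_diag_mem b hF v
  constructor
  · show pit b π (E b F v v) * pit b π (E b F v v) = pit b π (E b F v v)
    rw [← pit_mul b π hm hm, E_mul_pos b (agr.refl F v)]
  · show star (pit b π (E b F v v)) = pit b π (E b F v v)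
    rw [← pit_star b π hm, star_E]

theorem phi_refine (z : G) {F : Finset J} {j : J} (hj : j ∉ F)
    (hF : ((insert j F : Finset J) : Set J) ⊆ X) (v : D.Om) :
    phi b π z F v = ∑ m ∈ Finset.range (D.d j), phi b π z (insert j F) (up1 v j m) := by
  unfold phi
  rw [E_insert b hj, pit_sum b π _ (fun m => E_diag_mem b hF _)]
  refine dm_sum b Y z (fun m => pit b π (E b (insert j F) (up1 v j m) (up1 v j m)))
    (fun m _ => pit_mem b π (E_diag_mem b hF _)) (fun m _ => pit_E_proj b π hF _) ?_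
  intro m m' hm hm' hne
  show pit b π _ * pit b π _ = 0
  rw [← pit_mul b π (E_diag_mem b hF _) (E_diag_mem b hF _), E_mul_neg, pit_zero]
  intro h
  have := h j (Finset.mem_insert_self j F)
  rw [va_up1_self v hm, va_up1_self v hm'] at this
  exact hne this

theorem phi_chEq (z : G) {F : Finset J} (hF : (F : Set J) ⊆ X) {v w : D.Om}
    (h : chEq F v w) : phi b π z F v = phi b π z F w := by
  by_cases hvw : agr F v w
  · unfold phi
    rw [E_congr b hvw hvw]
  · have hm : E b F v w ∈ BB b X := E_mem_BB b hF h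
    have e1 : pit b π (E b F v w) * star (pit b π (E b F v w)) = pit b π (E b F v v) := by
      rw [← pit_star b π hm, ← pit_mul b π hm (star_mem hm), star_E, E_mul_pos b (agr.refl F w)]
    have e2 : star (pit b π (E b F v w)) * pit b π (E b F v w) = pit b π (E b F w w) := by
      rw [← pit_star b π hm, ← pit_mul b π (star_mem hm) hm, star_E, E_mul_pos b (agr.refl F v)]
    unfold phi
    rw [← e1, ← e2]
    refine dm_equiv b Y z (pit_mem b π hm) ?_ ?_
    · rw [e1, ← pit_mul b π (E_diag_mem b hF v) hm, E_mul_pos b (agr.refl F v)]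
    · rw [← pit_mul b π hm hm, E_mul_neg b (fun h' => hvw h'.symm), pit_zero]

theorem phi_split (z : G) {F : Finset J} {j : J} (hj : j ∉ F)
    (hF : ((insert j F : Finset J) : Set J) ⊆ X) (v : D.Om) :
    phi b π z F v = D.a j * phi b π z (insert j F) (up1 v j 0) +
      D.b j * phi b π z (insert j F) (up1 v j (D.a j)) := by
  rw [phi_refine b π z hj hF]
  unfold d
  rw [Finset.sum_range_add]
  have hd : D.a j < D.d j := by
    have := D.hb j
    unfold d
    omega
  have h1 : ∀ m ∈ Finset.range (D.a j), phi b π z (insert j F) (up1 v j m) =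
      phi b π z (insert j F) (up1 v j 0) := by
    intro m hm
    have hm' := Finset.mem_range.1 hm
    refine phi_chEq b π z hF fun z' => ?_
    rw [ch_insert_up1 hj z' v (by omega), ch_insert_up1 hj z' v (D.d_pos j), ls_pos hm',
      ls_pos (by omega)]
  have h2 : ∀ m ∈ Finset.range (D.b j), phi b π z (insert j F) (up1 v j (D.a j + m)) =
      phi b π z (insert j F) (up1 v j (D.a j)) := by
    intro m hm
    have hm' := Finset.mem_range.1 hm
    refine phi_chEq b π z hF fun z' => ?_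
    rw [ch_insert_up1 hj z' v (by unfold d; omega), ch_insert_up1 hj z' v hd,
      ls_neg (by omega), ls_neg (by omega)]
  rw [Finset.sum_congr rfl h1, Finset.sum_congr rfl h2]
  simp

/-- the basic divisibility step -/
theorem phi_step (z : G) {F : Finset J} {j : J} (hj : j ∉ F)
    (hF : ((insert j F : Finset J) : Set J) ⊆ X) {v v' : D.Om}
    (hv0 : D.va v j = 0) (hv0' : D.va v' j = 0)
    (hvv' : ∀ z, ch F z v' = ch F z v * D.c j z) {ε : ℂ} (hε : ε * ε = 1) :
    phi b π z F v + ε * phi b π z F v' = (D.a j + ε * D.b j) *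
      (phi b π z (insert j F) v + ε * phi b π z (insert j F) v') := by
  have hd : D.a j < D.d j := by
    have := D.hb j
    unfold d
    omega
  have u0 : ∀ x : D.Om, D.va x j = 0 → up1 x j 0 = x := by
    intro x hx
    apply om_ext
    intro i
    by_cases hi : i = j
    · subst hi
      rw [va_up1_self x (D.d_pos i), hx]
    · rw [va_up1_ne x 0 hi]
  have hz0 : ∀ (x : D.Om) (z : G), D.va x j = 0 → ch (insert j F) z x = ch F z x := by
    intro x z hx
    have := ch_insert_up1 hj z x (D.d_pos j)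
    rw [u0 x hx, ls_pos (by have := D.hab j; omega), one_mul] at this
    exact this
  have e1 : phi b π z (insert j F) (up1 v j (D.a j)) = phi b π z (insert j F) v' := by
    refine phi_chEq b π z hF fun z' => ?_
    rw [ch_insert_up1 hj z' v hd, ls_neg (lt_irrefl _), hz0 v' z' hv0', hvv' z', mul_comm]
  have e2 : phi b π z (insert j F) (up1 v' j (D.a j)) = phi b π z (insert j F) v := by
    refine phi_chEq b π z hF fun z' => ?_
    rw [ch_insert_up1 hj z' v' hd, ls_neg (lt_irrefl _), hz0 v z' hv0, hvv' z']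
    have := c_mul_c (D := D) j z'
    linear_combination (ch F z' v) * this
  rw [phi_split b π z hj hF v, phi_split b π z hj hF v', e1, e2, u0 v hv0, u0 v' hv0']
  linear_combination (-(D.b j : ℂ) * phi b π z (insert j F) v') * hε

/-- iterated divisibility -/
theorem phi_iter (z : G) {F₀ : Finset J} (σ : ℕ → J) (hσ : Function.Injective σ)
    (hσF : ∀ k, σ k ∉ F₀) (hF₀ : (F₀ : Set J) ⊆ X) (hσX : ∀ k, σ k ∈ X) {a₀ b₀ : ℕ}
    (ha : ∀ k, D.a (σ k) = a₀) (hb : ∀ k, D.b (σ k) = b₀) (c₀ : G → ℤ)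
    (hc : ∀ k z, D.c (σ k) z = c₀ z) {v v' : D.Om} (hv0 : ∀ k, D.va v (σ k) = 0)
    (hv0' : ∀ k, D.va v' (σ k) = 0) (hvv' : ∀ z, ch F₀ z v' = ch F₀ z v * c₀ z)
    {ε : ℂ} (hε : ε * ε = 1) (n : ℕ) :
    (∀ z, ch (F₀ ∪ (Finset.range n).image σ) z v' =
      ch (F₀ ∪ (Finset.range n).image σ) z v * c₀ z) ∧
    phi b π z F₀ v + ε * phi b π z F₀ v' = (a₀ + ε * b₀) ^ n *
      (phi b π z (F₀ ∪ (Finset.range n).image σ) v +
        ε * phi b π z (F₀ ∪ (Finset.range n).image σ) v') := by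
  induction n with
  | zero =>
    refine ⟨fun z => ?_, ?_⟩
    · simpa using hvv' z
    · simp
  | succ n ih =>
    obtain ⟨ih1, ih2⟩ := ih
    set Fn : Finset J := F₀ ∪ (Finset.range n).image σ with hFn
    have hins : F₀ ∪ (Finset.range (n + 1)).image σ = insert (σ n) Fn := by
      rw [Finset.range_add_one, Finset.image_insert, Finset.union_insert]
    have hnot : σ n ∉ Fn := by
      rw [hFn, Finset.mem_union, not_or]
      refine ⟨hσF n, ?_⟩
      intro h
      obtain ⟨i, hi, hin⟩ := Finset.mem_image.1 h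
      have := hσ hin
      have := Finset.mem_range.1 hi
      omega
    have hX : ((insert (σ n) Fn : Finset J) : Set J) ⊆ X := by
      intro j hj
      rcases Finset.mem_insert.1 (Finset.mem_coe.1 hj) with rfl | hj
      · exact hσX n
      · rcases Finset.mem_union.1 hj with hj | hj
        · exact hF₀ hj
        · obtain ⟨i, _, rfl⟩ := Finset.mem_image.1 hj
          exact hσX i
    have hzero : ∀ (x : D.Om) (z : G), D.va x (σ n) = 0 →
        ch (insert (σ n) Fn) z x = ch Fn z x := by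
      intro x z hx
      unfold ch
      rw [Finset.prod_insert hnot, hx, ls_pos (by have := D.hab (σ n); omega), one_mul]
    rw [hins]
    refine ⟨fun z => ?_, ?_⟩
    · rw [hzero v' z (hv0' n), hzero v z (hv0 n)]
      exact ih1 z
    · rw [ih2, phi_step b π z hnot hX (hv0 n) (hv0' n) (fun z => by rw [hc n z]; exact ih1 z) hε,
        ha n, hb n, pow_succ]
      ring

/-- vanishing by divisibility -/
theorem phi_zero (z : G) {F₀ : Finset J} (σ : ℕ → J) (hσ : Function.Injective σ)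
    (hσF : ∀ k, σ k ∉ F₀) (hF₀ : (F₀ : Set J) ⊆ X) (hσX : ∀ k, σ k ∈ X) {a₀ b₀ : ℕ}
    (ha : ∀ k, D.a (σ k) = a₀) (hb : ∀ k, D.b (σ k) = b₀) (c₀ : G → ℤ)
    (hc : ∀ k z, D.c (σ k) z = c₀ z) {v v' : D.Om} (hv0 : ∀ k, D.va v (σ k) = 0)
    (hv0' : ∀ k, D.va v' (σ k) = 0) (hvv' : ∀ z, ch F₀ z v' = ch F₀ z v * c₀ z)
    {ε : ℤ} (hε : ε * ε = 1) {q : ℕ} (hq : q.Prime) (hqd : (q : ℤ) ∣ a₀ + ε * b₀)
    (hqs : ∀ j ∈ Y, ¬ (q : ℤ) ∣ D.s j z) :
    phi b π z F₀ v + ε * phi b π z F₀ v' = 0 := by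
  have hqp : Prime (q : ℤ) := Nat.prime_iff_prime_int.1 hq
  have hεC : (ε : ℂ) * ε = 1 := by exact_mod_cast hε
  have hqsF : ∀ F : Finset J, (F : Set J) ⊆ Y → ¬ (q : ℤ) ∣ sF D F z := by
    intro F hF h
    obtain ⟨j, hj, hjd⟩ := (hqp.dvd_finset_prod_iff _).1 h
    exact hqs j (hF hj) hjd
  -- integrality of the combination
  have hint : ∀ F : Finset J, (F : Set J) ⊆ X → ∃ P n : ℤ, ¬ (q : ℤ) ∣ P ∧
      (phi b π z F v + ε * phi b π z F v') * P = n := by
    intro F hF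
    obtain ⟨F₁, hF₁, n₁, hn₁⟩ := dm_int b (pit_E_proj b π hF v) (pit_mem b π (E_diag_mem b hF v)) z
    obtain ⟨F₂, hF₂, n₂, hn₂⟩ := dm_int b (pit_E_proj b π hF v')
      (pit_mem b π (E_diag_mem b hF v')) z
    refine ⟨sF D F₁ z * sF D F₂ z, n₁ * sF D F₂ z + ε * (n₂ * sF D F₁ z), ?_, ?_⟩
    · intro h
      rcases hqp.dvd_or_dvd h with h | h
      · exact hqsF F₁ hF₁ h
      · exact hqsF F₂ hF₂ h
    · unfold phi
      push_cast
      rw [← hn₁, ← hn₂]
      ring
  obtain ⟨P₀, n₀, hP₀, hn₀⟩ := hint F₀ hF₀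
  have hpow : ∀ k : ℕ, (q : ℤ) ^ k ∣ n₀ := by
    intro k
    have hFk : ((F₀ ∪ (Finset.range k).image σ : Finset J) : Set J) ⊆ X := by
      intro j hj
      rcases Finset.mem_union.1 (Finset.mem_coe.1 hj) with hj | hj
      · exact hF₀ hj
      · obtain ⟨i, _, rfl⟩ := Finset.mem_image.1 hj
        exact hσX i
    obtain ⟨Pk, nk, hPk, hnk⟩ := hint _ hFk
    have h1 := (phi_iter b π z σ hσ hσF hF₀ hσX ha hb c₀ hc hv0 hv0' hvv' hεC k).2
    have h2 : ((n₀ * Pk : ℤ) : ℂ) = (((a₀ + ε * b₀) ^ k * (nk * P₀) : ℤ) : ℂ) := by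
      push_cast
      rw [← hn₀, ← hnk, h1]
      ring
    have h3 : n₀ * Pk = (a₀ + ε * b₀) ^ k * (nk * P₀) := by exact_mod_cast h2
    have h4 : (q : ℤ) ^ k ∣ Pk * n₀ := by
      rw [mul_comm, h3]
      exact (pow_dvd_pow_of_dvd hqd k).trans (dvd_mul_right _ _)
    exact hqp.pow_dvd_of_dvd_mul_left k hPk h4
  have hn : n₀ = 0 := by
    by_contra hne
    obtain ⟨k, hk⟩ : ∃ k, n₀.natAbs < q ^ k := ⟨n₀.natAbs, Nat.lt_pow_self hq.one_lt⟩
    have h1 : q ^ k ∣ n₀.natAbs := by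
      have := Int.natAbs_dvd_natAbs.2 (hpow k)
      simpa [Int.natAbs_pow] using this
    exact absurd (Nat.le_of_dvd (Int.natAbs_pos.2 hne) h1) (by omega)
  rw [hn, Int.cast_zero] at hn₀
  rcases mul_eq_zero.1 hn₀ with h | h
  · exact h
  · exfalso
    apply hP₀
    have : P₀ = 0 := by exact_mod_cast h
    rw [this]
    exact dvd_zero _

end hom

end PT

end Pool.Agent.Lib.MP_5f80dd_lc
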