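import Pool.Agent.Lib.MP_5f80dd_lc.Sites
import Pool.Agent.Lib.MP_5f80dd_lc.Det3

set_option autoImplicit false

namespace Pool.Agent.Lib.MP_5f80dd_lc

open PT

/-- the basic nodes -/
def tn (n : ℕ) : List ℕ := List.replicate n 0

theorem length_tn (n : ℕ) : (tn n).length = n := List.length_replicate

theorem tn_succ (n : ℕ) : tn n ++ [0] = tn (n + 1) := (List.replicate_succ').symm

/-- the basic sites -/
def jn (n : ℕ) : Site := (none, tn n, 0, 0, true)

theorem jn_ne {n m : ℕ} (h : n ≠ m) : jn n ≠ jn m := by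
  intro h'
  apply h
  have h1 : tn n = tn m := congrArg (fun j : Site => j.2.1) h'
  have := congrArg List.length h1
  simpa [length_tn] using this

variable {g : (ℕ → ℕ) → Cant × Cant}

theorem jn_mem (x : Cant) (n : ℕ) : jn n ∈ XX g x :=
  ⟨rfl, fun u hu => by simp [jn] at hu, fun m hm => by simp [jn] at hm⟩

/-- the configuration with the sign of the node `tn n` -/
noncomputable def vn (n : ℕ) : Om DD := up1 0 (jn n) 3

theorem a_jn (n : ℕ) : DD.a (jn n) = 3 := rfl

theorem b_jn (n : ℕ) : DD.b (jn n) = 1 := rfl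

theorem d_jn (n : ℕ) : DD.d (jn n) = 4 := rfl

theorem va_vn_self (n : ℕ) : DD.va (vn n) (jn n) = 3 :=
  va_up1_self 0 (by rw [d_jn]; norm_num)

theorem va_vn_ne {n : ℕ} {j : Site} (h : j ≠ jn n) : DD.va (vn n) j = 0 := by
  rw [vn, va_up1_ne _ _ h]
  rfl

theorem c_jn (n : ℕ) (z : Pt) : DD.c (jn n) z = sg z (tn n) := rfl

theorem ls_zero (j : Site) (z : Pt) : DD.ls j 0 z = 1 := by
  refine ls_pos ?_ z
  have := DD.hab j
  omega

theorem ls_three (n : ℕ) (z : Pt) : DD.ls (jn n) 3 z = sg z (tn n) := by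
  rw [ls_neg (by rw [a_jn]; norm_num), c_jn]

theorem ch_zero (F : Finset Site) (z : Pt) : ch F z (0 : Om DD) = 1 := by
  unfold ch
  refine Finset.prod_eq_one fun j _ => ?_
  exact ls_zero j z

theorem ch_vn {F : Finset Site} {n : ℕ} (h : jn n ∈ F) (z : Pt) :
    ch F z (vn n) = sg z (tn n) := by
  unfold ch
  rw [Finset.prod_eq_single (jn n)]
  · rw [va_vn_self, ls_three]
  · intro j _ hne
    rw [va_vn_ne hne, ls_zero]
  · intro h'
    exact absurd h h'

section

variable {H : Type*} [NormedAddCommGroup H] [InnerProductSpace ℂ H] [CompleteSpace H]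
  (b : HilbertBasis (Om DD) ℂ H) {x y : Cant}
  (π : (BB b (XX g x)) →⋆ₙₐ[ℂ] (BB b (XX g y)))

/-- the detecting quantity -/
noncomputable def hh (n : ℕ) (z : Pt) : ℂ := phi b π z {jn n} 0 + phi b π z {jn n} (vn n)

theorem single_sub (x : Cant) (n : ℕ) : ((({jn n} : Finset Site)) : Set Site) ⊆ XX g x := by
  intro j hj
  have : j = jn n := by simpa using hj
  rw [this]
  exact jn_mem x n

theorem E_ne_zero (F : Finset Site) (v : Om DD) : E b F v v ≠ 0 := by
  classical
  intro h
  have h1 := en_E b F v v v v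
  rw [h, map_zero, if_pos ⟨agr.refl F v, upd_self (agr.refl F v)⟩] at h1
  exact zero_ne_one h1

theorem hh_zero (hπ : Function.Injective π) : hh b π 0 (fun _ => false) ≠ 0 := by
  have h1 : phi b π (fun _ => false) {jn 0} 0 ≠ 0 := by
    refine dm_ne_zero b (pit_E_proj b π (single_sub x 0) 0)
      (pit_mem b π (E_diag_mem b (single_sub x 0) 0))
      (pit_ne_zero b π hπ (E_diag_mem b (single_sub x 0) 0) (E_ne_zero b _ _)) ?_
    rintro ⟨ty, t, i, k, fl⟩
    have hs : ∀ t, sg (fun _ => false) t = 1 := by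
      intro t
      unfold sg
      simp
    rcases ty with _ | (u | n)
    · exact hs t
    · exact hs t
    · show sg _ t * sg _ (t ++ [i]) = 1
      rw [hs, hs, one_mul]
  have h2 : phi b π (fun _ => false) {jn 0} 0 = phi b π (fun _ => false) {jn 0} (vn 0) := by
    refine phi_chEq b π _ (single_sub x 0) fun z => ?_
    rw [ch_zero, ch_vn (Finset.mem_singleton_self _)]
    unfold sg
    simp [tn]
  unfold hh
  rw [← h2, ← two_mul]
  exact mul_ne_zero two_ne_zero h1

theorem hh_detect {n : ℕ} {z : Pt} (h : hh b π n z ≠ 0) :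
    ∃ j ∈ XX g y, (qq (Sum.inl (restr x n)) : ℤ) ∣ DD.s j z := by
  by_contra hcon
  push Not at hcon
  apply h
  have hodd : 2 * (qq (Sum.inl (restr x n)) / 2) + 1 = qq (Sum.inl (restr x n)) := by
    have h1 := (qq_prime (Sum.inl (restr x n))).eq_two_or_odd
    have h2 := two_lt_qq (Sum.inl (restr x n))
    omega
  have key := phi_zero b π z (F₀ := {jn n})
    (fun k : ℕ => ((some (Sum.inl (restr x n)), tn n, 0, k, true) : Site))
    (fun k k' hk => by simpa using hk)
    (fun k => by
      rw [Finset.mem_singleton]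
      intro h'
      have := congrArg (fun j : Site => j.1) h'
      simp [jn] at this)
    (single_sub x n)
    (fun k => ⟨rfl, fun u hu => by
      have : Sum.inl (restr x n) = (Sum.inl u : List Bool ⊕ ℕ) := Option.some.inj hu
      have := Sum.inl.inj this
      rw [← this]
      exact restr_mem_LL x n (tn n) (length_tn n).ge, fun m hm => by simp at hm⟩)
    (a₀ := qq (Sum.inl (restr x n)) / 2 + 1) (b₀ := qq (Sum.inl (restr x n)) / 2)
    (fun k => rfl) (fun k => rfl) (fun z => sg z (tn n)) (fun k z => rfl)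
    (v := 0) (v' := vn n) (fun k => rfl)
    (fun k => va_vn_ne (by
      intro h'
      have := congrArg (fun j : Site => j.1) h'
      simp [jn] at this))
    (fun z => by
      rw [ch_zero, ch_vn (Finset.mem_singleton_self _), one_mul])
    (ε := 1) (one_mul 1) (qq_prime (Sum.inl (restr x n)))
    (by
      have : ((2 * (qq (Sum.inl (restr x n)) / 2) + 1 : ℕ) : ℤ) =
          (qq (Sum.inl (restr x n)) : ℤ) := by rw [hodd]
      refine ⟨1, ?_⟩
      rw [mul_one, ← this]
      push_cast
      ring)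
    (fun j hj => hcon j hj)
  unfold hh
  have h1 : ((1 : ℤ) : ℂ) = 1 := by norm_num
  rw [h1, one_mul] at key
  exact key

theorem hh_succ {n : ℕ} {z : Pt} (h : ∀ j ∈ XX g y, ¬ (qq (Sum.inr n) : ℤ) ∣ DD.s j z) :
    hh b π (n + 1) z = hh b π n z := by
  have hne : jn n ≠ jn (n + 1) := jn_ne (by omega)
  have hF1 : insert (jn (n + 1)) ({jn n} : Finset Site) = {jn n, jn (n + 1)} :=
    Finset.pair_comm _ _
  have hF2 : insert (jn n) ({jn (n + 1)} : Finset Site) = {jn n, jn (n + 1)} := rfl
  have hsub : ((({jn n, jn (n + 1)} : Finset Site)) : Set Site) ⊆ XX g x := by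
    intro j hj
    have : j = jn n ∨ j = jn (n + 1) := by simpa using hj
    rcases this with rfl | rfl
    · exact jn_mem x n
    · exact jn_mem x (n + 1)
  have s1 : ∀ v, phi b π z {jn n} v =
      3 * phi b π z {jn n, jn (n + 1)} (up1 v (jn (n + 1)) 0) +
      1 * phi b π z {jn n, jn (n + 1)} (up1 v (jn (n + 1)) 3) := by
    intro v
    have := phi_split b π z (F := {jn n}) (j := jn (n + 1))
      (by rw [Finset.mem_singleton]; exact hne.symm) (by rw [hF1]; exact hsub) v
    rw [hF1] at this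
    rw [this, a_jn, b_jn]
    norm_num
  have s2 : ∀ v, phi b π z {jn (n + 1)} v =
      3 * phi b π z {jn n, jn (n + 1)} (up1 v (jn n) 0) +
      1 * phi b π z {jn n, jn (n + 1)} (up1 v (jn n) 3) := by
    intro v
    have := phi_split b π z (F := {jn (n + 1)}) (j := jn n)
      (by rw [Finset.mem_singleton]; exact hne) (by rw [hF2]; exact hsub) v
    rw [hF2] at this
    rw [this, a_jn, b_jn]
    norm_num
  have u0 : ∀ (v : Om DD) (j : Site), DD.va v j = 0 → up1 v j 0 = v := by
    intro v j hv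
    apply om_ext
    intro i
    by_cases hi : i = j
    · subst hi
      rw [va_up1_self v (DD.d_pos i), hv]
    · rw [va_up1_ne v 0 hi]
  have e1 : up1 (0 : Om DD) (jn (n + 1)) 0 = 0 := u0 _ _ rfl
  have e2 : up1 (0 : Om DD) (jn (n + 1)) 3 = vn (n + 1) := rfl
  have e3 : up1 (vn n) (jn (n + 1)) 0 = vn n := u0 _ _ (va_vn_ne hne.symm)
  have e4 : up1 (0 : Om DD) (jn n) 0 = 0 := u0 _ _ rfl
  have e5 : up1 (0 : Om DD) (jn n) 3 = vn n := rfl
  have e6 : up1 (vn (n + 1)) (jn n) 0 = vn (n + 1) := u0 _ _ (va_vn_ne hne)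
  have e7 : up1 (vn (n + 1)) (jn n) 3 = up1 (vn n) (jn (n + 1)) 3 := by
    apply om_ext
    intro i
    by_cases hi : i = jn n
    · subst hi
      rw [va_up1_self _ (by rw [d_jn]; norm_num), va_up1_ne _ _ hne, va_vn_self]
    · by_cases hi' : i = jn (n + 1)
      · subst hi'
        rw [va_up1_ne _ _ hi, va_vn_self, va_up1_self _ (by rw [d_jn]; norm_num)]
      · rw [va_up1_ne _ _ hi, va_up1_ne _ _ hi', va_vn_ne hi', va_vn_ne hi]
  have key := phi_zero b π z (F₀ := {jn n, jn (n + 1)})
    (fun k : ℕ => ((some (Sum.inr n), tn n, 0, k, true) : Site))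
    (fun k k' hk => by simpa using hk)
    (fun k => by
      intro h'
      have h2 : (some (Sum.inr n), tn n, 0, k, true) = jn n ∨
        (some (Sum.inr n), tn n, 0, k, true) = jn (n + 1) := by simpa using h'
      rcases h2 with h2 | h2
      · have := congrArg (fun j : Site => j.1) h2
        simp [jn] at this
      · have := congrArg (fun j : Site => j.1) h2
        simp [jn] at this)
    hsub
    (fun k => ⟨rfl, fun u hu => by simp at hu, fun m hm => by
      have : Sum.inr n = (Sum.inr m : List Bool ⊕ ℕ) := Option.some.inj hm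
      have := Sum.inr.inj this
      rw [← this]
      exact length_tn n⟩)
    (a₀ := 2 ^ (qq (Sum.inr n)) + qq (Sum.inr n)) (b₀ := 2 ^ (qq (Sum.inr n)) - qq (Sum.inr n))
    (fun k => rfl) (fun k => rfl) (fun z => sg z (tn n) * sg z (tn n ++ [0])) (fun k z => rfl)
    (v := vn n) (v' := vn (n + 1))
    (fun k => va_vn_ne (by
      intro h'
      have := congrArg (fun j : Site => j.1) h'
      simp [jn] at this))
    (fun k => va_vn_ne (by
      intro h'
      have := congrArg (fun j : Site => j.1) h'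
      simp [jn] at this))
    (fun z => by
      rw [ch_vn (by simp), ch_vn (by simp), tn_succ]
      rcases sg_sq z (tn n) with h' | h' <;> rw [h'] <;> ring)
    (ε := -1) (by norm_num) (qq_prime (Sum.inr n))
    (by
      have hlt : qq (Sum.inr n) < 2 ^ (qq (Sum.inr n)) := Nat.lt_two_pow_self
      refine ⟨2, ?_⟩
      push_cast [Nat.cast_sub hlt.le]
      ring)
    h
  have h1 : ((-1 : ℤ) : ℂ) = -1 := by norm_num
  rw [h1] at key
  unfold hh
  rw [s1, s1, s2, s2, e1, e2, e3, e4, e5, e6, e7]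
  linear_combination (-2) * key

/-- local constancy of the detecting quantity -/
theorem hh_locally (n : ℕ) : ∃ F : Finset Site, ∀ z z', (∀ j ∈ F, DD.c j z = DD.c j z') →
    hh b π n z = hh b π n z' := by
  obtain ⟨F₁, _, h₁⟩ := dm_locally b (pit_E_proj b π (single_sub x n) 0)
    (pit_mem b π (E_diag_mem b (single_sub x n) 0))
  obtain ⟨F₂, _, h₂⟩ := dm_locally b (pit_E_proj b π (single_sub x n) (vn n))
    (pit_mem b π (E_diag_mem b (single_sub x n) (vn n)))
  refine ⟨F₁ ∪ F₂, fun z z' hz => ?_⟩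
  unfold hh phi
  rw [h₁ z z' fun j hj => hz j (Finset.mem_union_left _ hj),
    h₂ z z' fun j hj => hz j (Finset.mem_union_right _ hj)]

end

/-- the point attached to a finite sequence: the nodes exceeding it are dead -/
noncomputable def zs (s : List ℕ) : Pt := by
  classical
  exact fun t => decide (∃ k, k < s.length ∧ k < t.length ∧ s.getD k 0 < t.getD k 0)

theorem zs_iff (s t : List ℕ) : zs s t = true ↔
    ∃ k, k < s.length ∧ k < t.length ∧ s.getD k 0 < t.getD k 0 := by
  unfold zs
  simp only [decide_eq_true_eq]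

theorem zs_nil : zs [] = fun _ => false := by
  funext t
  rw [Bool.eq_false_iff]
  intro h
  obtain ⟨k, hk, _⟩ := (zs_iff _ _).1 h
  exact absurd hk (Nat.not_lt_zero _)

theorem sg_zs_eq {s s' t t' : List ℕ} (h : zs s t = true ↔ zs s' t' = true) :
    sg (zs s) t = sg (zs s') t' := by
  have h0 : ∀ s t : List ℕ, sg (zs s) t = if zs s t = true then -1 else 1 := by
    intro s t
    unfold sg
    by_cases ht : t = []
    · subst ht
      rw [if_pos rfl, if_neg]
      intro h
      obtain ⟨k, _, hk, _⟩ := (zs_iff _ _).1 h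
      exact absurd hk (Nat.not_lt_zero _)
    · rw [if_neg ht]
  rw [h0, h0]
  by_cases h1 : zs s t = true
  · rw [if_pos h1, if_pos (h.1 h1)]
  · rw [if_neg h1, if_neg (fun h2 => h1 (h.2 h2))]

theorem zs_child {s t : List ℕ} (h : t.length = s.length) (i : ℕ) :
    zs s (t ++ [i]) = true ↔ zs s t = true := by
  rw [zs_iff, zs_iff]
  constructor
  · rintro ⟨k, h1, h2, h3⟩
    refine ⟨k, h1, by omega, ?_⟩
    rwa [List.getD_append _ _ _ _ (by omega)] at h3
  · rintro ⟨k, h1, h2, h3⟩
    refine ⟨k, h1, by simp; omega, ?_⟩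
    rwa [List.getD_append _ _ _ _ (by omega)]

theorem zs_append {s t : List ℕ} {M : ℕ} (h : ∀ m ∈ t, m ≤ M) :
    zs (s ++ [M]) t = true ↔ zs s t = true := by
  rw [zs_iff, zs_iff]
  constructor
  · rintro ⟨k, h1, h2, h3⟩
    rw [List.length_append] at h1
    have h4 : k < s.length + 1 := h1
    by_cases hk : k < s.length
    · refine ⟨k, hk, h2, ?_⟩
      rwa [List.getD_append _ _ _ _ hk] at h3
    · exfalso
      have hk' : k = s.length := by omega
      subst hk'
      rw [List.getD_append_right _ _ _ _ le_rfl, Nat.sub_self, List.getD_eq_getElem _ _ h2] at h3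
      have := h _ (List.getElem_mem h2)
      simp at h3
      omega
  · rintro ⟨k, h1, h2, h3⟩
    refine ⟨k, by simp; omega, h2, ?_⟩
    rwa [List.getD_append _ _ _ _ h1]

theorem no_level (y : Cant) (s : List ℕ) : ∀ j ∈ XX g y,
    ¬ (qq (Sum.inr s.length) : ℤ) ∣ DD.s j (zs s) := by
  intro j hj hd
  rcases dvd_s hd with ⟨u, h1, _⟩ | ⟨n, h1, h2, h3⟩
  · exact absurd h1 (by simp)
  · have hn : s.length = n := Sum.inr.inj h1
    have hl := hj.2.2 n h2
    rw [← hn] at hl
    have := sg_zs_eq (zs_child hl j.2.2.1)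
    rw [this] at h3
    rcases sg_sq (zs s) j.2.1 with h | h <;> rw [h] at h3 <;> norm_num at h3

section

variable {H : Type*} [NormedAddCommGroup H] [InnerProductSpace ℂ H] [CompleteSpace H]
  (b : HilbertBasis (Om DD) ℂ H) {x y : Cant}
  (π : (BB b (XX g x)) →⋆ₙₐ[ℂ] (BB b (XX g y)))

theorem hh_step (s : List ℕ) (h : hh b π s.length (zs s) ≠ 0) :
    ∃ M : ℕ, hh b π (s ++ [M]).length (zs (s ++ [M])) ≠ 0 := by
  rw [← hh_succ b π (no_level y s)] at h
  obtain ⟨F, hF⟩ := hh_locally b π (s.length + 1)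
  obtain ⟨M, hM⟩ : ∃ M : ℕ, ∀ j ∈ F, ∀ m ∈ j.2.1 ++ [j.2.2.1], m ≤ M := by
    refine ⟨F.sup fun j => (j.2.1 ++ [j.2.2.1]).sum, fun j hj m hm => ?_⟩
    have h1 : m ≤ (j.2.1 ++ [j.2.2.1]).sum := List.le_sum_of_mem hm
    exact h1.trans (Finset.le_sup (f := fun j : Site => (j.2.1 ++ [j.2.2.1]).sum) hj)
  refine ⟨M, ?_⟩
  have hl : (s ++ [M]).length = s.length + 1 := by simp
  rw [hl]
  rwa [hF (zs (s ++ [M])) (zs s)]
  intro j hj
  have hM1 := hM j hj
  have h1 : sg (zs (s ++ [M])) j.2.1 = sg (zs s) j.2.1 :=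
    sg_zs_eq (zs_append fun m hm => hM1 m (List.mem_append_left _ hm))
  have h2 : sg (zs (s ++ [M])) (j.2.1 ++ [j.2.2.1]) = sg (zs s) (j.2.1 ++ [j.2.2.1]) :=
    sg_zs_eq (zs_append hM1)
  obtain ⟨ty, t, i, k, fl⟩ := j
  rcases ty with _ | (u | n)
  · exact h1
  · exact h1
  · show sg _ t * sg _ (t ++ [i]) = sg _ t * sg _ (t ++ [i])
    have h1' : sg (zs (s ++ [M])) t = sg (zs s) t := h1
    have h2' : sg (zs (s ++ [M])) (t ++ [i]) = sg (zs s) (t ++ [i]) := h2
    rw [h1', h2']

theorem RR_mono_gam {n : ℕ} {x y : Cant} {γ γ' : ℕ → ℕ} (h : RR g n x y γ)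
    (hγ : ∀ i, i < n → γ i ≤ γ' i) : RR g n x y γ' := by
  refine RR_congr (agree.refl _ _) (agree.refl _ _) ?_
    (RR_trans h (RR_refl n y (fun i => γ' i - γ i)))
  intro i hi
  have := hγ i hi
  show γ i + (γ' i - γ i) = γ' i
  omega

/-- the backward direction -/
theorem backward (hπ : Function.Injective π) : ∃ β : ℕ → ℕ, ∀ n, RR g n x y β := by
  classical
  let P : List ℕ → Prop := fun s => hh b π s.length (zs s) ≠ 0
  have hP0 : P [] := by
    show hh b π 0 (zs []) ≠ 0
    rw [zs_nil]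
    exact hh_zero b π hπ
  have hstep : ∀ s : {s // P s}, ∃ M : ℕ, P (s.1 ++ [M]) := fun s => hh_step b π s.1 s.2
  choose M hM using hstep
  let f : ℕ → {s // P s} := fun n => Nat.rec ⟨[], hP0⟩ (fun _ s => ⟨s.1 ++ [M s], hM s⟩) n
  have f0 : (f 0).1 = [] := rfl
  have fs : ∀ n, (f (n + 1)).1 = (f n).1 ++ [M (f n)] := fun n => rfl
  have fl : ∀ n, (f n).1.length = n := by
    intro n
    induction n with
    | zero => rfl
    | succ n ih => rw [fs, List.length_append, ih]; rfl
  let β : ℕ → ℕ := fun i => (f (i + 1)).1.getD i 0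
  have hβ : ∀ n i, i < n → (f n).1.getD i 0 = β i := by
    intro n
    induction n with
    | zero => intro i hi; exact absurd hi (Nat.not_lt_zero _)
    | succ n ih =>
      intro i hi
      by_cases hin : i = n
      · subst hin
        rfl
      · have hi' : i < n := by omega
        rw [fs, List.getD_append _ _ _ _ (by rw [fl]; exact hi')]
        exact ih i hi'
  refine ⟨β, fun n => ?_⟩
  rcases Nat.eq_zero_or_pos n with hn | hn
  · subst hn
    exact RR_zero _ _ _
  have hfn : hh b π n (zs (f n).1) ≠ 0 := by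
    have := (f n).2
    have h2 : hh b π (f n).1.length (zs (f n).1) ≠ 0 := this
    rwa [fl] at h2
  obtain ⟨j, hj, hd⟩ := hh_detect b π hfn
  rcases dvd_s hd with ⟨u, h1, h2, h3⟩ | ⟨m, h1, _⟩
  · have hu : restr x n = u := Sum.inl.inj h1
    have hL := hj.2.1 u h2
    rw [← hu] at hL
    obtain ⟨hlen, hR⟩ := RR_of_restr_mem hL
    refine RR_mono_gam hR fun i hi => ?_
    by_contra hlt
    push Not at hlt
    have hdead : zs (f n).1 j.2.1 = true := by
      rw [zs_iff]
      refine ⟨i, by rw [fl]; exact hi, by omega, ?_⟩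
      rw [hβ n i hi]
      exact hlt
    have hne : j.2.1 ≠ [] := by
      intro h
      rw [h] at hlen
      simp at hlen
      omega
    unfold sg at h3
    rw [if_neg hne, if_pos hdead] at h3
    norm_num at h3
  · exact absurd h1 (by simp)

end

end Pool.Agent.Lib.MP_5f80dd_lc
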