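import Pool.Agent.Lib.MP_5f80dd_lc.Near

set_option autoImplicit false

namespace Pool.Agent.Lib.MP_5f80dd_lc

section near

variable {A : Type*} [CStarAlgebra A]

/-- a quantitative version of `exists_proj_near` -/
theorem exists_proj_near_quant (S : NonUnitalStarSubalgebra ℂ A) (hS : IsClosed (S : Set A))
    {q y : A} {ε : ℝ} (hq : IsStarProjection q) (hy : IsSelfAdjoint y) (hyS : y ∈ S)
    (h : ‖q - y‖ ≤ ε) (hε : ε ≤ 1 / 20) :
    ∃ p ∈ S, IsStarProjection p ∧ ‖q - p‖ ≤ 8 * ε := by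
  have hε0 : 0 ≤ ε := (norm_nonneg _).trans h
  have hqn : ‖q‖ ≤ 1 := hq.norm_le
  have hyn : ‖y‖ ≤ 21 / 20 := by
    have : ‖y‖ ≤ ‖q‖ + ‖q - y‖ := by
      have h1 : y = q - (q - y) := by abel
      calc ‖y‖ = ‖q - (q - y)‖ := by rw [← h1]
        _ ≤ ‖q‖ + ‖q - y‖ := norm_sub_le _ _
    linarith
  have hqq : q * q = q := hq.isIdempotentElem
  have hyy : ‖y * y - y‖ ≤ 61 / 20 * ε := by
    have h1 : y * y - y = (q - y) - y * (q - y) - (q - y) * q := by
      have : y * (q - y) + (q - y) * q = q * q - y * y := by noncomm_ring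
      have h2 : (q - y) - y * (q - y) - (q - y) * q = (q - y) - (y * (q - y) + (q - y) * q) := by
        abel
      rw [h2, this, hqq]
      abel
    rw [h1]
    have a1 : ‖(q - y) - y * (q - y) - (q - y) * q‖ ≤
        ‖q - y‖ + ‖y * (q - y)‖ + ‖(q - y) * q‖ :=
      (norm_sub_le _ _).trans (add_le_add (norm_sub_le _ _) le_rfl)
    have a2 : ‖y * (q - y)‖ ≤ 21 / 20 * ε :=
      (norm_mul_le _ _).trans (mul_le_mul hyn h (norm_nonneg _) (by norm_num))
    have a3 : ‖(q - y) * q‖ ≤ ε * 1 :=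
      (norm_mul_le _ _).trans (mul_le_mul h hqn (norm_nonneg _) hε0)
    linarith
  let χ : ℝ → ℝ := fun x => min 1 (max 0 ((x - 1 / 5) * (5 / 3)))
  have hχc : Continuous χ := by fun_prop
  have hχ0 : χ 0 = 0 := by norm_num [χ]
  have hspec : ∀ x ∈ quasispectrum ℝ y, |x * x - x| ≤ 61 / 20 * ε := by
    intro x hx
    have h1 := norm_apply_le_norm_cfcₙ (fun x : ℝ => x * x - x) y hx
    have h2 : cfcₙ (fun x : ℝ => x * x - x) y = y * y - y := by
      rw [cfcₙ_sub (fun x : ℝ => x * x) (fun x : ℝ => x) y, cfcₙ_mul (fun x : ℝ => x)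
        (fun x : ℝ => x) y, cfcₙ_id' ℝ y]
    rw [h2] at h1
    exact h1.trans hyy
  have hval : ∀ x ∈ quasispectrum ℝ y, (χ x = 0 ∧ |x| ≤ 61 / 10 * ε) ∨
      (χ x = 1 ∧ |1 - x| ≤ 61 / 10 * ε) := by
    intro x hx
    have h1 := hspec x hx
    rw [abs_le] at h1
    obtain ⟨h2, h3⟩ := h1
    by_cases hx2 : x ≤ 1 / 2
    · left
      have hx3 : x ≤ 1 / 5 := by nlinarith
      have e1 : max 0 ((x - 1 / 5) * (5 / 3)) = 0 := max_eq_left (by nlinarith)
      refine ⟨?_, abs_le.2 ⟨?_, ?_⟩⟩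
      · show min 1 (max 0 ((x - 1 / 5) * (5 / 3))) = 0
        rw [e1]
        norm_num
      · by_contra hcon
        push Not at hcon
        nlinarith
      · by_contra hcon
        push Not at hcon
        nlinarith
    · right
      push Not at hx2
      have hx3 : 4 / 5 ≤ x := by nlinarith
      have e1 : 1 ≤ max 0 ((x - 1 / 5) * (5 / 3)) := le_max_of_le_right (by nlinarith)
      refine ⟨min_eq_left e1, abs_le.2 ⟨?_, ?_⟩⟩
      · by_contra hcon
        push Not at hcon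
        nlinarith
      · by_contra hcon
        push Not at hcon
        nlinarith
  refine ⟨cfcₙ χ y, ?_, ⟨?_, cfcₙ_predicate χ y⟩, ?_⟩
  · have : IsClosed (S : Set A) := hS
    exact cfcₙ_mem (𝕜' := ℂ) χ hyS
  · show cfcₙ χ y * cfcₙ χ y = cfcₙ χ y
    rw [← cfcₙ_mul χ χ y]
    apply cfcₙ_congr
    intro x hx
    rcases hval x hx with ⟨h1, _⟩ | ⟨h1, _⟩ <;> simp [h1]
  · have h1 : ‖cfcₙ χ y - y‖ ≤ 61 / 10 * ε := by
      have h2 : cfcₙ χ y - y = cfcₙ (fun x => χ x - x) y := by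
        rw [cfcₙ_sub χ (fun x : ℝ => x) y, cfcₙ_id' ℝ y]
      rw [h2]
      apply norm_cfcₙ_le
      intro x hx
      rw [Real.norm_eq_abs]
      rcases hval x hx with ⟨h3, h4⟩ | ⟨h3, h4⟩
      · rw [h3, zero_sub, abs_neg]
        exact h4
      · rw [h3]
        exact h4
    have h3 : q - cfcₙ χ y = (q - y) - (cfcₙ χ y - y) := by abel
    rw [h3]
    calc ‖(q - y) - (cfcₙ χ y - y)‖ ≤ ‖q - y‖ + ‖cfcₙ χ y - y‖ := norm_sub_le _ _
      _ ≤ ε + 61 / 10 * ε := add_le_add h h1
      _ ≤ 8 * ε := by linarith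

end near

/-- a directed family of closed unital subalgebras, dense in an algebra `C` -/
structure Tower (A : Type*) [CStarAlgebra A] (ι : Type*) where
  /-- the limit algebra -/
  C : NonUnitalStarSubalgebra ℂ A
  /-- the stages -/
  St : ι → NonUnitalStarSubalgebra ℂ A
  /-- the order of the index set -/
  le : ι → ι → Prop
  dir : ∀ i j, ∃ k, le i k ∧ le j k
  mono : ∀ i k, le i k → St i ≤ St k
  closed : ∀ i, IsClosed (St i : Set A)
  one_mem : ∀ i, (1 : A) ∈ St i
  one_mem' : (1 : A) ∈ C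
  dense : ∀ x ∈ C, x ∈ closure (⋃ i, (St i : Set A))

namespace Tower

variable {A : Type*} [CStarAlgebra A] {ι : Type*} (W : Tower A ι)

theorem exists_approx {x : A} (hx : x ∈ W.C) {ε : ℝ} (hε : 0 < ε) :
    ∃ i, ∃ y ∈ W.St i, ‖x - y‖ < ε := by
  obtain ⟨y, hy, hxy⟩ := Metric.mem_closure_iff.1 (W.dense x hx) ε hε
  obtain ⟨i, hi⟩ := Set.mem_iUnion.1 hy
  exact ⟨i, y, hi, by rwa [← dist_eq_norm]⟩

theorem exists_approx_sa {x : A} (hx : x ∈ W.C) (hsa : IsSelfAdjoint x) {ε : ℝ} (hε : 0 < ε) :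
    ∃ i, ∃ y ∈ W.St i, IsSelfAdjoint y ∧ ‖x - y‖ ≤ ε := by
  obtain ⟨i, z, hz, hxz⟩ := W.exists_approx hx hε
  refine ⟨i, (1 / 2 : ℂ) • (z + star z), SMulMemClass.smul_mem _ (add_mem hz (star_mem hz)), ?_, ?_⟩
  · show star ((1 / 2 : ℂ) • (z + star z)) = (1 / 2 : ℂ) • (z + star z)
    rw [star_smul, star_add, star_star, add_comm]
    congr 1
    simp
  · have hxs : star x = x := hsa
    have h1 : x - (1 / 2 : ℂ) • (z + star z) = (1 / 2 : ℂ) • ((x - z) + star (x - z)) := by
      rw [star_sub, hxs]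
      have : (1 / 2 : ℂ) • ((x - z) + (x - star z)) =
          ((1 / 2 : ℂ) + (1 / 2 : ℂ)) • x - (1 / 2 : ℂ) • (z + star z) := by
        rw [smul_add, smul_sub, smul_sub, add_smul, smul_add]
        abel
      rw [this]
      norm_num
    rw [h1, norm_smul]
    have h2 : ‖(x - z) + star (x - z)‖ ≤ ε + ε :=
      (norm_add_le _ _).trans (add_le_add hxz.le (by rw [norm_star]; exact hxz.le))
    have h3 : ‖(1 / 2 : ℂ)‖ = 1 / 2 := by norm_num
    rw [h3]
    linarith

theorem exists_proj {q : A} (hq : q ∈ W.C) (hp : IsStarProjection q) {ε : ℝ} (hε : 0 < ε) :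
    ∃ i, ∃ p ∈ W.St i, IsStarProjection p ∧ ‖q - p‖ ≤ ε := by
  have hε' : 0 < min (ε / 8) (1 / 20) := lt_min (by positivity) (by norm_num)
  obtain ⟨i, y, hy, hysa, hqy⟩ := W.exists_approx_sa hq hp.isSelfAdjoint hε'
  obtain ⟨p, hpS, hpp, hqp⟩ := exists_proj_near_quant (W.St i) (W.closed i) hp hysa hy hqy
    (min_le_right _ _)
  refine ⟨i, p, hpS, hpp, hqp.trans ?_⟩
  have := min_le_left (ε / 8) (1 / 20)
  linarith

variable (T : ι → A →L[ℂ] ℂ) (htr : ∀ i, ∀ x ∈ W.St i, ∀ y ∈ W.St i, T i (x * y) = T i (y * x))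
  (hcomp : ∀ i k, W.le i k → ∀ x ∈ W.St i, T k x = T i x)

/-- the number `r` is a value of the dimension of the projection `q` -/
def HasDim (q : A) (r : ℂ) : Prop :=
  ∃ i, ∃ p ∈ W.St i, IsStarProjection p ∧ ‖q - p‖ < 1 / 2 ∧ T i p = r

include htr hcomp in
theorem hasDim_unique {q : A} {r r' : ℂ} (h : W.HasDim T q r) (h' : W.HasDim T q r') : r = r' := by
  obtain ⟨i, p, hp, hpp, hqp, rfl⟩ := h
  obtain ⟨j, p', hp', hpp', hqp', rfl⟩ := h'
  obtain ⟨k, hik, hjk⟩ := W.dir i j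
  rw [← hcomp i k hik p hp, ← hcomp j k hjk p' hp']
  refine trace_eq_of_near (W.St k) (W.one_mem k) (T k) (htr k) hpp hpp' (W.mono i k hik hp)
    (W.mono j k hjk hp') ?_
  have : p - p' = (q - p') - (q - p) := by abel
  rw [this]
  calc ‖(q - p') - (q - p)‖ ≤ ‖q - p'‖ + ‖q - p‖ := norm_sub_le _ _
    _ < 1 := by linarith

open Classical in
/-- the dimension of a projection -/
noncomputable def dim (q : A) : ℂ := if h : ∃ r, W.HasDim T q r then h.choose else 0

include htr hcomp in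
theorem dim_eq {q : A} {r : ℂ} (h : W.HasDim T q r) : W.dim T q = r := by
  have h1 : ∃ r, W.HasDim T q r := ⟨r, h⟩
  rw [dim, dif_pos h1]
  exact W.hasDim_unique T htr hcomp h1.choose_spec h

include htr hcomp in
theorem dim_add {q₁ q₂ : A} (h₁ : q₁ ∈ W.C) (h₂ : q₂ ∈ W.C) (hp₁ : IsStarProjection q₁)
    (hp₂ : IsStarProjection q₂) (h0 : q₁ * q₂ = 0) :
    W.dim T (q₁ + q₂) = W.dim T q₁ + W.dim T q₂ := by
  obtain ⟨i, p, hp, hpp, hqp⟩ := W.exists_proj h₁ hp₁ (show (0 : ℝ) < 1 / 100 by norm_num)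
  obtain ⟨j, y, hy, hysa, hqy⟩ := W.exists_approx_sa h₂ hp₂.isSelfAdjoint
    (show (0 : ℝ) < 1 / 100 by norm_num)
  obtain ⟨k, hik, hjk⟩ := W.dir i j
  have hpk := W.mono i k hik hp
  have hyk := W.mono j k hjk hy
  have h0' : q₂ * q₁ = 0 := by
    have := congrArg star h0
    rw [star_mul, star_zero] at this
    have e1 : star q₁ = q₁ := hp₁.isSelfAdjoint
    have e2 : star q₂ = q₂ := hp₂.isSelfAdjoint
    rwa [e1, e2] at this
  have hps : star p = p := hpp.isSelfAdjoint
  have hpi : p * p = p := hpp.isIdempotentElem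
  have h1p : IsStarProjection (1 - p) := hpp.one_sub
  have h1q : IsStarProjection (1 - q₁) := hp₁.one_sub
  have n1 : ‖1 - p‖ ≤ 1 := h1p.norm_le
  have n2 : ‖1 - q₁‖ ≤ 1 := h1q.norm_le
  have n3 : ‖q₂‖ ≤ 1 := hp₂.norm_le
  have n4 : ‖y‖ ≤ 2 := by
    have e : y = q₂ - (q₂ - y) := by abel
    calc ‖y‖ = ‖q₂ - (q₂ - y)‖ := by rw [← e]
      _ ≤ ‖q₂‖ + ‖q₂ - y‖ := norm_sub_le _ _
      _ ≤ 2 := by linarith
  set y' : A := (1 - p) * y * (1 - p) with hy'
  have hy'sa : IsSelfAdjoint y' := by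
    show star y' = y'
    have e1 : star (1 - p) = 1 - p := h1p.isSelfAdjoint
    have e2 : star y = y := hysa
    rw [hy', star_mul, star_mul, e1, e2, mul_assoc]
  have hclose : ‖q₂ - y'‖ ≤ 1 / 20 := by
    have e : q₂ = (1 - q₁) * q₂ * (1 - q₁) := by
      have : (1 - q₁) * q₂ * (1 - q₁) = q₂ - q₁ * q₂ - (q₂ * q₁ - q₁ * q₂ * q₁) := by noncomm_ring
      rw [this, h0, h0', zero_mul]
      simp
    have e2 : q₂ - y' = (p - q₁) * q₂ * (1 - q₁) + (1 - p) * (q₂ - y) * (1 - q₁)
        + (1 - p) * y * (p - q₁) := by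
      nth_rewrite 1 [e]
      rw [hy']
      noncomm_ring
    have npq : ‖p - q₁‖ ≤ 1 / 100 := by rw [norm_sub_rev]; exact hqp
    have b1 : ‖(p - q₁) * q₂ * (1 - q₁)‖ ≤ 1 / 100 * 1 * 1 :=
      (norm_mul_le _ _).trans (mul_le_mul ((norm_mul_le _ _).trans
        (mul_le_mul npq n3 (norm_nonneg _) (by norm_num))) n2 (norm_nonneg _) (by norm_num))
    have b2 : ‖(1 - p) * (q₂ - y) * (1 - q₁)‖ ≤ 1 * (1 / 100) * 1 :=
      (norm_mul_le _ _).trans (mul_le_mul ((norm_mul_le _ _).trans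
        (mul_le_mul n1 hqy (norm_nonneg _) (by norm_num))) n2 (norm_nonneg _) (by norm_num))
    have b3 : ‖(1 - p) * y * (p - q₁)‖ ≤ 1 * 2 * (1 / 100) :=
      (norm_mul_le _ _).trans (mul_le_mul ((norm_mul_le _ _).trans
        (mul_le_mul n1 n4 (norm_nonneg _) (by norm_num))) npq (norm_nonneg _) (by norm_num))
    rw [e2]
    refine (norm_add_le _ _).trans ((add_le_add (norm_add_le _ _) le_rfl).trans ?_)
    linarith
  -- the corner
  let S : NonUnitalStarSubalgebra ℂ A :=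
    { carrier := {x | x ∈ W.St k ∧ p * x = 0 ∧ x * p = 0}
      add_mem' := fun {a b} ha hb => ⟨add_mem ha.1 hb.1, by rw [mul_add, ha.2.1, hb.2.1, add_zero],
        by rw [add_mul, ha.2.2, hb.2.2, add_zero]⟩
      zero_mem' := ⟨zero_mem _, mul_zero _, zero_mul _⟩
      smul_mem' := fun c x hx => ⟨SMulMemClass.smul_mem c hx.1, by
        rw [mul_smul_comm, hx.2.1, smul_zero], by rw [smul_mul_assoc, hx.2.2, smul_zero]⟩
      mul_mem' := fun {a b} ha hb => ⟨mul_mem ha.1 hb.1, by rw [← mul_assoc, ha.2.1, zero_mul],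
        by rw [mul_assoc, hb.2.2, mul_zero]⟩
      star_mem' := fun {a} ha => ⟨star_mem ha.1, by
        have := congrArg star ha.2.2
        rwa [star_mul, star_zero, hps] at this, by
        have := congrArg star ha.2.1
        rwa [star_mul, star_zero, hps] at this⟩ }
  have hS : IsClosed (S : Set A) := by
    have : (S : Set A) = (W.St k : Set A) ∩ ({x | p * x = 0} ∩ {x | x * p = 0}) := rfl
    rw [this]
    refine (W.closed k).inter (IsClosed.inter ?_ ?_)
    · exact isClosed_eq (by fun_prop) continuous_const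
    · exact isClosed_eq (by fun_prop) continuous_const
  have hy'S : y' ∈ S := by
    refine ⟨?_, ?_, ?_⟩
    · have : y' = y - p * y - y * p + p * y * p := by rw [hy']; noncomm_ring
      rw [this]
      exact add_mem (sub_mem (sub_mem hyk (mul_mem hpk hyk)) (mul_mem hyk hpk))
        (mul_mem (mul_mem hpk hyk) hpk)
    · have e : p * (1 - p) = 0 := by rw [mul_sub, mul_one, hpi, sub_self]
      rw [hy', ← mul_assoc, ← mul_assoc, e, zero_mul, zero_mul]
    · have e : (1 - p) * p = 0 := by rw [sub_mul, one_mul, hpi, sub_self]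
      rw [hy', mul_assoc, e, mul_zero]
  obtain ⟨p₂, hp₂S, hpp₂, hqp₂⟩ := exists_proj_near_quant S hS hp₂ hy'sa hy'S hclose le_rfl
  have hcl : ‖q₂ - p₂‖ < 1 / 2 := by
    refine hqp₂.trans_lt ?_
    norm_num
  have hsum : IsStarProjection (p + p₂) := by
    constructor
    · show (p + p₂) * (p + p₂) = p + p₂
      have e2 : p₂ * p₂ = p₂ := hpp₂.isIdempotentElem
      rw [mul_add, add_mul, add_mul, hpi, e2, hp₂S.2.1, hp₂S.2.2]
      simp
    · exact hpp.isSelfAdjoint.add hpp₂.isSelfAdjoint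
  have d1 : W.dim T q₁ = T k p := W.dim_eq T htr hcomp ⟨k, p, hpk, hpp, by linarith, rfl⟩
  have d2 : W.dim T q₂ = T k p₂ := W.dim_eq T htr hcomp ⟨k, p₂, hp₂S.1, hpp₂, hcl, rfl⟩
  have d3 : W.dim T (q₁ + q₂) = T k (p + p₂) := by
    refine W.dim_eq T htr hcomp ⟨k, p + p₂, add_mem hpk hp₂S.1, hsum, ?_, rfl⟩
    have e : q₁ + q₂ - (p + p₂) = (q₁ - p) + (q₂ - p₂) := by abel
    rw [e]
    refine (norm_add_le _ _).trans_lt ?_
    have : ‖q₂ - p₂‖ ≤ 8 * (1 / 20) := hqp₂
    linarith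
  rw [d1, d2, d3, map_add]

include htr hcomp in
theorem dim_sum {n : ℕ} (q : ℕ → A) (hq : ∀ i, i < n → q i ∈ W.C)
    (hp : ∀ i, i < n → IsStarProjection (q i))
    (h0 : ∀ i j, i < n → j < n → i ≠ j → q i * q j = 0) :
    W.dim T (∑ i ∈ Finset.range n, q i) = ∑ i ∈ Finset.range n, W.dim T (q i) := by
  have key : ∀ m, m ≤ n → (∑ i ∈ Finset.range m, q i ∈ W.C ∧
      IsStarProjection (∑ i ∈ Finset.range m, q i)) ∧
      W.dim T (∑ i ∈ Finset.range m, q i) = ∑ i ∈ Finset.range m, W.dim T (q i) := by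
    intro m
    induction m with
    | zero =>
      intro _
      simp only [Finset.range_zero, Finset.sum_empty]
      refine ⟨⟨zero_mem _, IsStarProjection.zero A⟩, ?_⟩
      have hi : Nonempty ι := by
        by_contra hcon
        rw [not_nonempty_iff] at hcon
        have := W.dense 0 (zero_mem _)
        simp at this
      obtain ⟨i⟩ := hi
      exact W.dim_eq T htr hcomp ⟨i, 0, zero_mem _, IsStarProjection.zero A, by simp, by simp⟩
    | succ m ih =>
      intro hm
      obtain ⟨⟨h1, h2⟩, h3⟩ := ih (by omega)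
      have hz : (∑ i ∈ Finset.range m, q i) * q m = 0 := by
        rw [Finset.sum_mul]
        refine Finset.sum_eq_zero fun i hi => ?_
        have hi' := Finset.mem_range.1 hi
        exact h0 i m (by omega) (by omega) (by omega)
      have hz' : q m * (∑ i ∈ Finset.range m, q i) = 0 := by
        rw [Finset.mul_sum]
        refine Finset.sum_eq_zero fun i hi => ?_
        have hi' := Finset.mem_range.1 hi
        exact h0 m i (by omega) (by omega) (by omega)
      rw [Finset.sum_range_succ, Finset.sum_range_succ]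
      refine ⟨⟨add_mem h1 (hq m (by omega)), ?_⟩, ?_⟩
      · constructor
        · show (_ + _) * (_ + _) = _
          have e1 : (∑ i ∈ Finset.range m, q i) * (∑ i ∈ Finset.range m, q i) =
            ∑ i ∈ Finset.range m, q i := h2.isIdempotentElem
          have e2 : q m * q m = q m := (hp m (by omega)).isIdempotentElem
          rw [mul_add, add_mul, add_mul, e1, e2, hz, hz']
          simp
        · exact h2.isSelfAdjoint.add (hp m (by omega)).isSelfAdjoint
      · rw [W.dim_add T htr hcomp h1 (hq m (by omega)) h2 (hp m (by omega)) hz, h3]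
  exact (key n le_rfl).2

include htr hcomp in
theorem dim_equiv {V : A} (hV : V ∈ W.C) (h1 : V * star V * V = V) (h0 : V * V = 0) :
    W.dim T (V * star V) = W.dim T (star V * V) := by
  have h1s : star V * V * star V = star V := by
    have := congrArg star h1
    rw [star_mul, star_mul, star_star] at this
    rw [mul_assoc]
    exact this
  have h0s : star V * star V = 0 := by
    have := congrArg star h0
    rwa [star_mul, star_zero] at this
  set q₁ : A := V * star V with hq₁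
  set q₂ : A := star V * V with hq₂
  have a1 : q₁ * V = V := h1
  have a2 : V * q₂ = V := by rw [hq₂, ← mul_assoc]; exact h1
  have a3 : q₂ * V = 0 := by rw [hq₂, mul_assoc, h0, mul_zero]
  have a4 : V * q₁ = 0 := by rw [hq₁, ← mul_assoc, h0, zero_mul]
  have a5 : q₁ * star V = 0 := by rw [hq₁, mul_assoc, h0s, mul_zero]
  have a6 : star V * q₁ = star V := by rw [hq₁, ← mul_assoc]; exact h1s
  have a7 : q₂ * star V = star V := h1s
  have a8 : star V * q₂ = 0 := by rw [hq₂, ← mul_assoc, h0s, zero_mul]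
  have s1 : star q₁ = q₁ := by rw [hq₁, star_mul, star_star]
  have s2 : star q₂ = q₂ := by rw [hq₂, star_mul, star_star]
  have i1 : q₁ * q₁ = q₁ := by
    nth_rewrite 2 [hq₁]
    rw [← mul_assoc, a1]
  have i2 : q₂ * q₂ = q₂ := by
    nth_rewrite 2 [hq₂]
    rw [← mul_assoc, a7]
  have i3 : q₁ * q₂ = 0 := by
    nth_rewrite 1 [hq₁]
    rw [mul_assoc, a8, mul_zero]
  have i4 : q₂ * q₁ = 0 := by
    nth_rewrite 1 [hq₂]
    rw [mul_assoc, a4, mul_zero]
  have hp₁ : IsStarProjection q₁ := ⟨i1, s1⟩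
  have hp₂ : IsStarProjection q₂ := ⟨i2, s2⟩
  have m1 : q₁ ∈ W.C := mul_mem hV (star_mem hV)
  have m2 : q₂ ∈ W.C := mul_mem (star_mem hV) hV
  set w : A := V + star V + 1 - q₁ - q₂ with hw
  have hws : star w = w := by
    rw [hw, star_sub, star_sub, star_add, star_add, star_star, star_one, s1, s2]
    abel
  have hww : w * w = 1 := by
    have e : w * w = V * V + V * star V + V - V * q₁ - V * q₂ + (star V * V + star V * star V +
      star V - star V * q₁ - star V * q₂) + (V + star V + 1 - q₁ - q₂)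
      - (q₁ * V + q₁ * star V + q₁ - q₁ * q₁ - q₁ * q₂)
      - (q₂ * V + q₂ * star V + q₂ - q₂ * q₁ - q₂ * q₂) := by
      rw [hw]
      noncomm_ring
    rw [e, h0, h0s, a1, a2, a3, a4, a5, a6, a7, a8, i1, i2, i3, i4, ← hq₁, ← hq₂]
    abel
  have hwq : w * q₂ * w = q₁ := by
    have e : w * q₂ * w = (V * q₂ + star V * q₂ + q₂ - q₁ * q₂ - q₂ * q₂) * w := by
      rw [hw]
      noncomm_ring
    rw [e, a2, a8, i3, i2]
    have e2 : (V + 0 + q₂ - 0 - q₂) * w = V * V + V * star V + V - V * q₁ - V * q₂ := by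
      rw [hw]
      noncomm_ring
    rw [e2, h0, a4, a2, ← hq₁]
    abel
  -- the symmetry is 1 - 2e
  set e : A := (1 / 2 : ℂ) • (1 - w) with he
  have he2 : w = 1 - (2 : ℂ) • e := by
    rw [he, smul_smul]
    norm_num
  have hep : IsStarProjection e := by
    constructor
    · show e * e = e
      rw [he, smul_mul_smul_comm]
      have : (1 - w) * (1 - w) = (2 : ℂ) • (1 - w) := by
        have : (1 - w) * (1 - w) = 1 - w - w + w * w := by noncomm_ring
        rw [this, hww, two_smul]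
        abel
      rw [this, smul_smul]
      norm_num
    · show star e = e
      rw [he, star_smul, star_sub, star_one, hws]
      congr 1
      simp
  have hwC : w ∈ W.C :=
    sub_mem (sub_mem (add_mem (add_mem hV (star_mem hV)) W.one_mem') m1) m2
  have heC : e ∈ W.C := SMulMemClass.smul_mem _ (sub_mem W.one_mem' hwC)
  obtain ⟨i, p, hp, hpp, hep'⟩ := W.exists_proj heC hep (show (0 : ℝ) < 1 / 100 by norm_num)
  obtain ⟨j, r, hr, hrp, hqr⟩ := W.exists_proj m2 hp₂ (show (0 : ℝ) < 1 / 100 by norm_num)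
  obtain ⟨k, hik, hjk⟩ := W.dir i j
  have hpk := W.mono i k hik hp
  have hrk := W.mono j k hjk hr
  set w' : A := 1 - (2 : ℂ) • p with hw'
  have hpi : p * p = p := hpp.isIdempotentElem
  have hps : star p = p := hpp.isSelfAdjoint
  have hri : r * r = r := hrp.isIdempotentElem
  have hrs : star r = r := hrp.isSelfAdjoint
  have hw's : star w' = w' := by
    rw [hw', star_sub, star_one, star_smul, hps]
    congr 2
    simp
  have hw'w' : w' * w' = 1 := by
    rw [hw']
    have : (1 - (2 : ℂ) • p) * (1 - (2 : ℂ) • p) = 1 - (4 : ℂ) • p + (4 : ℂ) • (p * p) := by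
      rw [mul_sub, sub_mul, sub_mul, smul_mul_smul_comm, one_mul, one_mul, mul_one]
      have : (4 : ℂ) • p = (2 : ℂ) • p + (2 : ℂ) • p := by rw [← add_smul]; norm_num
      rw [this]
      norm_num
      abel
    rw [this, hpi]
    abel
  have hw'k : w' ∈ W.St k := sub_mem (W.one_mem k) (SMulMemClass.smul_mem _ hpk)
  have hww' : ‖w - w'‖ ≤ 1 / 50 := by
    have e3 : w - w' = (2 : ℂ) • (p - e) := by
      rw [he2, hw', smul_sub]
      abel
    rw [e3, norm_smul, norm_sub_rev]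
    have : ‖(2 : ℂ)‖ = 2 := by norm_num
    rw [this]
    linarith
  have nw' : ‖w'‖ ≤ 1 := by
    have h2 : ‖w' * w'‖ = ‖w'‖ * ‖w'‖ := by
      have := CStarRing.norm_star_mul_self (x := w')
      rwa [hw's] at this
    rw [hw'w'] at h2
    have h3 : ‖(1 : A)‖ ≤ 1 := (IsStarProjection.one A).norm_le
    by_contra hcon
    push Not at hcon
    nlinarith
  have nw : ‖w‖ ≤ 1 := by
    have h2 : ‖w * w‖ = ‖w‖ * ‖w‖ := by
      have := CStarRing.norm_star_mul_self (x := w)
      rwa [hws] at this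
    rw [hww] at h2
    have h3 : ‖(1 : A)‖ ≤ 1 := (IsStarProjection.one A).norm_le
    by_contra hcon
    push Not at hcon
    nlinarith
  have nr : ‖r‖ ≤ 1 := hrp.norm_le
  have n2 : ‖q₂‖ ≤ 1 := hp₂.norm_le
  have hproj : IsStarProjection (w' * r * w') := by
    constructor
    · show w' * r * w' * (w' * r * w') = w' * r * w'
      calc w' * r * w' * (w' * r * w') = w' * r * (w' * w') * r * w' := by simp [mul_assoc]
        _ = w' * (r * r) * w' := by rw [hw'w']; simp [mul_assoc]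
        _ = w' * r * w' := by rw [hri]
    · show star (w' * r * w') = w' * r * w'
      rw [star_mul, star_mul, hw's, hrs, mul_assoc]
  have d1 : W.dim T q₁ = T k (w' * r * w') := by
    refine W.dim_eq T htr hcomp ⟨k, _, mul_mem (mul_mem hw'k hrk) hw'k, hproj, ?_, rfl⟩
    have e3 : q₁ - w' * r * w' = (w - w') * q₂ * w + w' * (q₂ - r) * w + w' * r * (w - w') := by
      rw [← hwq]
      noncomm_ring
    have b1 : ‖(w - w') * q₂ * w‖ ≤ 1 / 50 * 1 * 1 :=
      (norm_mul_le _ _).trans (mul_le_mul ((norm_mul_le _ _).trans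
        (mul_le_mul hww' n2 (norm_nonneg _) (by norm_num))) nw (norm_nonneg _) (by norm_num))
    have b2 : ‖w' * (q₂ - r) * w‖ ≤ 1 * (1 / 100) * 1 :=
      (norm_mul_le _ _).trans (mul_le_mul ((norm_mul_le _ _).trans
        (mul_le_mul nw' hqr (norm_nonneg _) (by norm_num))) nw (norm_nonneg _) (by norm_num))
    have b3 : ‖w' * r * (w - w')‖ ≤ 1 * 1 * (1 / 50) :=
      (norm_mul_le _ _).trans (mul_le_mul ((norm_mul_le _ _).trans
        (mul_le_mul nw' nr (norm_nonneg _) (by norm_num))) hww' (norm_nonneg _) (by norm_num))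
    rw [e3]
    refine ((norm_add_le _ _).trans (add_le_add (norm_add_le _ _) le_rfl)).trans_lt ?_
    linarith
  have d2 : W.dim T q₂ = T k r :=
    W.dim_eq T htr hcomp ⟨k, r, hrk, hrp, by linarith, rfl⟩
  rw [d1, d2, mul_assoc, htr k w' hw'k (r * w') (mul_mem hrk hw'k), mul_assoc, hw'w', mul_one]

end Tower

end Pool.Agent.Lib.MP_5f80dd_lc
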