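import Pool.Agent.Lib.MP_5f80dd_lc.Stage
import Pool.Agent.Lib.MP_5f80dd_lc.Fwd

set_option autoImplicit false

namespace Pool.Agent.Lib.MP_5f80dd_lc

open scoped InnerProductSpace ENNReal

namespace PT

variable {J G : Type} {D : PT J G}

/-- permutation of the sites acting on configurations -/
noncomputable def permOm (θ : J ≃ J) (hθ : ∀ j, D.d (θ j) = D.d j) : D.Om ≃ D.Om where
  toFun ω := ⟨Finsupp.equivMapDomain θ.symm ω.1, fun j => by
    rw [Finsupp.equivMapDomain_apply, Equiv.symm_symm, ← hθ j]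
    exact ω.2 (θ j)⟩
  invFun ω := ⟨Finsupp.equivMapDomain θ ω.1, fun j => by
    rw [Finsupp.equivMapDomain_apply]
    have := hθ (θ.symm j)
    rw [Equiv.apply_symm_apply] at this
    rw [this]
    exact ω.2 (θ.symm j)⟩
  left_inv ω := by
    apply Subtype.ext
    ext j
    simp
  right_inv ω := by
    apply Subtype.ext
    ext j
    simp

theorem va_permOm (θ : J ≃ J) (hθ : ∀ j, D.d (θ j) = D.d j) (ω : D.Om) (j : J) :
    D.va (permOm θ hθ ω) j = D.va ω (θ j) := by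
  show (Finsupp.equivMapDomain θ.symm ω.1) j = ω.1 (θ j)
  rw [Finsupp.equivMapDomain_apply, Equiv.symm_symm]

theorem va_permOm_symm (θ : J ≃ J) (hθ : ∀ j, D.d (θ j) = D.d j) (ω : D.Om) (j : J) :
    D.va ((permOm θ hθ).symm ω) (θ j) = D.va ω j := by
  have := va_permOm θ hθ ((permOm θ hθ).symm ω) j
  rw [Equiv.apply_symm_apply] at this
  exact this.symm

variable {H : Type*} [NormedAddCommGroup H] [InnerProductSpace ℂ H] [CompleteSpace H]
  (b : HilbertBasis D.Om ℂ H)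

/-- the permutation unitary -/
noncomputable def WU (θ : J ≃ J) (hθ : ∀ j, D.d (θ j) = D.d j) : H →L[ℂ] H :=
  wp b (permOm θ hθ) (fun _ => 1) (fun _ => by simp)

theorem repr_WU (θ : J ≃ J) (hθ : ∀ j, D.d (θ j) = D.d j) (ξ : H) (ω : D.Om) :
    b.repr (WU b θ hθ ξ) ω = b.repr ξ (permOm θ hθ ω) := by
  rw [WU, repr_wp, one_mul]

theorem star_WU (θ : J ≃ J) (hθ : ∀ j, D.d (θ j) = D.d j) :
    star (WU b θ hθ) = wp b (permOm θ hθ).symm (fun _ => 1) (fun _ => by simp) := by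
  rw [WU, adjoint_wp b (permOm θ hθ) (fun _ => 1) _ (fun _ => 1) (fun _ => by simp)
    (fun i => by simp)]

theorem star_WU_mul (θ : J ≃ J) (hθ : ∀ j, D.d (θ j) = D.d j) :
    star (WU b θ hθ) * WU b θ hθ = 1 := by
  rw [star_WU]
  apply op_ext b
  intro ξ i
  have e : (wp b (permOm θ hθ).symm (fun _ => 1) (fun _ => by simp) * WU b θ hθ) ξ =
    wp b (permOm θ hθ).symm (fun _ => 1) (fun _ => by simp) (WU b θ hθ ξ) := rfl
  rw [e, repr_wp, repr_WU, one_mul, Equiv.apply_symm_apply]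
  rfl

theorem WU_mul_star (θ : J ≃ J) (hθ : ∀ j, D.d (θ j) = D.d j) :
    WU b θ hθ * star (WU b θ hθ) = 1 := by
  rw [star_WU]
  apply op_ext b
  intro ξ i
  have e : (WU b θ hθ * wp b (permOm θ hθ).symm (fun _ => 1) (fun _ => by simp)) ξ =
    WU b θ hθ (wp b (permOm θ hθ).symm (fun _ => 1) (fun _ => by simp) ξ) := rfl
  rw [e, repr_WU, repr_wp, one_mul, Equiv.symm_apply_apply]
  rfl

variable [DecidableEq J]

theorem WU_E (θ : J ≃ J) (hθ : ∀ j, D.d (θ j) = D.d j) (F : Finset J) (v w : D.Om) :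
    WU b θ hθ * E b F v w =
      E b (F.map θ.toEmbedding) ((permOm θ hθ).symm v) ((permOm θ hθ).symm w) * WU b θ hθ := by
  have key : ∀ ω v : D.Om, agr (F.map θ.toEmbedding) ω ((permOm θ hθ).symm v) ↔
      agr F (permOm θ hθ ω) v := by
    intro ω v
    constructor
    · intro h j hj
      rw [va_permOm, ← va_permOm_symm θ hθ v j]
      exact h (θ j) (Finset.mem_map_of_mem θ.toEmbedding hj)
    · intro h j hj
      obtain ⟨i, hi, rfl⟩ := Finset.mem_map.1 hj
      have := h i hi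
      rw [va_permOm] at this
      show D.va ω (θ i) = D.va ((permOm θ hθ).symm v) (θ i)
      rw [this, va_permOm_symm]
  apply op_ext b
  intro ξ ω
  have e1 : (WU b θ hθ * E b F v w) ξ = WU b θ hθ (E b F v w ξ) := rfl
  have e2 : (E b (F.map θ.toEmbedding) ((permOm θ hθ).symm v) ((permOm θ hθ).symm w) *
    WU b θ hθ) ξ = E b (F.map θ.toEmbedding) ((permOm θ hθ).symm v) ((permOm θ hθ).symm w)
    (WU b θ hθ ξ) := rfl
  rw [e1, e2, repr_WU]
  by_cases h : agr F (permOm θ hθ ω) v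
  · have e3 : upd F (permOm θ hθ ω) w = permOm θ hθ
        (upd (F.map θ.toEmbedding) ω ((permOm θ hθ).symm w)) := by
      apply om_ext
      intro j
      rw [va_permOm, va_upd, va_upd, va_permOm, va_permOm_symm]
      have : θ j ∈ F.map θ.toEmbedding ↔ j ∈ F := by
        constructor
        · intro h
          obtain ⟨i, hi, hij⟩ := Finset.mem_map.1 h
          have : i = j := θ.injective hij
          rwa [← this]
        · intro h
          exact Finset.mem_map_of_mem θ.toEmbedding h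
      simp only [this]
    rw [repr_E_pos b h, repr_E_pos b ((key ω v).2 h), repr_WU, e3]
  · rw [repr_E_neg b h, repr_E_neg b (fun h' => h ((key ω v).1 h'))]

/-- closed subspaces containing the generators contain the C*-algebra -/
theorem BB_le_of_closed {X : Set J} (S : Submodule ℂ (H →L[ℂ] H))
    (hS : IsClosed (S : Set (H →L[ℂ] H)))
    (h : ∀ (F : Finset J) (v w : D.Om), (F : Set J) ⊆ X → chEq F v w → E b F v w ∈ S)
    {x : H →L[ℂ] H} (hx : x ∈ BB b X) : x ∈ S := by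
  have h1 : (algX b X : Set (H →L[ℂ] H)) ⊆ (S : Set (H →L[ℂ] H)) := by
    intro y hy
    obtain ⟨F, hF, hyF⟩ := (mem_algX b).1 hy
    exact St_le_of b S (fun v w hvw => h F v w hF hvw) hyF
  exact closure_minimal h1 hS hx

theorem ch_map (θ : J ≃ J) (hθ : ∀ j, D.d (θ j) = D.d j) (hθa : ∀ j, D.a (θ j) = D.a j)
    {F : Finset J} {z z' : G} (hz : ∀ j ∈ F, D.c (θ j) z = D.c j z') (v : D.Om) :
    ch (F.map θ.toEmbedding) z ((permOm θ hθ).symm v) = ch F z' v := by
  unfold ch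
  rw [Finset.prod_map]
  refine Finset.prod_congr rfl fun j hj => ?_
  show D.ls (θ j) (D.va ((permOm θ hθ).symm v) (θ j)) z = _
  rw [va_permOm_symm]
  unfold ls
  rw [hθa j, hz j hj]

theorem conj_mem_BB (θ : J ≃ J) (hθa : ∀ j, D.a (θ j) = D.a j)
    (hθ : ∀ j, D.d (θ j) = D.d j)
    {X Y : Set J} (hXY : ∀ j ∈ X, θ j ∈ Y)
    (hz : ∀ z, ∃ z', ∀ j ∈ X, D.c (θ j) z = D.c j z') {x : H →L[ℂ] H} (hx : x ∈ BB b X) :
    conjHom (WU b θ hθ) (star_WU_mul b θ hθ) x ∈ BB b Y := by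
  let f : (H →L[ℂ] H) →ₗ[ℂ] (H →L[ℂ] H) :=
    { toFun := fun X => WU b θ hθ * X * star (WU b θ hθ)
      map_add' := fun X Y => by simp [mul_add, add_mul]
      map_smul' := fun c X => by simp }
  have hf : Continuous f := by
    show Continuous (fun X => WU b θ hθ * X * star (WU b θ hθ))
    fun_prop
  let S : Submodule ℂ (H →L[ℂ] H) := (BB b Y).toSubmodule
  have hS : IsClosed (S : Set (H →L[ℂ] H)) := isClosed_BB b Y
  have key := BB_le_of_closed b (S.comap f) (hS.preimage hf) (fun F v w hF hvw => ?_) hx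
  · exact key
  · show WU b θ hθ * E b F v w * star (WU b θ hθ) ∈ BB b Y
    rw [WU_E, mul_assoc, WU_mul_star, mul_one]
    refine E_mem_BB b ?_ fun z => ?_
    · intro j hj
      obtain ⟨i, hi, rfl⟩ := Finset.mem_map.1 (Finset.mem_coe.1 hj)
      exact hXY i (hF hi)
    · obtain ⟨z', hz'⟩ := hz z
      rw [ch_map θ hθ hθa (fun j hj => hz' j (hF hj)), ch_map θ hθ hθa
        (fun j hj => hz' j (hF hj))]
      exact hvw z'

/-- embeddings from site permutations -/
theorem exists_emb (θ : J ≃ J) (hθa : ∀ j, D.a (θ j) = D.a j) (hθb : ∀ j, D.b (θ j) = D.b j)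
    {X Y : Set J} (hXY : ∀ j ∈ X, θ j ∈ Y)
    (hz : ∀ z, ∃ z', ∀ j ∈ X, D.c (θ j) z = D.c j z') :
    ∃ φ : (BB b X) →⋆ₙₐ[ℂ] (BB b Y), Function.Injective φ := by
  have hθ : ∀ j, D.d (θ j) = D.d j := fun j => by unfold d; rw [hθa, hθb]
  let ψ : (BB b X) →⋆ₙₐ[ℂ] (H →L[ℂ] H) :=
    (conjHom (WU b θ hθ) (star_WU_mul b θ hθ)).comp (NonUnitalStarSubalgebraClass.subtype (BB b X))
  have hψ : ∀ x, ψ x ∈ BB b Y := fun x => conj_mem_BB b θ hθa hθ hXY hz x.2
  refine ⟨NonUnitalStarAlgHom.codRestrict ψ (BB b Y) hψ, ?_⟩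
  intro x y hxy
  have h1 : ψ x = ψ y := congrArg Subtype.val hxy
  exact Subtype.ext (conjHom_injective (WU b θ hθ) (star_WU_mul b θ hθ) h1)

end PT

end Pool.Agent.Lib.MP_5f80dd_lc
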