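import Mathlib

set_option autoImplicit false

namespace Pool.Agent.Lib.MP_5f80dd_lc

/-- labels: finite binary words -/
abbrev Lab := List Bool

/-- the prime attached to a label -/
noncomputable def pr (u : Lab) : ℕ := Nat.nth Nat.Prime (Encodable.encode u)

theorem pr_prime (u : Lab) : (pr u).Prime := Nat.prime_nth_prime _

theorem pr_injective : Function.Injective pr := fun _ _ h =>
  Encodable.encode_injective (Nat.nth_injective Nat.infinite_setOf_prime h)

instance (u : Lab) : Fact (pr u).Prime := ⟨pr_prime u⟩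

instance (u : Lab) : NeZero (pr u) := ⟨(pr_prime u).ne_zero⟩

/-- the local group at a site -/
abbrev LocG (s : Lab × ℕ) : Type := ZMod (pr s.1) × ZMod (pr s.1)

/-- the discrete group: finitely supported families -/
abbrev Gam : Type := DFinsupp LocG

noncomputable instance : DecidableEq Gam := Classical.decEq _

instance : Countable Gam := inferInstance

/-- one summand of the pairing -/
noncomputable def pairOne (s : Lab × ℕ) : LocG s →+ (Gam →+ Additive Circle) where
  toFun a :=
    { toFun := fun h => Additive.ofMul (ZMod.toCircle (a.1 * (h s).2))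
      map_zero' := by simp
      map_add' := fun h h' => by
        simp [mul_add, AddChar.map_add_eq_mul] }
  map_zero' := by
    ext h
    simp
  map_add' a b := by
    ext h
    simp [add_mul, AddChar.map_add_eq_mul]

theorem pairOne_apply (s : Lab × ℕ) (a : LocG s) (h : Gam) :
    pairOne s a h = Additive.ofMul (ZMod.toCircle (a.1 * (h s).2)) := rfl

/-- the pairing -/
noncomputable def pairing : Gam →+ (Gam →+ Additive Circle) :=
  DFinsupp.sumAddHom pairOne

/-- the bicharacter -/
noncomputable def bet (g h : Gam) : ℂ := ((Additive.toMul (pairing g h) : Circle) : ℂ)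

theorem bet_add_left (g g' h : Gam) : bet (g + g') h = bet g h * bet g' h := by
  simp [bet, map_add]

theorem bet_add_right (g h h' : Gam) : bet g (h + h') = bet g h * bet g h' := by
  simp [bet, map_add]

theorem bet_zero_left (h : Gam) : bet 0 h = 1 := by simp [bet]

theorem bet_zero_right (g : Gam) : bet g 0 = 1 := by simp [bet]

theorem norm_bet (g h : Gam) : ‖bet g h‖ = 1 := by simp [bet]

theorem bet_ne_zero (g h : Gam) : bet g h ≠ 0 := by
  intro h0
  have := norm_bet g h
  rw [h0, norm_zero] at this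
  exact zero_ne_one this

theorem bet_neg_left (g h : Gam) : bet (-g) h = (starRingEnd ℂ) (bet g h) := by
  have h1 : bet (-g) h * bet g h = 1 := by
    rw [← bet_add_left, neg_add_cancel, bet_zero_left]
  have h2 : (starRingEnd ℂ) (bet g h) * bet g h = 1 := by
    rw [mul_comm, Complex.mul_conj, Complex.normSq_eq_norm_sq, norm_bet]
    simp
  exact mul_right_cancel₀ (bet_ne_zero g h) (h1.trans h2.symm)

theorem bet_single_single (u : Lab) (k l : ℕ) (a : LocG (u, k)) (b : LocG (u, l)) :
    bet (DFinsupp.single (u, k) a) (DFinsupp.single (u, l) b) =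
      if h : l = k then ((ZMod.toCircle (a.1 * b.2) : Circle) : ℂ) else 1 := by
  unfold bet pairing
  rw [DFinsupp.sumAddHom_single, pairOne_apply, toMul_ofMul]
  by_cases h : l = k
  · subst h
    rw [DFinsupp.single_eq_same, dif_pos rfl]
  · have h' : (u, l) ≠ (u, k) := fun e => h (Prod.ext_iff.1 e).2
    rw [DFinsupp.single_eq_of_ne h'.symm, dif_neg h]
    simp

/-- the set of labels occurring in a group element -/
def lab (g : Gam) : Set Lab := {u | ∃ k, g (u, k) ≠ 0}

theorem lab_zero : lab 0 = ∅ := by
  ext u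
  simp [lab]

theorem lab_add (g h : Gam) : lab (g + h) ⊆ lab g ∪ lab h := by
  rintro u ⟨k, hk⟩
  by_cases hg : g (u, k) = 0
  · right
    refine ⟨k, fun hh => hk ?_⟩
    simp [hg, hh]
  · exact Or.inl ⟨k, hg⟩

theorem lab_neg (g : Gam) : lab (-g) = lab g := by
  ext u
  simp [lab]

theorem lab_single (u : Lab) (k : ℕ) (a : LocG (u, k)) :
    lab (DFinsupp.single (u, k) a) ⊆ {u} := by
  rintro v ⟨l, hl⟩
  by_contra hne
  apply hl
  rw [DFinsupp.single_eq_of_ne]
  intro h
  exact hne (Prod.ext_iff.1 h).1

/-- elements with labels in `L` -/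
def GG (L : Set Lab) : AddSubgroup Gam where
  carrier := {g | lab g ⊆ L}
  zero_mem' := by simp [lab_zero]
  add_mem' {a b} ha hb := (lab_add a b).trans (Set.union_subset ha hb)
  neg_mem' {a} ha := by
    show lab (-a) ⊆ L
    rw [lab_neg]
    exact ha

theorem mem_GG {L : Set Lab} {g : Gam} : g ∈ GG L ↔ lab g ⊆ L := Iff.rfl

theorem GG_mono {L M : Set Lab} (h : L ⊆ M) : GG L ≤ GG M := fun _ hg => Set.Subset.trans hg h

theorem torsion_Gam : IsAddTorsion Gam := by
  intro g
  induction g using DFinsupp.induction with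
  | h0 => exact IsOfFinAddOrder.zero
  | ha i b f _ _ ih =>
    refine IsOfFinAddOrder.add ?_ ih
    exact (DFinsupp.singleAddHom LocG i).isOfFinAddOrder (isOfFinAddOrder_of_finite b)

theorem finite_closure {S : Set Gam} (hS : S.Finite) : (AddSubgroup.closure S : Set Gam).Finite := by
  have hfg : AddGroup.FG (AddSubgroup.closure S) := by
    rw [AddGroup.fg_iff_addSubgroup_fg]
    exact ⟨hS.toFinset, by simp⟩
  have : Finite (AddSubgroup.closure S) :=
    AddCommGroup.finite_of_fg_isAddTorsion _ (torsion_Gam.addSubgroup _)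
  exact Set.toFinite _

/-- primes dividing the order of a finite subgroup come from its labels -/
theorem exists_label_of_dvd_card {L : Set Lab} (F : AddSubgroup Gam) [Finite F] (hF : F ≤ GG L)
    {q : ℕ} (hq : q.Prime) (hd : q ∣ Nat.card F) : ∃ u ∈ L, q = pr u := by
  have := Fact.mk hq
  obtain ⟨x, hx⟩ := exists_prime_addOrderOf_dvd_card' (G := F) q hd
  have hx0 : (x : Gam) ≠ 0 := by
    intro h
    have : x = 0 := Subtype.ext h
    rw [this, addOrderOf_zero] at hx
    exact hq.one_lt.ne hx
  obtain ⟨s, hs⟩ := DFinsupp.ne_iff.1 hx0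
  have hqs : q • ((x : Gam) s) = 0 := by
    have h1 : q • x = 0 := by rw [← hx]; exact addOrderOf_nsmul_eq_zero x
    have h2 : q • (x : Gam) = 0 := by
      have := congrArg (fun y : F => (y : Gam)) h1
      simpa using this
    have h3 := congrArg (fun y : Gam => y s) h2
    simpa using h3
  refine ⟨s.1, hF x.2 ⟨s.2, hs⟩, ?_⟩
  by_contra hne
  have hcop : Nat.Coprime q (pr s.1) := (Nat.coprime_primes hq (pr_prime s.1)).2 hne
  have hps : (pr s.1) • ((x : Gam) s) = 0 := by
    ext <;> simp
  apply hs
  have hg : (Nat.gcd q (pr s.1)) • ((x : Gam) s) = 0 := by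
    have h1 : addOrderOf ((x : Gam) s) ∣ q := addOrderOf_dvd_of_nsmul_eq_zero hqs
    have h2 : addOrderOf ((x : Gam) s) ∣ pr s.1 := addOrderOf_dvd_of_nsmul_eq_zero hps
    exact addOrderOf_dvd_iff_nsmul_eq_zero.1 (Nat.dvd_gcd h1 h2)
  rw [hcop, one_smul] at hg
  exact hg

/-- the commuting elements used to cut a projection into many equivalent ones -/
noncomputable def iot (u : Lab) (k : ℕ) : (Fin k → ZMod (pr u)) →+ Gam where
  toFun v := ∑ i : Fin k, DFinsupp.single (u, (i : ℕ)) ((v i, 0) : LocG (u, (i : ℕ)))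
  map_zero' := by
    refine Finset.sum_eq_zero fun i _ => ?_
    exact DFinsupp.single_zero _
  map_add' v w := by
    rw [← Finset.sum_add_distrib]
    refine Finset.sum_congr rfl fun i _ => ?_
    rw [← DFinsupp.single_add]
    simp

theorem bet_sum_left {ι : Type} (s : Finset ι) (f : ι → Gam) (h : Gam) :
    bet (∑ i ∈ s, f i) h = ∏ i ∈ s, bet (f i) h := by
  classical
  induction s using Finset.induction_on with
  | empty => simp [bet_zero_left]
  | insert a s ha ih => rw [Finset.sum_insert ha, Finset.prod_insert ha, bet_add_left, ih]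

theorem bet_sum_right {ι : Type} (s : Finset ι) (f : ι → Gam) (g : Gam) :
    bet g (∑ i ∈ s, f i) = ∏ i ∈ s, bet g (f i) := by
  classical
  induction s using Finset.induction_on with
  | empty => simp [bet_zero_right]
  | insert a s ha ih => rw [Finset.sum_insert ha, Finset.prod_insert ha, bet_add_right, ih]

theorem bet_iot_iot (u : Lab) (k : ℕ) (v w : Fin k → ZMod (pr u)) :
    bet (iot u k v) (iot u k w) = 1 := by
  show bet (∑ i : Fin k, _) (∑ i : Fin k, _) = 1
  rw [bet_sum_left]
  refine Finset.prod_eq_one fun i _ => ?_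
  rw [bet_sum_right]
  refine Finset.prod_eq_one fun j _ => ?_
  rw [bet_single_single]
  split_ifs with h
  · simp
  · rfl

theorem lab_iot (u : Lab) (k : ℕ) (v : Fin k → ZMod (pr u)) : lab (iot u k v) ⊆ {u} := by
  have : iot u k v ∈ GG {u} := by
    show (∑ i : Fin k, _) ∈ GG {u}
    exact sum_mem fun i _ => lab_single u i _
  exact this

theorem exists_noncomm (u : Lab) (k : ℕ) (v : Fin k → ZMod (pr u)) (hv : v ≠ 0) :
    ∃ h : Gam, lab h ⊆ {u} ∧ bet (iot u k v) h ≠ bet h (iot u k v) := by
  obtain ⟨i, hi⟩ := Function.ne_iff.1 hv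
  refine ⟨DFinsupp.single (u, (i : ℕ)) ((0, 1) : LocG (u, (i : ℕ))), lab_single _ _ _, ?_⟩
  have h1 : bet (iot u k v) (DFinsupp.single (u, (i : ℕ)) ((0, 1) : LocG (u, (i : ℕ)))) =
      ((ZMod.toCircle (v i) : Circle) : ℂ) := by
    show bet (∑ j : Fin k, _) _ = _
    rw [bet_sum_left, Finset.prod_eq_single i]
    · rw [bet_single_single]
      simp
    · intro j _ hj
      rw [bet_single_single]
      have : ¬ ((i : ℕ) = (j : ℕ)) := fun h => hj (Fin.ext h.symm)
      simp [this]
    · intro h
      exact absurd (Finset.mem_univ i) h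
  have h2 : bet (DFinsupp.single (u, (i : ℕ)) ((0, 1) : LocG (u, (i : ℕ)))) (iot u k v) = 1 := by
    show bet _ (∑ j : Fin k, _) = _
    rw [bet_sum_right]
    refine Finset.prod_eq_one fun j _ => ?_
    rw [bet_single_single]
    split_ifs with h
    · simp
    · rfl
  rw [h1, h2]
  intro h3
  have h4 : ZMod.toCircle (v i) = 1 := by
    apply Circle.ext
    simpa using h3
  have h5 : (ZMod.toCircle (0 : ZMod (pr u)) : Circle) = 1 := by simp
  exact hi (ZMod.injective_toCircle (h4.trans h5.symm))

theorem iot_injective (u : Lab) (k : ℕ) : Function.Injective (iot u k) := by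
  intro v w h
  by_contra hne
  obtain ⟨x, _, hx⟩ := exists_noncomm u k (v - w) (sub_ne_zero.2 hne)
  apply hx
  rw [map_sub, h, sub_self, bet_zero_left, bet_zero_right]

end Pool.Agent.Lib.MP_5f80dd_lc
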