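import Mathlib

set_option autoImplicit false

namespace Pool.Agent.Lib.MP_5f80dd_lc

open scoped InnerProductSpace ENNReal

section lpop

variable {J : Type}

theorem memlp_comp (e : J ≃ J) (f : lp (fun _ : J => ℂ) 2) :
    Memℓp (fun i => f (e i)) (2 : ℝ≥0∞) := by
  apply memℓp_gen
  have := (lp.memℓp f).summable (by norm_num)
  exact (Equiv.summable_iff e).2 this

/-- weighted permutation operators on the Hilbert sequence space -/
noncomputable def wpfun (e : J ≃ J) (c : J → ℂ) (hc : ∀ i, ‖c i‖ ≤ 1)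
    (f : lp (fun _ : J => ℂ) 2) : lp (fun _ : J => ℂ) 2 :=
  ⟨fun i => c i * f (e i), (memlp_comp e f).mono' fun i => by
    rw [norm_mul]
    exact mul_le_of_le_one_left (norm_nonneg _) (hc i)⟩

theorem wpfun_apply (e : J ≃ J) (c : J → ℂ) (hc : ∀ i, ‖c i‖ ≤ 1)
    (f : lp (fun _ : J => ℂ) 2) (i : J) : wpfun e c hc f i = c i * f (e i) := rfl

theorem norm_wpfun_le (e : J ≃ J) (c : J → ℂ) (hc : ∀ i, ‖c i‖ ≤ 1)
    (f : lp (fun _ : J => ℂ) 2) : ‖wpfun e c hc f‖ ≤ ‖f‖ := by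
  refine lp.norm_le_of_tsum_le (by norm_num) (norm_nonneg _) ?_
  rw [lp.norm_rpow_eq_tsum (by norm_num) f,
    ← Equiv.tsum_eq e (fun i => ‖f i‖ ^ (2 : ℝ≥0∞).toReal)]
  have h2 : Summable fun i => ‖f (e i)‖ ^ (2 : ℝ≥0∞).toReal :=
    (memlp_comp e f).summable (by norm_num)
  have h1 : Summable fun i => ‖wpfun e c hc f i‖ ^ (2 : ℝ≥0∞).toReal :=
    (lp.memℓp _).summable (by norm_num)
  refine h1.tsum_le_tsum (fun i => ?_) h2
  refine Real.rpow_le_rpow (norm_nonneg _) ?_ (by norm_num)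
  rw [wpfun_apply, norm_mul]
  exact mul_le_of_le_one_left (norm_nonneg _) (hc i)

/-- weighted permutation operators on the Hilbert sequence space -/
noncomputable def wp2 (e : J ≃ J) (c : J → ℂ) (hc : ∀ i, ‖c i‖ ≤ 1) :
    lp (fun _ : J => ℂ) 2 →L[ℂ] lp (fun _ : J => ℂ) 2 :=
  LinearMap.mkContinuous
    { toFun := wpfun e c hc
      map_add' := fun f g => by
        apply lp.ext
        funext i
        simp only [wpfun_apply, lp.coeFn_add, Pi.add_apply]
        ring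
      map_smul' := fun a f => by
        apply lp.ext
        funext i
        simp only [wpfun_apply, lp.coeFn_smul, Pi.smul_apply, smul_eq_mul, RingHom.id_apply]
        show c i * (a * f (e i)) = a * (c i * f (e i))
        ring } 1 (fun f => by
      rw [one_mul]
      exact norm_wpfun_le e c hc f)

theorem wp2_apply (e : J ≃ J) (c : J → ℂ) (hc : ∀ i, ‖c i‖ ≤ 1)
    (f : lp (fun _ : J => ℂ) 2) (i : J) : wp2 e c hc f i = c i * f (e i) := rfl

end lpop

section hb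

variable {J : Type} {H : Type*} [NormedAddCommGroup H] [InnerProductSpace ℂ H]
  (b : HilbertBasis J ℂ H)

/-- weighted permutation operators in a Hilbert space with a Hilbert basis -/
noncomputable def wp (e : J ≃ J) (c : J → ℂ) (hc : ∀ i, ‖c i‖ ≤ 1) : H →L[ℂ] H :=
  (b.repr.symm : lp (fun _ : J => ℂ) 2 →L[ℂ] H) ∘L (wp2 e c hc) ∘L
    (b.repr : H →L[ℂ] lp (fun _ : J => ℂ) 2)

theorem repr_wp (e : J ≃ J) (c : J → ℂ) (hc : ∀ i, ‖c i‖ ≤ 1) (ξ : H) (i : J) :
    b.repr (wp b e c hc ξ) i = c i * b.repr ξ (e i) := by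
  have : b.repr (wp b e c hc ξ) = wp2 e c hc (b.repr ξ) := by
    simp [wp]
  rw [this, wp2_apply]

theorem hb_ext {ξ η : H} (h : ∀ i, b.repr ξ i = b.repr η i) : ξ = η := by
  apply b.repr.injective
  apply lp.ext
  funext i
  exact h i

theorem op_ext {S T : H →L[ℂ] H} (h : ∀ ξ i, b.repr (S ξ) i = b.repr (T ξ) i) : S = T := by
  ext ξ
  exact hb_ext b (h ξ)

theorem inner_eq (ξ η : H) :
    ⟪ξ, η⟫_ℂ = ∑' i, (starRingEnd ℂ) (b.repr ξ i) * b.repr η i := by
  rw [← b.repr.inner_map_map ξ η, lp.inner_eq_tsum]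
  refine tsum_congr fun i => ?_
  rw [mul_comm]
  rfl

variable [CompleteSpace H]

theorem adjoint_wp (e : J ≃ J) (c : J → ℂ) (hc : ∀ i, ‖c i‖ ≤ 1)
    (c' : J → ℂ) (hc' : ∀ i, ‖c' i‖ ≤ 1) (h : ∀ i, c' (e i) = (starRingEnd ℂ) (c i)) :
    star (wp b e c hc) = wp b e.symm c' hc' := by
  rw [ContinuousLinearMap.star_eq_adjoint]
  symm
  rw [ContinuousLinearMap.eq_adjoint_iff]
  intro ξ η
  rw [inner_eq b, inner_eq b, ← Equiv.tsum_eq e]
  refine tsum_congr fun i => ?_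
  rw [repr_wp, repr_wp, Equiv.symm_apply_apply, map_mul, h i, Complex.conj_conj]
  ring

end hb

end Pool.Agent.Lib.MP_5f80dd_lc
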