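import Pool.Agent.Lib.MP_5f80dd_lc.Tree
import Pool.Agent.Lib.MP_5f80dd_lc.Grp
import Pool.Agent.Lib.MP_5f80dd_lc.Ops

set_option autoImplicit false

namespace Pool.Agent.Lib.MP_5f80dd_lc

open scoped InnerProductSpace ENNReal

/-- the index set of the basis -/
abbrev JJ := List ℕ × ℕ × Gam

/-- translation of the group coordinate -/
noncomputable def shiftJ (g : Gam) : JJ ≃ JJ where
  toFun i := (i.1, i.2.1, i.2.2 - g)
  invFun i := (i.1, i.2.1, i.2.2 + g)
  left_inv i := by simp
  right_inv i := by simp

open Classical in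
/-- coefficients of the generators -/
noncomputable def coefE (t : List ℕ) (g : Gam) (i : JJ) : ℂ :=
  if t <+: i.1 then bet g (i.2.2 - g) else 0

theorem norm_coefE (t : List ℕ) (g : Gam) (i : JJ) : ‖coefE t g i‖ ≤ 1 := by
  unfold coefE
  split_ifs
  · exact (norm_bet _ _).le
  · simp

section repr

variable {J : Type} {H : Type*} [NormedAddCommGroup H] [InnerProductSpace ℂ H]
  (b : HilbertBasis J ℂ H)

theorem repr_smul' (c : ℂ) (ξ : H) (i : J) : b.repr (c • ξ) i = c * b.repr ξ i := by
  rw [map_smul]
  rfl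

theorem repr_add' (ξ η : H) (i : J) : b.repr (ξ + η) i = b.repr ξ i + b.repr η i := by
  rw [map_add]
  rfl

theorem repr_zero' (i : J) : b.repr (0 : H) i = 0 := by
  rw [map_zero]
  rfl

theorem repr_basis [DecidableEq J] (i j : J) : b.repr (b i) j = if j = i then 1 else 0 := by
  rw [b.repr_self, lp.single_apply, Pi.single_apply]

theorem inner_basis (i : J) (ξ : H) : ⟪b i, ξ⟫_ℂ = b.repr ξ i := (b.repr_apply_apply ξ i).symm

end repr

variable {H : Type*} [NormedAddCommGroup H] [InnerProductSpace ℂ H] (b : HilbertBasis JJ ℂ H)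

/-- the generators: `EE t g` is the projection onto the nodes above `t` times the unitary of `g` -/
noncomputable def EE (t : List ℕ) (g : Gam) : H →L[ℂ] H :=
  wp b (shiftJ g) (coefE t g) (norm_coefE t g)

theorem repr_EE (t : List ℕ) (g : Gam) (ξ : H) (w : List ℕ) (m : ℕ) (h : Gam) :
    b.repr (EE b t g ξ) (w, m, h) = coefE t g (w, m, h) * b.repr ξ (w, m, h - g) :=
  repr_wp b _ _ _ ξ (w, m, h)

theorem coefE_pos {t w : List ℕ} (htw : t <+: w) (g : Gam) (m : ℕ) (h : Gam) :
    coefE t g (w, m, h) = bet g (h - g) := if_pos htw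

theorem coefE_neg {t w : List ℕ} (htw : ¬ t <+: w) (g : Gam) (m : ℕ) (h : Gam) :
    coefE t g (w, m, h) = 0 := if_neg htw

theorem bet_aux (g g' h : Gam) :
    bet g (h - g) * bet g' (h - g - g') = bet g g' * bet (g + g') (h - (g + g')) := by
  have e1 : h - g = (h - (g + g')) + g' := by abel
  have e2 : h - g - g' = h - (g + g') := by abel
  rw [e2, bet_add_left]
  nth_rewrite 1 [e1]
  rw [bet_add_right]
  ring

theorem EE_mul_of_prefix {t t' : List ℕ} (h : t <+: t') (g g' : Gam) :
    EE b t g * EE b t' g' = bet g g' • EE b t' (g + g') := by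
  apply op_ext b
  rintro ξ ⟨w, m, k⟩
  have e : (EE b t g * EE b t' g') ξ = EE b t g (EE b t' g' ξ) := rfl
  have e' : (bet g g' • EE b t' (g + g')) ξ = bet g g' • (EE b t' (g + g') ξ) := rfl
  rw [e, e', repr_EE, repr_EE, repr_smul', repr_EE]
  have e2 : k - g - g' = k - (g + g') := by abel
  by_cases h' : t' <+: w
  · rw [coefE_pos (h.trans h'), coefE_pos h', coefE_pos h', ← mul_assoc, bet_aux, e2, ← mul_assoc]
  · rw [coefE_neg h', coefE_neg h']
    simp

theorem EE_mul_of_prefix' {t t' : List ℕ} (h : t' <+: t) (g g' : Gam) :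
    EE b t g * EE b t' g' = bet g g' • EE b t (g + g') := by
  apply op_ext b
  rintro ξ ⟨w, m, k⟩
  have e : (EE b t g * EE b t' g') ξ = EE b t g (EE b t' g' ξ) := rfl
  have e' : (bet g g' • EE b t (g + g')) ξ = bet g g' • (EE b t (g + g') ξ) := rfl
  rw [e, e', repr_EE, repr_EE, repr_smul', repr_EE]
  have e2 : k - g - g' = k - (g + g') := by abel
  by_cases h' : t <+: w
  · rw [coefE_pos (h.trans h'), coefE_pos h', coefE_pos h', ← mul_assoc, bet_aux, e2, ← mul_assoc]
  · rw [coefE_neg h', coefE_neg h']
    simp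

theorem EE_mul_of_not {t t' : List ℕ} (h : ¬ t <+: t') (h' : ¬ t' <+: t) (g g' : Gam) :
    EE b t g * EE b t' g' = 0 := by
  apply op_ext b
  rintro ξ ⟨w, m, k⟩
  have e : (EE b t g * EE b t' g') ξ = EE b t g (EE b t' g' ξ) := rfl
  have e' : (0 : H →L[ℂ] H) ξ = 0 := rfl
  rw [e, e', repr_EE, repr_EE, repr_zero']
  by_cases h1 : t <+: w
  · have h2 : ¬ t' <+: w := by
      intro h2
      rcases List.prefix_or_prefix_of_prefix h1 h2 with h3 | h3
      · exact h h3
      · exact h' h3
    rw [coefE_neg h2]
    simp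
  · rw [coefE_neg h1]
    simp

theorem EE_one : EE b [] 0 = 1 := by
  apply op_ext b
  rintro ξ ⟨w, m, k⟩
  rw [repr_EE, coefE_pos (List.nil_prefix), bet_zero_left, one_mul, sub_zero]
  rfl

section star

variable [CompleteSpace H]

theorem star_EE (t : List ℕ) (g : Gam) : star (EE b t g) = bet g g • EE b t (-g) := by
  classical
  have hc' : ∀ i : JJ, ‖(if t <+: i.1 then (starRingEnd ℂ) (bet g i.2.2) else 0 : ℂ)‖ ≤ 1 := by
    intro i
    split_ifs
    · rw [RCLike.norm_conj, norm_bet]
    · simp
  rw [EE, adjoint_wp b (shiftJ g) (coefE t g) (norm_coefE t g)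
    (fun i : JJ => if t <+: i.1 then (starRingEnd ℂ) (bet g i.2.2) else 0) hc']
  · apply op_ext b
    rintro ξ ⟨w, m, k⟩
    have e' : (bet g g • EE b t (-g)) ξ = bet g g • (EE b t (-g) ξ) := rfl
    rw [e', repr_smul', repr_EE, repr_wp]
    by_cases h : t <+: w
    · rw [coefE_pos h]
      simp only [h, if_true]
      have e3 : (shiftJ g).symm ((w, m, k) : JJ) = (w, m, k - -g) := by
        simp [shiftJ]
      have : bet g g * (starRingEnd ℂ) (bet g g) = 1 := by
        rw [Complex.mul_conj, Complex.normSq_eq_norm_sq, norm_bet]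
        simp
      rw [e3, bet_neg_left, sub_neg_eq_add, bet_add_right, map_mul]
      linear_combination (-(starRingEnd ℂ) (bet g k) * b.repr ξ (w, m, k + g)) * this
    · rw [coefE_neg h]
      simp [h]
  · intro i
    obtain ⟨w, m, k⟩ := i
    unfold coefE
    show (if t <+: w then (starRingEnd ℂ) (bet g (k - g)) else 0) = _
    split_ifs <;> simp

/-- a family of labels that increases along the tree -/
def Mono (L : List ℕ → Set Lab) : Prop := ∀ t w, t <+: w → L t ⊆ L w

/-- the set of admissible generators with node in `T` and group element in `F` -/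
def genTF (L : List ℕ → Set Lab) (T : Set (List ℕ)) (F : AddSubgroup Gam) : Set (H →L[ℂ] H) :=
  {X | ∃ t ∈ T, ∃ g ∈ F, lab g ⊆ L t ∧ X = EE b t g}

/-- the subalgebra spanned by the generators with node in `T` and group element in `F` -/
noncomputable def algTF (L : List ℕ → Set Lab) (hL : Mono L) (T : Set (List ℕ))
    (F : AddSubgroup Gam) : NonUnitalStarSubalgebra ℂ (H →L[ℂ] H) where
  carrier := Submodule.span ℂ (genTF b L T F)
  add_mem' := fun ha hb => Submodule.add_mem _ ha hb
  zero_mem' := Submodule.zero_mem _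
  smul_mem' := fun c _ hx => Submodule.smul_mem _ c hx
  mul_mem' := by
    intro x y hx hy
    have hx' : x ∈ Submodule.span ℂ (genTF b L T F) := hx
    have hy' : y ∈ Submodule.span ℂ (genTF b L T F) := hy
    show x * y ∈ Submodule.span ℂ (genTF b L T F)
    induction hx' using Submodule.span_induction with
    | zero => rw [zero_mul]; exact Submodule.zero_mem _
    | add p q _ _ hp hq =>
      rw [add_mul]
      exact Submodule.add_mem _ (hp (by assumption)) (hq (by assumption))
    | smul c p _ hp =>
      rw [smul_mul_assoc]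
      exact Submodule.smul_mem _ _ (hp (by assumption))
    | mem p hp =>
      obtain ⟨t, ht, g, hgF, hg, rfl⟩ := hp
      induction hy' using Submodule.span_induction with
      | zero => rw [mul_zero]; exact Submodule.zero_mem _
      | add p q _ _ hp hq =>
        rw [mul_add]
        exact Submodule.add_mem _ (hp (by assumption)) (hq (by assumption))
      | smul c p _ hp =>
        rw [mul_smul_comm]
        exact Submodule.smul_mem _ _ (hp (by assumption))
      | mem p hp =>
        obtain ⟨t', ht', g', hgF', hg', rfl⟩ := hp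
        by_cases h1 : t <+: t'
        · rw [EE_mul_of_prefix b h1]
          refine Submodule.smul_mem _ _
            (Submodule.subset_span ⟨t', ht', g + g', add_mem hgF hgF', ?_, rfl⟩)
          exact (lab_add g g').trans (Set.union_subset (hg.trans (hL _ _ h1)) hg')
        · by_cases h2 : t' <+: t
          · rw [EE_mul_of_prefix' b h2]
            refine Submodule.smul_mem _ _
              (Submodule.subset_span ⟨t, ht, g + g', add_mem hgF hgF', ?_, rfl⟩)
            exact (lab_add g g').trans (Set.union_subset hg (hg'.trans (hL _ _ h2)))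
          · rw [EE_mul_of_not b h1 h2]
            exact Submodule.zero_mem _
  star_mem' := by
    intro x hx
    have hx' : x ∈ Submodule.span ℂ (genTF b L T F) := hx
    show star x ∈ Submodule.span ℂ (genTF b L T F)
    induction hx' using Submodule.span_induction with
    | zero => rw [star_zero]; exact Submodule.zero_mem _
    | add p q _ _ hp hq =>
      rw [star_add]
      exact Submodule.add_mem _ (hp (by assumption)) (hq (by assumption))
    | smul c p _ hp =>
      rw [star_smul]
      exact Submodule.smul_mem _ _ (hp (by assumption))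
    | mem p hp =>
      obtain ⟨t, ht, g, hgF, hg, rfl⟩ := hp
      rw [star_EE]
      refine Submodule.smul_mem _ _ (Submodule.subset_span ⟨t, ht, -g, neg_mem hgF, ?_, rfl⟩)
      rw [lab_neg]
      exact hg

theorem mem_algTF {L : List ℕ → Set Lab} {hL : Mono L} {T : Set (List ℕ)}
    {F : AddSubgroup Gam} {x : H →L[ℂ] H} :
    x ∈ algTF b L hL T F ↔ x ∈ Submodule.span ℂ (genTF b L T F) := Iff.rfl

theorem EE_mem_algTF {L : List ℕ → Set Lab} (hL : Mono L) {T : Set (List ℕ)}
    {F : AddSubgroup Gam} {t : List ℕ} {g : Gam} (ht : t ∈ T) (hg : g ∈ F)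
    (h : lab g ⊆ L t) : EE b t g ∈ algTF b L hL T F :=
  Submodule.subset_span ⟨t, ht, g, hg, h, rfl⟩

theorem algTF_mono {L : List ℕ → Set Lab} (hL : Mono L) {T T' : Set (List ℕ)}
    {F F' : AddSubgroup Gam} (hT : T ⊆ T') (hF : F ≤ F') :
    algTF b L hL T F ≤ algTF b L hL T' F' := by
  intro x hx
  refine Submodule.span_mono ?_ hx
  rintro _ ⟨t, ht, g, hg, h, rfl⟩
  exact ⟨t, hT ht, g, hF hg, h, rfl⟩

/-- the dense subalgebra -/
noncomputable def alg (L : List ℕ → Set Lab) (hL : Mono L) :
    NonUnitalStarSubalgebra ℂ (H →L[ℂ] H) := algTF b L hL Set.univ ⊤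

theorem EE_mem_alg {L : List ℕ → Set Lab} (hL : Mono L) {t : List ℕ} {g : Gam}
    (h : lab g ⊆ L t) : EE b t g ∈ alg b L hL :=
  EE_mem_algTF b hL (Set.mem_univ _) (AddSubgroup.mem_top _) h

/-- the C*-algebra attached to a family of labels -/
noncomputable def cst (L : List ℕ → Set Lab) (hL : Mono L) :
    NonUnitalStarSubalgebra ℂ (H →L[ℂ] H) := (alg b L hL).topologicalClosure

theorem EE_mem_cst {L : List ℕ → Set Lab} (hL : Mono L) {t : List ℕ} {g : Gam}
    (h : lab g ⊆ L t) : EE b t g ∈ cst b L hL :=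
  (alg b L hL).le_topologicalClosure (EE_mem_alg b hL h)

theorem algTF_le_cst {L : List ℕ → Set Lab} (hL : Mono L) (T : Set (List ℕ))
    (F : AddSubgroup Gam) : algTF b L hL T F ≤ cst b L hL :=
  (algTF_mono b hL (Set.subset_univ _) le_top).trans (alg b L hL).le_topologicalClosure

/-- a closed subspace containing the generators contains the C*-algebra -/
theorem cst_le_of_closed {L : List ℕ → Set Lab} (hL : Mono L) (S : Submodule ℂ (H →L[ℂ] H))
    (hS : IsClosed (S : Set (H →L[ℂ] H))) (h : ∀ t g, lab g ⊆ L t → EE b t g ∈ S)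
    {x : H →L[ℂ] H} (hx : x ∈ cst b L hL) : x ∈ S := by
  have h1 : ((alg b L hL : Set (H →L[ℂ] H))) ⊆ (S : Set (H →L[ℂ] H)) := by
    intro y hy
    have hy' : y ∈ Submodule.span ℂ (genTF b L Set.univ ⊤) := hy
    refine Submodule.span_le.2 ?_ hy'
    rintro _ ⟨t, _, g, _, hg, rfl⟩
    exact h t g hg
  exact closure_minimal h1 hS hx

/-- every element of the dense subalgebra lies in a small one -/
theorem exists_finite_algTF {L : List ℕ → Set Lab} (hL : Mono L) {x : H →L[ℂ] H}
    (hx : x ∈ alg b L hL) : ∃ (T : Set (List ℕ)) (F : AddSubgroup Gam), T.Finite ∧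
      (F : Set Gam).Finite ∧ x ∈ algTF b L hL T F := by
  have hx' : x ∈ Submodule.span ℂ (genTF b L Set.univ ⊤) := hx
  have hsup : ∀ (F F' : AddSubgroup Gam), (F : Set Gam).Finite → (F' : Set Gam).Finite →
      ((F ⊔ F' : AddSubgroup Gam) : Set Gam).Finite := by
    intro F F' hF hF'
    have : F ⊔ F' = AddSubgroup.closure ((F : Set Gam) ∪ F') := by
      rw [AddSubgroup.closure_union, AddSubgroup.closure_eq, AddSubgroup.closure_eq]
    rw [this]
    exact finite_closure (hF.union hF')
  induction hx' using Submodule.span_induction with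
  | zero => exact ⟨∅, ⊥, Set.finite_empty, by simp, zero_mem _⟩
  | add p q _ _ hp hq =>
    obtain ⟨T, F, hT, hF, h1⟩ := hp (by assumption)
    obtain ⟨T', F', hT', hF', h2⟩ := hq (by assumption)
    exact ⟨T ∪ T', F ⊔ F', hT.union hT', hsup _ _ hF hF',
      add_mem (algTF_mono b hL Set.subset_union_left le_sup_left h1)
        (algTF_mono b hL Set.subset_union_right le_sup_right h2)⟩
  | smul c p _ hp =>
    obtain ⟨T, F, hT, hF, h1⟩ := hp (by assumption)
    exact ⟨T, F, hT, hF, SMulMemClass.smul_mem c h1⟩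
  | mem p hp =>
    obtain ⟨t, _, g, _, hg, rfl⟩ := hp
    exact ⟨{t}, AddSubgroup.closure {g}, Set.finite_singleton _,
      finite_closure (Set.finite_singleton _),
      EE_mem_algTF b hL (Set.mem_singleton _) (AddSubgroup.subset_closure (Set.mem_singleton _)) hg⟩

/-- the small subalgebras are finite dimensional -/
theorem finiteDimensional_algTF {L : List ℕ → Set Lab} (hL : Mono L) {T : Set (List ℕ)}
    {F : AddSubgroup Gam} (hT : T.Finite) (hF : (F : Set Gam).Finite) :
    FiniteDimensional ℂ (Submodule.span ℂ (genTF b L T F)) := by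
  have hfin : (genTF b L T F).Finite := by
    refine ((hT.prod hF).image (fun p : List ℕ × Gam => EE b p.1 p.2)).subset ?_
    rintro _ ⟨t, ht, g, hg, h, rfl⟩
    exact ⟨(t, g), ⟨ht, hg⟩, rfl⟩
  exact FiniteDimensional.span_of_finite ℂ hfin

open Classical in
/-- the sequence of generators attached to a surjection from the natural numbers -/
noncomputable def codeSeq (s : ℕ → List ℕ × Gam) (L : List ℕ → Set Lab) (n : ℕ) : H →L[ℂ] H :=
  if lab (s n).2 ⊆ L (s n).1 then EE b (s n).1 (s n).2 else 0

theorem codeSeq_mem_algTF (s : ℕ → List ℕ × Gam) {L : List ℕ → Set Lab} (hL : Mono L)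
    {T : Set (List ℕ)} {F : AddSubgroup Gam} (n : ℕ) (hT : (s n).1 ∈ T) (hF : (s n).2 ∈ F) :
    codeSeq b s L n ∈ algTF b L hL T F := by
  unfold codeSeq
  split_ifs with h
  · exact EE_mem_algTF b hL hT hF h
  · exact zero_mem _

theorem adjoin_codeSeq (s : ℕ → List ℕ × Gam) (hs : Function.Surjective s)
    {L : List ℕ → Set Lab} (hL : Mono L) :
    NonUnitalStarAlgebra.adjoin ℂ (Set.range (codeSeq b s L)) = alg b L hL := by
  apply le_antisymm
  · apply NonUnitalStarAlgebra.adjoin_le
    rintro _ ⟨n, rfl⟩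
    exact codeSeq_mem_algTF b s hL n (Set.mem_univ _) (AddSubgroup.mem_top _)
  · intro x hx
    have hx' : x ∈ Submodule.span ℂ (genTF b L Set.univ ⊤) := hx
    induction hx' using Submodule.span_induction with
    | zero => exact zero_mem _
    | add p q _ _ hp hq => exact add_mem (hp (by assumption)) (hq (by assumption))
    | smul c p _ hp => exact SMulMemClass.smul_mem c (hp (by assumption))
    | mem p hp =>
      obtain ⟨t, _, g, _, hg, rfl⟩ := hp
      obtain ⟨n, hn⟩ := hs (t, g)
      apply NonUnitalStarAlgebra.subset_adjoin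
      refine ⟨n, ?_⟩
      unfold codeSeq
      rw [hn]
      exact if_pos hg

/-- the C*-algebra is the closure of an increasing union of finite dimensional subalgebras -/
theorem exists_af (s : ℕ → List ℕ × Gam) {L : List ℕ → Set Lab} (hL : Mono L) :
    ∃ B : ℕ → NonUnitalStarSubalgebra ℂ (H →L[ℂ] H), Monotone B ∧
      (∀ n, FiniteDimensional ℂ (B n)) ∧
      ((NonUnitalStarAlgebra.adjoin ℂ (Set.range (codeSeq b s L))).topologicalClosure :
        Set (H →L[ℂ] H)) = closure (⋃ n, (B n : Set (H →L[ℂ] H))) := by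
  refine ⟨fun n => NonUnitalStarAlgebra.adjoin ℂ (codeSeq b s L '' {i | i < n}), ?_, ?_, ?_⟩
  · intro m n hmn
    apply NonUnitalStarAlgebra.adjoin_mono
    exact Set.image_mono (fun i (hi : i < m) => lt_of_lt_of_le hi hmn)
  · intro n
    let T : Set (List ℕ) := (fun i => (s i).1) '' {i | i < n}
    let S : Set Gam := (fun i => (s i).2) '' {i | i < n}
    have hT : T.Finite := (Set.finite_lt_nat n).image _
    have hS : S.Finite := (Set.finite_lt_nat n).image _
    have hle : NonUnitalStarAlgebra.adjoin ℂ (codeSeq b s L '' {i | i < n}) ≤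
        algTF b L hL T (AddSubgroup.closure S) := by
      apply NonUnitalStarAlgebra.adjoin_le
      rintro _ ⟨i, hi, rfl⟩
      exact codeSeq_mem_algTF b s hL i ⟨i, hi, rfl⟩ (AddSubgroup.subset_closure ⟨i, hi, rfl⟩)
    have hfd := finiteDimensional_algTF b hL hT (finite_closure hS)
    exact Submodule.finiteDimensional_of_le
      (S₁ := (NonUnitalStarAlgebra.adjoin ℂ (codeSeq b s L '' {i | i < n})).toSubmodule)
      (S₂ := Submodule.span ℂ (genTF b L T (AddSubgroup.closure S))) hle
  · show closure _ = closure _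
    congr 1
    apply Set.Subset.antisymm
    · have hmono : Monotone fun n =>
          NonUnitalStarAlgebra.adjoin ℂ (codeSeq b s L '' {i | i < n}) := by
        intro m n hmn
        apply NonUnitalStarAlgebra.adjoin_mono
        exact Set.image_mono (fun i (hi : i < m) => lt_of_lt_of_le hi hmn)
      have hdir := hmono.directed_le
      have : NonUnitalStarAlgebra.adjoin ℂ (Set.range (codeSeq b s L)) ≤
          ⨆ n, NonUnitalStarAlgebra.adjoin ℂ (codeSeq b s L '' {i | i < n}) := by
        apply NonUnitalStarAlgebra.adjoin_le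
        rintro _ ⟨n, rfl⟩
        exact (le_iSup (fun n => NonUnitalStarAlgebra.adjoin ℂ (codeSeq b s L '' {i | i < n}))
          (n + 1)) (NonUnitalStarAlgebra.subset_adjoin ℂ _ ⟨n, Nat.lt_succ_self n, rfl⟩)
      intro x hx
      have hx1 := this hx
      rw [← SetLike.mem_coe, NonUnitalStarSubalgebra.coe_iSup_of_directed hdir] at hx1
      exact hx1
    · apply Set.iUnion_subset
      intro n
      exact NonUnitalStarAlgebra.adjoin_mono (Set.image_subset_range _ _)

end star

end Pool.Agent.Lib.MP_5f80dd_lc
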