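import Pool.Agent.Lib.MP_5f80dd_lc.Stage

set_option autoImplicit false

namespace Pool.Agent.Lib.MP_5f80dd_lc

open scoped InnerProductSpace ENNReal

theorem trace_idem {n : Type*} [Fintype n] [DecidableEq n] (M : Matrix n n ℂ) (h : M * M = M) :
    ∃ r : ℕ, M.trace = r := by
  have hidem : IsIdempotentElem (Matrix.toLin' M) := by
    show Matrix.toLin' M * Matrix.toLin' M = Matrix.toLin' M
    have h1 : Matrix.toLin' M * Matrix.toLin' M = Matrix.toLin' (M * M) :=
      (Matrix.toLin'_mul M M).symm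
    rw [h1, h]
  have hrank := (LinearMap.IsIdempotentElem.isProj_range (Matrix.toLin' M) hidem).trace
  rw [Matrix.trace_toLin'_eq] at hrank
  exact ⟨_, hrank⟩

theorem norm_proj_sq {H : Type*} [NormedAddCommGroup H] [InnerProductSpace ℂ H] [CompleteSpace H]
    {q : H →L[ℂ] H} (hq : IsStarProjection q) (ξ : H) :
    ⟪ξ, q ξ⟫_ℂ = ((‖q ξ‖ ^ 2 : ℝ) : ℂ) := by
  have h1 : q (q ξ) = q ξ := by
    have := hq.isIdempotentElem
    exact congrArg (fun Z : H →L[ℂ] H => Z ξ) this
  have h2 : ⟪ξ, q (q ξ)⟫_ℂ = ⟪q ξ, q ξ⟫_ℂ := by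
    have h3 : ContinuousLinearMap.adjoint q = q := hq.isSelfAdjoint
    rw [← ContinuousLinearMap.adjoint_inner_left, h3]
  rw [← h1, h2, inner_self_eq_norm_sq_to_K, h1]
  norm_cast

namespace PT

variable {J G : Type} {D : PT J G} [DecidableEq J]
variable {H : Type*} [NormedAddCommGroup H] [InnerProductSpace ℂ H] (b : HilbertBasis D.Om ℂ H)

theorem TT_congr_point {F : Finset J} {z z' : G} (h : ∀ j ∈ F, D.c j z = D.c j z')
    (X : H →L[ℂ] H) : TT b z F X = TT b z' F X := by
  have h1 : ∀ v : D.Om, ch F z v = ch F z' v := by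
    intro v
    refine Finset.prod_congr rfl fun j hj => ?_
    unfold ls
    rw [h j hj]
  have h2 : sF D F z = sF D F z' := by
    refine Finset.prod_congr rfl fun j hj => ?_
    unfold s
    rw [h j hj]
  rw [TT_apply, TT_apply, h2]
  simp only [h1]

variable [CompleteSpace H]

theorem expand_St {F : Finset J} {X : H →L[ℂ] H} (hX : X ∈ St b F) :
    ∑ v ∈ conf F, ∑ w ∈ conf F, en b w v X • E b F v w = X := by
  classical
  let f : (H →L[ℂ] H) →ₗ[ℂ] (H →L[ℂ] H) :=
    { toFun := fun X => ∑ v ∈ conf F, ∑ w ∈ conf F, en b w v X • E b F v w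
      map_add' := fun X Y => by
        rw [← Finset.sum_add_distrib]
        refine Finset.sum_congr rfl fun v _ => ?_
        rw [← Finset.sum_add_distrib]
        refine Finset.sum_congr rfl fun w _ => ?_
        rw [map_add, add_smul]
      map_smul' := fun c X => by
        rw [RingHom.id_apply, Finset.smul_sum]
        refine Finset.sum_congr rfl fun v _ => ?_
        rw [Finset.smul_sum]
        refine Finset.sum_congr rfl fun w _ => ?_
        rw [map_smul, smul_eq_mul, mul_smul] }
  have hf : ∀ X, f X = ∑ v ∈ conf F, ∑ w ∈ conf F, en b w v X • E b F v w := fun X => rfl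
  have := St_le_of b (LinearMap.ker (f - LinearMap.id)) (fun v₀ w₀ _ => ?_) hX
  · have h1 : f X - X = 0 := this
    rw [← hf]
    exact sub_eq_zero.1 h1
  · show f (E b F v₀ w₀) - E b F v₀ w₀ = 0
    rw [hf, sub_eq_zero, Finset.sum_eq_single (res F v₀), Finset.sum_eq_single (res F w₀)]
    · rw [en_E, if_pos, one_smul]
      · exact E_congr b (agr_res F v₀) (agr_res F w₀)
      · refine ⟨agr_res F v₀, ?_⟩
        unfold res
        rw [upd_upd]
    · intro w hw hne
      rw [en_E, if_neg, zero_smul]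
      rintro ⟨_, h2⟩
      apply hne
      rw [← h2]
      unfold res
      rw [upd_upd]
    · intro h
      exact absurd (res_mem_conf F w₀) h
    · intro v hv hne
      refine Finset.sum_eq_zero fun w _ => ?_
      rw [en_E, if_neg, zero_smul]
      rintro ⟨h1, _⟩
      exact hne (conf_ext hv (res_mem_conf F v₀) (h1.trans (agr_res F v₀).symm))
    · intro h
      exact absurd (res_mem_conf F v₀) h

theorem en_ne_zero_chEq {F : Finset J} {X : H →L[ℂ] H} (hX : X ∈ St b F) {v w : D.Om}
    (h : en b w v X ≠ 0) : chEq F v w := by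
  classical
  by_contra hcon
  apply h
  have := St_le_of b (LinearMap.ker ((en b w v : (H →L[ℂ] H) →L[ℂ] ℂ) :
      (H →L[ℂ] H) →ₗ[ℂ] ℂ)) (fun v₀ w₀ h₀ => ?_) hX
  · exact this
  · show en b w v (E b F v₀ w₀) = 0
    rw [en_E, if_neg]
    rintro ⟨h1, h2⟩
    apply hcon
    intro z
    rw [ch_congr h1 z, h₀ z, ← h2]
    exact (ch_congr (agr_upd F v w₀) z).symm

theorem expand_vec {F : Finset J} {X : H →L[ℂ] H} (hX : X ∈ St b F) {w : D.Om}
    (hw : w ∈ conf F) : X (b w) = ∑ u ∈ conf F, en b w u X • b u := by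
  classical
  let f : (H →L[ℂ] H) →ₗ[ℂ] H :=
    { toFun := fun X => X (b w) - ∑ u ∈ conf F, en b w u X • b u
      map_add' := fun X Y => by
        have : (X + Y) (b w) = X (b w) + Y (b w) := rfl
        simp only [map_add, add_smul, Finset.sum_add_distrib, this]
        abel
      map_smul' := fun c X => by
        have : (c • X) (b w) = c • X (b w) := rfl
        simp only [map_smul, smul_assoc, this, RingHom.id_apply, smul_sub, Finset.smul_sum] }
  have hf : ∀ X, f X = X (b w) - ∑ u ∈ conf F, en b w u X • b u := fun X => rfl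
  have := St_le_of b (LinearMap.ker f) (fun v₀ w₀ _ => ?_) hX
  · have h1 : f X = 0 := this
    rw [hf] at h1
    exact sub_eq_zero.1 h1
  · show f (E b F v₀ w₀) = 0
    rw [hf, sub_eq_zero]
    apply hb_ext b
    intro ω
    have hsum : b.repr (∑ u ∈ conf F, en b w u (E b F v₀ w₀) • b u) ω =
        ∑ u ∈ conf F, en b w u (E b F v₀ w₀) * (if ω = u then 1 else 0) := by
      rw [b.repr_apply_apply, inner_sum]
      refine Finset.sum_congr rfl fun u _ => ?_
      rw [← b.repr_apply_apply, map_smul]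
      show en b w u (E b F v₀ w₀) * b.repr (b u) ω = _
      rw [repr_b]
    rw [hsum, ← en_apply]
    by_cases hω : ω ∈ conf F
    · rw [Finset.sum_eq_single ω]
      · simp
      · intro u _ hu
        rw [if_neg (fun h => hu h.symm), mul_zero]
      · intro h
        exact absurd hω h
    · rw [Finset.sum_eq_zero]
      · rw [en_E, if_neg]
        rintro ⟨_, h2⟩
        apply hω
        rw [mem_conf]
        intro j hj
        rw [← va_upd_not_mem hj ω w₀, h2]
        exact mem_conf.1 hw j hj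
      · intro u hu
        rw [if_neg, mul_zero]
        intro h
        exact hω (h ▸ hu)

/-- the supertrace of a projection is an integer divided by the product of supertraces -/
theorem exists_int {F : Finset J} {q : H →L[ℂ] H} (hq : IsStarProjection q) (hqS : q ∈ St b F)
    (z : G) : ∃ n : ℤ, TT b z F q * ((sF D F z : ℤ) : ℂ) = n := by
  classical
  let K : (H →L[ℂ] H) → Matrix (conf (D := D) F) (conf (D := D) F) ℂ := fun X =>
    Matrix.of fun v w => en b (w : D.Om) (v : D.Om) X
  have hidem : ∀ v w : conf (D := D) F, ∑ u : conf (D := D) F,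
      en b (u : D.Om) (v : D.Om) q * en b (w : D.Om) (u : D.Om) q =
      en b (w : D.Om) (v : D.Om) q := by
    intro v w
    have h1 : q (q (b (w : D.Om))) = q (b (w : D.Om)) := by
      have := hq.isIdempotentElem
      exact congrArg (fun Z : H →L[ℂ] H => Z (b (w : D.Om))) this
    have h2 := expand_vec b hqS w.2
    have h3 : q (q (b (w : D.Om))) = ∑ u ∈ conf F, en b (w : D.Om) u q • q (b u) := by
      conv_lhs => rw [h2]
      rw [map_sum]
      refine Finset.sum_congr rfl fun u _ => ?_
      rw [map_smul]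
    have h4 : en b (w : D.Om) (v : D.Om) q = ⟪b (v : D.Om), q (q (b (w : D.Om)))⟫_ℂ := by
      rw [h1]
      rfl
    have h5 := Finset.sum_coe_sort (conf (D := D) F)
      (fun u => en b u (v : D.Om) q * en b (w : D.Om) u q)
    rw [h4, h3, inner_sum, h5]
    refine Finset.sum_congr rfl fun u _ => ?_
    rw [inner_smul_right, mul_comm]
    rfl
  let Ke : ℤ → Matrix (conf (D := D) F) (conf (D := D) F) ℂ := fun ε =>
    Matrix.of fun v w => if ch F z (v : D.Om) = ε then en b (w : D.Om) (v : D.Om) q else 0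
  have hKe : ∀ ε, Ke ε * Ke ε = Ke ε := by
    intro ε
    ext v w
    rw [Matrix.mul_apply]
    show ∑ u : conf (D := D) F, (if ch F z (v : D.Om) = ε then en b (u : D.Om) (v : D.Om) q else 0) *
      (if ch F z (u : D.Om) = ε then en b (w : D.Om) (u : D.Om) q else 0) =
      if ch F z (v : D.Om) = ε then en b (w : D.Om) (v : D.Om) q else 0
    by_cases hv : ch F z (v : D.Om) = ε
    · rw [if_pos hv, ← hidem v w]
      refine Finset.sum_congr rfl fun u _ => ?_
      rw [if_pos hv]
      by_cases h0 : en b (u : D.Om) (v : D.Om) q = 0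
      · rw [h0, zero_mul, zero_mul]
      · have := en_ne_zero_chEq b hqS h0 z
        rw [if_pos (this.symm.trans hv)]
    · rw [if_neg hv]
      refine Finset.sum_eq_zero fun u _ => ?_
      rw [if_neg hv, zero_mul]
  obtain ⟨r₁, hr₁⟩ := trace_idem _ (hKe 1)
  obtain ⟨r₂, hr₂⟩ := trace_idem _ (hKe (-1))
  refine ⟨(r₁ : ℤ) - r₂, ?_⟩
  have h1 : TT b z F q * ((sF D F z : ℤ) : ℂ) =
      ∑ u ∈ conf F, ((ch F z u : ℤ) : ℂ) * en b u u q := by
    rw [TT_apply]
    have := sF_ne (D := D) F z
    field_simp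
  rw [h1]
  push_cast
  have h5 := Finset.sum_coe_sort (conf (D := D) F)
    (fun u => ((ch F z u : ℤ) : ℂ) * en b u u q)
  rw [← hr₁, ← hr₂, Matrix.trace, Matrix.trace, ← Finset.sum_sub_distrib, ← h5]
  refine Finset.sum_congr rfl fun u _ => ?_
  show _ = (if ch F z (u : D.Om) = 1 then en b (u : D.Om) (u : D.Om) q else 0) -
    (if ch F z (u : D.Om) = -1 then en b (u : D.Om) (u : D.Om) q else 0)
  rcases ch_sq F z (u : D.Om) with h | h <;> rw [h] <;> norm_num

/-- faithfulness of the trace -/
theorem TT_ne_zero {F : Finset J} {q : H →L[ℂ] H} (hq : IsStarProjection q) (hqS : q ∈ St b F)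
    {z : G} (hz : ∀ j ∈ F, D.c j z = 1) (hq0 : q ≠ 0) : TT b z F q ≠ 0 := by
  intro h0
  apply hq0
  have hch : ∀ v : D.Om, ch F z v = 1 := by
    intro v
    refine Finset.prod_eq_one fun j hj => ?_
    unfold ls
    rw [hz j hj]
    simp
  rw [TT_apply] at h0
  have h1 : ∑ u ∈ conf F, ((ch F z u : ℤ) : ℂ) * en b u u q = 0 := by
    rcases mul_eq_zero.1 h0 with h | h
    · exact absurd (inv_eq_zero.1 h) (sF_ne (D := D) F z)
    · exact h
  have h2 : ∀ u : D.Om, en b u u q = ((‖q (b u)‖ ^ 2 : ℝ) : ℂ) := by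
    intro u
    rw [en_apply, b.repr_apply_apply, norm_proj_sq hq]
  have h3 : ∑ u ∈ conf (D := D) F, ‖q (b u)‖ ^ 2 = 0 := by
    have : ((∑ u ∈ conf (D := D) F, ‖q (b u)‖ ^ 2 : ℝ) : ℂ) = 0 := by
      rw [← h1]
      push_cast
      refine Finset.sum_congr rfl fun u _ => ?_
      rw [hch, h2]
      push_cast
      ring
    exact_mod_cast this
  have h4 : ∀ u ∈ conf (D := D) F, q (b u) = 0 := by
    intro u hu
    have := (Finset.sum_eq_zero_iff_of_nonneg (fun u _ => sq_nonneg ‖q (b u)‖)).1 h3 u hu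
    exact norm_eq_zero.1 (pow_eq_zero_iff two_ne_zero |>.1 this)
  rw [← expand_St b hqS]
  refine Finset.sum_eq_zero fun v _ => Finset.sum_eq_zero fun w hw => ?_
  rw [en_apply, h4 w hw, map_zero]
  show (0 : ℂ) • _ = _
  rw [zero_smul]

end PT

end Pool.Agent.Lib.MP_5f80dd_lc
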