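import Mathlib

set_option autoImplicit false

namespace Pool.Agent.Lib.MP_5f80dd_lc

variable {A : Type*} [CStarAlgebra A]

/-- a projection close to a self-adjoint element of a closed subalgebra is close to a projection
of the subalgebra -/
theorem exists_proj_near (S : NonUnitalStarSubalgebra ℂ A) (hS : IsClosed (S : Set A))
    {q y : A} (hq : IsStarProjection q) (hy : IsSelfAdjoint y) (hyS : y ∈ S)
    (h : ‖q - y‖ ≤ 1 / 20) : ∃ p ∈ S, IsStarProjection p ∧ ‖q - p‖ < 1 := by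
  have hqn : ‖q‖ ≤ 1 := hq.norm_le
  have hyn : ‖y‖ ≤ 21 / 20 := by
    have : ‖y‖ ≤ ‖q‖ + ‖q - y‖ := by
      have h1 : y = q - (q - y) := by abel
      calc ‖y‖ = ‖q - (q - y)‖ := by rw [← h1]
        _ ≤ ‖q‖ + ‖q - y‖ := norm_sub_le _ _
    linarith
  have hqq : q * q = q := hq.isIdempotentElem
  have hyy : ‖y * y - y‖ ≤ 31 / 200 := by
    have h1 : y * y - y = (q - y) - y * (q - y) - (q - y) * q := by
      have : y * (q - y) + (q - y) * q = q * q - y * y := by noncomm_ring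
      have h2 : (q - y) - y * (q - y) - (q - y) * q = (q - y) - (y * (q - y) + (q - y) * q) := by
        abel
      rw [h2, this, hqq]
      abel
    rw [h1]
    have a1 : ‖(q - y) - y * (q - y) - (q - y) * q‖ ≤
        ‖q - y‖ + ‖y * (q - y)‖ + ‖(q - y) * q‖ :=
      (norm_sub_le _ _).trans (add_le_add (norm_sub_le _ _) le_rfl)
    have a2 : ‖y * (q - y)‖ ≤ 21 / 20 * (1 / 20) :=
      (norm_mul_le _ _).trans (mul_le_mul hyn h (norm_nonneg _) (by norm_num))
    have a3 : ‖(q - y) * q‖ ≤ 1 / 20 * 1 :=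
      (norm_mul_le _ _).trans (mul_le_mul h hqn (norm_nonneg _) (by norm_num))
    linarith
  let χ : ℝ → ℝ := fun x => min 1 (max 0 ((x - 1 / 5) * (5 / 3)))
  have hχc : Continuous χ := by fun_prop
  have hχ0 : χ 0 = 0 := by norm_num [χ]
  have hspec : ∀ x ∈ quasispectrum ℝ y, |x * x - x| ≤ 31 / 200 := by
    intro x hx
    have h1 := norm_apply_le_norm_cfcₙ (fun x : ℝ => x * x - x) y hx
    have h2 : cfcₙ (fun x : ℝ => x * x - x) y = y * y - y := by
      rw [cfcₙ_sub (fun x : ℝ => x * x) (fun x : ℝ => x) y, cfcₙ_mul (fun x : ℝ => x)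
        (fun x : ℝ => x) y, cfcₙ_id' ℝ y]
    rw [h2] at h1
    exact h1.trans hyy
  have hcase : ∀ x ∈ quasispectrum ℝ y, (x ≤ 1 / 5 ∧ -(1 / 5) ≤ x) ∨
      (4 / 5 ≤ x ∧ x ≤ 6 / 5) := by
    intro x hx
    have h1 := hspec x hx
    rw [abs_le] at h1
    obtain ⟨h2, h3⟩ := h1
    by_cases hx2 : x ≤ 1 / 2
    · left
      constructor <;> nlinarith
    · right
      constructor <;> nlinarith
  have hval : ∀ x ∈ quasispectrum ℝ y, (χ x = 0 ∧ |x| ≤ 1 / 5) ∨ (χ x = 1 ∧ |1 - x| ≤ 1 / 5) := by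
    intro x hx
    rcases hcase x hx with ⟨h1, h2⟩ | ⟨h1, h2⟩
    · left
      refine ⟨?_, abs_le.2 ⟨by linarith, by linarith⟩⟩
      have : max 0 ((x - 1 / 5) * (5 / 3)) = 0 := max_eq_left (by nlinarith)
      show min 1 (max 0 ((x - 1 / 5) * (5 / 3))) = 0
      rw [this]
      norm_num
    · right
      refine ⟨?_, abs_le.2 ⟨by linarith, by linarith⟩⟩
      have : 1 ≤ max 0 ((x - 1 / 5) * (5 / 3)) := le_max_of_le_right (by nlinarith)
      exact min_eq_left this
  refine ⟨cfcₙ χ y, ?_, ⟨?_, cfcₙ_predicate χ y⟩, ?_⟩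
  · have : IsClosed (S : Set A) := hS
    exact cfcₙ_mem (𝕜' := ℂ) χ hyS
  · show cfcₙ χ y * cfcₙ χ y = cfcₙ χ y
    rw [← cfcₙ_mul χ χ y]
    apply cfcₙ_congr
    intro x hx
    rcases hval x hx with ⟨h1, _⟩ | ⟨h1, _⟩ <;> simp [h1]
  · have h1 : ‖cfcₙ χ y - y‖ ≤ 1 / 5 := by
      have h2 : cfcₙ χ y - y = cfcₙ (fun x => χ x - x) y := by
        rw [cfcₙ_sub χ (fun x : ℝ => x) y, cfcₙ_id' ℝ y]
      rw [h2]
      apply norm_cfcₙ_le
      intro x hx
      rw [Real.norm_eq_abs]
      rcases hval x hx with ⟨h3, h4⟩ | ⟨h3, h4⟩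
      · rw [h3, zero_sub, abs_neg]
        exact h4
      · rw [h3]
        exact h4
    have h3 : q - cfcₙ χ y = (q - y) - (cfcₙ χ y - y) := by abel
    rw [h3]
    calc ‖(q - y) - (cfcₙ χ y - y)‖ ≤ ‖q - y‖ + ‖cfcₙ χ y - y‖ := norm_sub_le _ _
      _ ≤ 1 / 20 + 1 / 5 := add_le_add h h1
      _ < 1 := by norm_num

/-- close projections have the same trace -/
theorem trace_eq_of_near (S : NonUnitalStarSubalgebra ℂ A) (h1 : (1 : A) ∈ S)
    (T : A →L[ℂ] ℂ) (hT : ∀ x ∈ S, ∀ y ∈ S, T (x * y) = T (y * x)) {p q : A}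
    (hp : IsStarProjection p) (hq : IsStarProjection q) (hpS : p ∈ S) (hqS : q ∈ S)
    (h : ‖p - q‖ < 1) : T p = T q := by
  have hpp : p * p = p := hp.isIdempotentElem
  have hqq : q * q = q := hq.isIdempotentElem
  set a : A := p - q with ha
  set c : A := 1 - p - q with hc
  have haS : a ∈ S := sub_mem hpS hqS
  have hcS : c ∈ S := sub_mem (sub_mem h1 hpS) hqS
  have hac : c * a = -(a * c) := by
    rw [ha, hc]
    have e1 : (1 - p - q) * (p - q) = p - q - p * p + p * q - q * p + q * q := by noncomm_ring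
    have e2 : (p - q) * (1 - p - q) = p - p * p - p * q - q + q * p + q * q := by noncomm_ring
    rw [e1, e2, hpp, hqq]
    abel
  have hcc : c * c = 1 - a * a := by
    rw [ha, hc]
    have e1 : (1 - p - q) * (1 - p - q) = 1 - p - p - q - q + p * p + p * q + q * p + q * q := by
      noncomm_ring
    have e2 : (p - q) * (p - q) = p * p - p * q - q * p + q * q := by noncomm_ring
    rw [e1, e2, hpp, hqq]
    abel
  have hcaa : c * (a * a) = (a * a) * c := by
    rw [← mul_assoc, hac, neg_mul, mul_assoc, hac, mul_neg, neg_neg, mul_assoc]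
  have hpow : ∀ k : ℕ, c * (a * (a * a) ^ k) = -(a * (a * a) ^ k * c) := by
    intro k
    induction k with
    | zero => simpa using hac
    | succ k ih =>
      rw [pow_succ, ← mul_assoc a, ← mul_assoc c, ih, neg_mul, mul_assoc (a * (a * a) ^ k) c, hcaa]
      simp [mul_assoc]
  have hmem : ∀ k : ℕ, a * (a * a) ^ k ∈ S := by
    intro k
    induction k with
    | zero => simpa using haS
    | succ k ih =>
      rw [pow_succ, ← mul_assoc]
      exact mul_mem ih (mul_mem haS haS)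
  have hstep : ∀ k : ℕ, T (a * (a * a) ^ k) = T (a * (a * a) ^ (k + 1)) := by
    intro k
    have e1 : a * (a * a) ^ k * c * c = a * (a * a) ^ k - a * (a * a) ^ (k + 1) := by
      rw [mul_assoc _ c c, hcc, mul_sub, mul_one, pow_succ]
      simp [mul_assoc]
    have e2 : T (a * (a * a) ^ k * c * c) = T (c * (a * (a * a) ^ k * c)) :=
      hT _ (mul_mem (hmem k) hcS) _ hcS
    have e3 : c * (a * (a * a) ^ k * c) = -(a * (a * a) ^ k * c * c) := by
      rw [← mul_assoc, hpow k, neg_mul]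
    rw [e3, map_neg] at e2
    have e4 : T (a * (a * a) ^ k * c * c) = 0 := by
      have : T (a * (a * a) ^ k * c * c) + T (a * (a * a) ^ k * c * c) = 0 := by
        nth_rewrite 1 [e2]
        ring
      have h2 : (2 : ℂ) * T (a * (a * a) ^ k * c * c) = 0 := by rw [two_mul]; exact this
      exact (mul_eq_zero.1 h2).resolve_left two_ne_zero
    rw [e1, map_sub] at e4
    exact sub_eq_zero.1 e4
  have hall : ∀ k : ℕ, T a = T (a * (a * a) ^ k) := by
    intro k
    induction k with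
    | zero => simp
    | succ k ih => rw [ih]; exact hstep k
  have hbound : ∀ k : ℕ, ‖T a‖ ≤ ‖T‖ * (‖a‖ * (‖a‖ * ‖a‖) ^ k) := by
    intro k
    rw [hall k]
    refine (T.le_opNorm _).trans ?_
    refine mul_le_mul_of_nonneg_left ?_ (norm_nonneg _)
    refine (norm_mul_le _ _).trans ?_
    refine mul_le_mul_of_nonneg_left ?_ (norm_nonneg _)
    rcases Nat.eq_zero_or_pos k with hk | hk
    · subst hk
      simp only [pow_zero]
      exact (IsStarProjection.one A).norm_le
    · refine (norm_pow_le' _ hk).trans ?_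
      exact pow_le_pow_left₀ (norm_nonneg _) (norm_mul_le _ _) _
  have hlim : Filter.Tendsto (fun k : ℕ => ‖T‖ * (‖a‖ * (‖a‖ * ‖a‖) ^ k)) Filter.atTop
      (nhds (‖T‖ * (‖a‖ * 0))) := by
    refine Filter.Tendsto.const_mul _ (Filter.Tendsto.const_mul _ ?_)
    refine tendsto_pow_atTop_nhds_zero_of_lt_one (by positivity) ?_
    calc ‖a‖ * ‖a‖ ≤ ‖a‖ * 1 := mul_le_mul_of_nonneg_left h.le (norm_nonneg _)
      _ < 1 := by rw [mul_one]; exact h
  have hz : ‖T a‖ ≤ 0 := by
    have := ge_of_tendsto' hlim hbound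
    simpa using this
  have : T a = 0 := norm_le_zero_iff.1 hz
  rw [ha, map_sub] at this
  exact sub_eq_zero.1 this

end Pool.Agent.Lib.MP_5f80dd_lc
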