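import Mathlib

set_option autoImplicit false

namespace Pool.Agent.Lib.MP_5f80dd_lc

open scoped InnerProductSpace

universe u v

/-- positivity: finite sums of squares -/
def Ps {R : Type u} [NonUnitalRing R] [StarRing R] (x : R) : Prop :=
  ∃ (n : ℕ) (s : Fin n → R), x = ∑ i, star (s i) * s i

/-- complete positivity -/
def Cp {A : Type u} {B : Type v} [NonUnitalRing A] [StarRing A] [Module ℂ A]
    [NonUnitalRing B] [StarRing B] [Module ℂ B] (φ : A →ₗ[ℂ] B) : Prop :=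
  ∀ (k : ℕ) (x : Matrix (Fin k) (Fin k) A), Ps x → Ps (x.map φ)

section general

variable {R : Type u} [NonUnitalRing R] [StarRing R]

theorem Ps.zero : Ps (0 : R) := ⟨0, Fin.elim0, by simp⟩

theorem Ps.add {x y : R} (hx : Ps x) (hy : Ps y) : Ps (x + y) := by
  obtain ⟨n, s, rfl⟩ := hx
  obtain ⟨m, t, rfl⟩ := hy
  exact ⟨n + m, Fin.append s t, by rw [Fin.sum_univ_add]; simp⟩

theorem Ps.sum {ι : Type*} (t : Finset ι) (f : ι → R) (h : ∀ i ∈ t, Ps (f i)) :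
    Ps (∑ i ∈ t, f i) := by
  classical
  induction t using Finset.induction_on with
  | empty => rw [Finset.sum_empty]; exact Ps.zero
  | insert i t hi ih =>
    rw [Finset.sum_insert hi]
    exact (h i (Finset.mem_insert_self _ _)).add (ih fun j hj => h j (Finset.mem_insert_of_mem hj))

theorem Ps.sq (s : R) : Ps (star s * s) := ⟨1, fun _ => s, by simp⟩

/-- the matrix of a row is positive -/
theorem Ps.row {k : ℕ} (l : Fin k) (a : Fin k → R) :
    Ps (Matrix.of (fun i j => star (a i) * a j) : Matrix (Fin k) (Fin k) R) := by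
  have : (Matrix.of (fun i j => star (a i) * a j) : Matrix (Fin k) (Fin k) R) =
      star (Matrix.of (fun r j => if r = l then a j else 0) : Matrix (Fin k) (Fin k) R) *
        (Matrix.of (fun r j => if r = l then a j else 0) : Matrix (Fin k) (Fin k) R) := by
    ext i j
    rw [Matrix.mul_apply, Finset.sum_eq_single l]
    · simp [Matrix.star_apply]
    · intro r _ hr
      simp [hr]
    · intro h
      exact absurd (Finset.mem_univ l) h
  rw [this]
  exact Ps.sq _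

/-- complete positivity from rows -/
theorem cp_of_rows {A : Type v} [NonUnitalRing A] [StarRing A] [Module ℂ A] [Module ℂ R]
    (φ : A →ₗ[ℂ] R)
    (h : ∀ (k : ℕ) (l : Fin k) (a : Fin k → A),
      Ps (Matrix.of (fun i j => φ (star (a i) * a j)) : Matrix (Fin k) (Fin k) R)) : Cp φ := by
  rintro k x ⟨n, s, rfl⟩
  have e : (∑ r, star (s r) * s r).map φ = ∑ r, ∑ l,
      (Matrix.of (fun i j => φ (star (s r l i) * s r l j)) : Matrix (Fin k) (Fin k) R) := by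
    ext i j
    simp only [Matrix.map_apply, Matrix.sum_apply, Matrix.mul_apply, Matrix.star_apply, map_sum,
      Matrix.of_apply]
  rw [e]
  exact Ps.sum _ _ fun r _ => Ps.sum _ _ fun l _ => h k l (s r l)

end general

section compress

variable {K H : Type*} [NormedAddCommGroup K] [InnerProductSpace ℂ K] [CompleteSpace K]
  [NormedAddCommGroup H] [InnerProductSpace ℂ H] [CompleteSpace H]

/-- compression to a smaller space -/
noncomputable def cmp (A : NonUnitalStarSubalgebra ℂ (H →L[ℂ] H)) (V : K →L[ℂ] H) :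
    A →ₗ[ℂ] (K →L[ℂ] K) where
  toFun := fun a => (ContinuousLinearMap.adjoint V) ∘L (a : H →L[ℂ] H) ∘L V
  map_add' := fun a b => by
    ext x
    simp
  map_smul' := fun c a => by
    ext x
    simp

theorem norm_cmp_le (A : NonUnitalStarSubalgebra ℂ (H →L[ℂ] H)) {V : K →L[ℂ] H} (hV : ‖V‖ ≤ 1)
    (a : A) : ‖cmp A V a‖ ≤ ‖a‖ := by
  have h1 : ‖ContinuousLinearMap.adjoint V‖ ≤ 1 := by
    rw [LinearIsometryEquiv.norm_map]
    exact hV
  have h2 : ‖(a : H →L[ℂ] H) ∘L V‖ ≤ ‖(a : H →L[ℂ] H)‖ * ‖V‖ :=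
    ContinuousLinearMap.opNorm_comp_le _ _
  have h3 : ‖(ContinuousLinearMap.adjoint V) ∘L ((a : H →L[ℂ] H) ∘L V)‖ ≤
      ‖ContinuousLinearMap.adjoint V‖ * ‖(a : H →L[ℂ] H) ∘L V‖ :=
    ContinuousLinearMap.opNorm_comp_le _ _
  have h4 : 0 ≤ ‖(a : H →L[ℂ] H)‖ := norm_nonneg _
  have h5 : ‖(a : H →L[ℂ] H) ∘L V‖ ≤ ‖(a : H →L[ℂ] H)‖ :=
    h2.trans (mul_le_of_le_one_right h4 hV)
  calc ‖cmp A V a‖ = ‖(ContinuousLinearMap.adjoint V) ∘L ((a : H →L[ℂ] H) ∘L V)‖ := rfl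
    _ ≤ ‖ContinuousLinearMap.adjoint V‖ * ‖(a : H →L[ℂ] H) ∘L V‖ := h3
    _ ≤ 1 * ‖(a : H →L[ℂ] H)‖ := mul_le_mul h1 h5 (norm_nonneg _) zero_le_one
    _ = ‖a‖ := by rw [one_mul]; rfl

theorem cp_cmp (A : NonUnitalStarSubalgebra ℂ (H →L[ℂ] H)) [FiniteDimensional ℂ K]
    (V : K →L[ℂ] H) {u₀ : K} (hu : ‖u₀‖ = 1) : Cp (cmp A V) := by
  refine cp_of_rows _ fun k l a => ?_
  let W : Submodule ℂ H := ⨆ j : Fin k, LinearMap.range (((a j : H →L[ℂ] H) ∘L V : K →L[ℂ] H) :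
    K →ₗ[ℂ] H)
  have hW : ∀ j x, (a j : H →L[ℂ] H) (V x) ∈ W := fun j x =>
    (le_iSup (fun j : Fin k => LinearMap.range (((a j : H →L[ℂ] H) ∘L V : K →L[ℂ] H) :
      K →ₗ[ℂ] H)) j) ⟨x, rfl⟩
  let f := stdOrthonormalBasis ℂ W
  let y : Fin (Module.finrank ℂ W) → Fin k → (K →L[ℂ] K) := fun s j =>
    (innerSL ℂ (f s : H) ∘L (a j : H →L[ℂ] H) ∘L V).smulRight u₀
  have hy : ∀ s j x, y s j x = ⟪(f s : H), (a j : H →L[ℂ] H) (V x)⟫_ℂ • u₀ := fun s j x => rfl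
  have e : (Matrix.of (fun i j => cmp A V (star (a i) * a j)) :
      Matrix (Fin k) (Fin k) (K →L[ℂ] K)) =
      ∑ s, (Matrix.of (fun i j => star (y s i) * y s j) : Matrix (Fin k) (Fin k) (K →L[ℂ] K)) := by
    ext1 i j
    rw [Matrix.sum_apply]
    simp only [Matrix.of_apply]
    refine ContinuousLinearMap.ext fun x => ?_
    refine ext_inner_left ℂ fun z => ?_
    have h1 : ⟪z, cmp A V (star (a i) * a j) x⟫_ℂ =
        ⟪(a i : H →L[ℂ] H) (V z), (a j : H →L[ℂ] H) (V x)⟫_ℂ := by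
      show ⟪z, (ContinuousLinearMap.adjoint V) ((ContinuousLinearMap.adjoint (a i : H →L[ℂ] H))
        ((a j : H →L[ℂ] H) (V x)))⟫_ℂ = _
      rw [ContinuousLinearMap.adjoint_inner_right, ContinuousLinearMap.adjoint_inner_right]
    have h2 : ∀ s, ⟪z, (star (y s i) * y s j) x⟫_ℂ =
        ⟪(a i : H →L[ℂ] H) (V z), (f s : H)⟫_ℂ * ⟪(f s : H), (a j : H →L[ℂ] H) (V x)⟫_ℂ := by
      intro s
      show ⟪z, (ContinuousLinearMap.adjoint (y s i)) (y s j x)⟫_ℂ = _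
      rw [ContinuousLinearMap.adjoint_inner_right, hy, hy, inner_smul_left, inner_smul_right,
        inner_self_eq_norm_sq_to_K, hu, inner_conj_symm]
      simp
    have h3 : (∑ s, star (y s i) * y s j) x = ∑ s, (star (y s i) * y s j) x :=
      ContinuousLinearMap.sum_apply _ _ _
    rw [h1, h3, inner_sum, Finset.sum_congr rfl fun s _ => h2 s]
    have h4 := f.sum_inner_mul_inner (⟨_, hW i z⟩ : W) (⟨_, hW j x⟩ : W)
    exact h4.symm
  rw [e]
  exact Ps.sum _ _ fun s _ => Ps.row l (y s)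

end compress

section pinch

variable {H : Type*} [NormedAddCommGroup H] [InnerProductSpace ℂ H] [CompleteSpace H]

theorem norm_sq_sum_proj {κ : Type*} (S : Finset κ) (Q : κ → (H →L[ℂ] H))
    (hQ : ∀ s ∈ S, IsStarProjection (Q s)) (hQQ : ∀ s ∈ S, ∀ t ∈ S, s ≠ t → Q s * Q t = 0)
    (y : κ → H) : ‖∑ s ∈ S, Q s (y s)‖ ^ 2 = ∑ s ∈ S, ‖Q s (y s)‖ ^ 2 := by
  classical
  induction S using Finset.induction_on with
  | empty => simp
  | insert t S ht ih =>
    rw [Finset.sum_insert ht, Finset.sum_insert ht,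
      ← ih (fun s hs => hQ s (Finset.mem_insert_of_mem hs))
        (fun s hs s' hs' => hQQ s (Finset.mem_insert_of_mem hs) s' (Finset.mem_insert_of_mem hs'))]
    have h0 : ⟪Q t (y t), ∑ s ∈ S, Q s (y s)⟫_ℂ = 0 := by
      rw [inner_sum]
      refine Finset.sum_eq_zero fun s hs => ?_
      have h1 : star (Q t) = Q t := (hQ t (Finset.mem_insert_self _ _)).isSelfAdjoint
      have h2 : Q t * Q s = 0 := hQQ t (Finset.mem_insert_self _ _) s
        (Finset.mem_insert_of_mem hs) (fun h => ht (h ▸ hs))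
      have h3 : ⟪Q t (y t), Q s (y s)⟫_ℂ = ⟪y t, (ContinuousLinearMap.adjoint (Q t)) (Q s (y s))⟫_ℂ := by
        rw [ContinuousLinearMap.adjoint_inner_right]
      rw [h3]
      have h4 : ContinuousLinearMap.adjoint (Q t) = Q t := h1
      rw [h4]
      have h5 : Q t (Q s (y s)) = (Q t * Q s) (y s) := rfl
      rw [h5, h2]
      simp
    have := norm_add_sq_eq_norm_sq_add_norm_sq_of_inner_eq_zero (Q t (y t))
      (∑ s ∈ S, Q s (y s)) h0
    rw [sq, sq, sq]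
    exact this

theorem norm_pinch_le {κ : Type*} (S : Finset κ) (Q : κ → (H →L[ℂ] H))
    (hQ : ∀ s ∈ S, IsStarProjection (Q s)) (hQQ : ∀ s ∈ S, ∀ t ∈ S, s ≠ t → Q s * Q t = 0)
    (h1 : ∑ s ∈ S, Q s = 1) (T : H →L[ℂ] H) : ‖∑ s ∈ S, Q s * T * Q s‖ ≤ ‖T‖ := by
  refine ContinuousLinearMap.opNorm_le_bound _ (norm_nonneg _) fun x => ?_
  refine le_of_sq_le_sq ?_ (mul_nonneg (norm_nonneg _) (norm_nonneg _))
  have e1 : (∑ s ∈ S, Q s * T * Q s) x = ∑ s ∈ S, Q s (T (Q s x)) := by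
    rw [ContinuousLinearMap.sum_apply]
    rfl
  have e2 : ‖x‖ ^ 2 = ∑ s ∈ S, ‖Q s x‖ ^ 2 := by
    rw [← norm_sq_sum_proj S Q hQ hQQ (fun _ => x)]
    have : ∑ s ∈ S, Q s x = (∑ s ∈ S, Q s) x := by rw [ContinuousLinearMap.sum_apply]
    rw [this, h1]
    rfl
  rw [e1, norm_sq_sum_proj S Q hQ hQQ (fun s => T (Q s x)), mul_pow, e2, Finset.mul_sum]
  refine Finset.sum_le_sum fun s hs => ?_
  have hn : ‖Q s‖ ≤ 1 := (hQ s hs).norm_le
  have h3 : ‖Q s (T (Q s x))‖ ≤ ‖T‖ * ‖Q s x‖ := by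
    refine (ContinuousLinearMap.le_opNorm _ _).trans ?_
    refine (mul_le_of_le_one_left (norm_nonneg _) hn).trans ?_
    exact ContinuousLinearMap.le_opNorm _ _
  calc ‖Q s (T (Q s x))‖ ^ 2 ≤ (‖T‖ * ‖Q s x‖) ^ 2 := by gcongr
    _ = ‖T‖ ^ 2 * ‖Q s x‖ ^ 2 := by ring

end pinch

end Pool.Agent.Lib.MP_5f80dd_lc
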