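import Pool.Agent.Lib.MP_5f80dd_lc.Emb
import Pool.Agent.Lib.MP_5f80dd_lc.Integ

set_option autoImplicit false

namespace Pool.Agent.Lib.MP_5f80dd_lc

open scoped InnerProductSpace ENNReal

namespace PT

variable {J G : Type} {D : PT J G} [DecidableEq J]
variable {H : Type*} [NormedAddCommGroup H] [InnerProductSpace ℂ H] (b : HilbertBasis D.Om ℂ H)

/-- twins: every finite set of sites of `X` has a disjoint copy in `X` with the same signs -/
def Twins (D : PT J G) (X : Set J) : Prop :=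
  ∀ F : Finset J, (F : Set J) ⊆ X → ∃ τ : J → J, Set.InjOn τ F ∧ ∀ j ∈ F, τ j ∈ X ∧ τ j ∉ F ∧
    ∀ z, D.c (τ j) z = D.c j z

omit [DecidableEq J] in
theorem ls_pos {j : J} {m : ℕ} (h : m < D.a j) (z : G) : D.ls j m z = 1 := if_pos h

omit [DecidableEq J] in
theorem ls_neg {j : J} {m : ℕ} (h : ¬ m < D.a j) (z : G) : D.ls j m z = D.c j z := if_neg h

omit [DecidableEq J] in
theorem c_mul_c (j : J) (z : G) : D.c j z * D.c j z = 1 := by
  rcases D.hc j z with h | h <;> rw [h] <;> norm_num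

/-- the compensating configuration -/
theorem exists_comp (F : Finset J) (τ : J → J) (hτ : Set.InjOn τ F)
    (hτF : ∀ j ∈ F, τ j ∉ F) (hτc : ∀ j ∈ F, ∀ z, D.c (τ j) z = D.c j z) (v u : D.Om) :
    ∃ w : D.Om, agr F w v ∧ chEq (F ∪ F.image τ) u w := by
  classical
  let nt : J → D.Om → Bool := fun j x => decide (¬ D.va x j < D.a j)
  let bit : J → Bool := fun i => xor (nt i v) (xor (nt (τ i) u) (nt i u))
  have hnt : ∀ (j : J) (x : D.Om) (z : G), D.ls j (D.va x j) z =
      if nt j x = true then D.c j z else 1 := by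
    intro j x z
    show _ = if decide (¬ D.va x j < D.a j) = true then D.c j z else 1
    by_cases h : D.va x j < D.a j
    · rw [ls_pos h]
      simp [h]
    · rw [ls_neg h]
      simp [h]
  let f : J → ℕ := fun j => if j ∈ F then D.va v j else
    if ∃ i ∈ F, τ i = j ∧ bit i then D.a j else 0
  have hfd : ∀ j, f j < D.d j := by
    intro j
    show (if j ∈ F then D.va v j else if ∃ i ∈ F, τ i = j ∧ bit i then D.a j else 0) < D.d j
    split_ifs
    · exact va_lt v j
    · have := D.hb j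
      unfold d
      omega
    · exact D.d_pos j
  let w : D.Om := ⟨Finsupp.onFinset (F ∪ F.image τ) f (by
    intro j hj
    by_contra hcon
    rw [Finset.mem_union, not_or] at hcon
    apply hj
    show (if j ∈ F then D.va v j else if ∃ i ∈ F, τ i = j ∧ bit i then D.a j else 0) = 0
    rw [if_neg hcon.1, if_neg]
    rintro ⟨i, hi, hij, _⟩
    exact hcon.2 (Finset.mem_image.2 ⟨i, hi, hij⟩)), hfd⟩
  have hw : ∀ j, D.va w j = f j := fun j => rfl
  refine ⟨w, fun j hj => by rw [hw]; exact if_pos hj, fun z => ?_⟩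
  have hdisj : Disjoint F (F.image τ) := by
    rw [Finset.disjoint_left]
    intro j hj hj'
    obtain ⟨i, hi, rfl⟩ := Finset.mem_image.1 hj'
    exact hτF i hi hj
  unfold ch
  rw [Finset.prod_union hdisj, Finset.prod_union hdisj, Finset.prod_image hτ,
    Finset.prod_image hτ, ← Finset.prod_mul_distrib, ← Finset.prod_mul_distrib]
  refine Finset.prod_congr rfl fun i hi => ?_
  have h1 : D.va w i = D.va v i := by rw [hw]; exact if_pos hi
  have h2 : D.va w (τ i) = if bit i then D.a (τ i) else 0 := by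
    rw [hw]
    show (if τ i ∈ F then D.va v (τ i) else
      if ∃ k ∈ F, τ k = τ i ∧ bit k then D.a (τ i) else 0) = _
    rw [if_neg (hτF i hi)]
    have : (∃ k ∈ F, τ k = τ i ∧ bit k) ↔ bit i := by
      constructor
      · rintro ⟨k, hk, hki, hb⟩
        rwa [hτ hk hi hki] at hb
      · intro hb
        exact ⟨i, hi, rfl, hb⟩
    simp only [this]
  have ha : 0 < D.a (τ i) := by
    have := D.hab (τ i)
    omega
  have h3 : D.ls (τ i) (D.va w (τ i)) z = if bit i = true then D.c (τ i) z else 1 := by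
    rw [h2]
    by_cases hb : bit i = true
    · rw [if_pos hb, if_pos hb, ls_neg (lt_irrefl _)]
    · rw [if_neg hb, if_neg hb, ls_pos ha]
  rw [h3, h1, hnt, hnt, hnt, hτc i hi]
  show (if nt i u = true then D.c i z else 1) * (if nt (τ i) u = true then D.c i z else 1) =
    (if nt i v = true then D.c i z else 1) *
      (if xor (nt i v) (xor (nt (τ i) u) (nt i u)) = true then D.c i z else 1)
  generalize nt i u = x1
  generalize nt (τ i) u = x2
  generalize nt i v = x3
  rcases D.hc i z with h | h <;> rw [h] <;> cases x1 <;> cases x2 <;> cases x3 <;> simp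

theorem hb_op_ne_zero {X : H →L[ℂ] H} (hX : X ≠ 0) : ∃ ω : D.Om, X (b ω) ≠ 0 := by
  by_contra hcon
  push Not at hcon
  apply hX
  have h1 : Submodule.span ℂ (Set.range b) ≤ LinearMap.ker (X : H →ₗ[ℂ] H) := by
    rw [Submodule.span_le]
    rintro _ ⟨i, rfl⟩
    exact hcon i
  have h2 : (Submodule.span ℂ (Set.range b)).topologicalClosure ≤
      LinearMap.ker (X : H →ₗ[ℂ] H) :=
    Submodule.topologicalClosure_minimal _ h1 (ContinuousLinearMap.isClosed_ker X)
  rw [b.dense_span] at h2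
  ext ξ
  exact h2 (Submodule.mem_top (x := ξ))

theorem sum_E_diag (F : Finset J) : ∑ u ∈ conf F, E b F u u = (1 : H →L[ℂ] H) := by
  apply op_ext b
  intro ξ ω
  rw [sum_apply_repr, Finset.sum_eq_single (res F ω)]
  · rw [repr_E_pos b (agr_res F ω).symm, upd_self (agr_res F ω).symm]
    rfl
  · intro u hu hne
    rw [repr_E_neg b]
    intro h
    exact hne (conf_ext hu (res_mem_conf F ω) (h.symm.trans (agr_res F ω).symm))
  · intro h
    exact absurd (res_mem_conf F ω) h

theorem E_diag_mul {F F' : Finset J} (hF : F ⊆ F') {w v : D.Om} (h : agr F w v) :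
    E b F' w w * E b F v v = E b F' w w := by
  apply op_ext b
  intro ξ ω
  have e : (E b F' w w * E b F v v) ξ = E b F' w w (E b F v v ξ) := rfl
  rw [e]
  by_cases h1 : agr F' ω w
  · have h2 : agr F ω v := fun j hj => (h1 j (hF hj)).trans (h j hj)
    rw [repr_E_pos b h1, repr_E_pos b h1, upd_self h1, repr_E_pos b h2, upd_self h2]
  · rw [repr_E_neg b h1, repr_E_neg b h1]

variable [CompleteSpace H]

theorem corner_St {F : Finset J} {X : H →L[ℂ] H} (hX : X ∈ St b F) (ω : D.Om) :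
    E b F ω ω * X * E b F ω ω = en b ω ω X • E b F ω ω := by
  classical
  let f : (H →L[ℂ] H) →ₗ[ℂ] (H →L[ℂ] H) :=
    { toFun := fun X => E b F ω ω * X * E b F ω ω - en b ω ω X • E b F ω ω
      map_add' := fun X Y => by
        rw [map_add, add_smul, mul_add, add_mul]
        abel
      map_smul' := fun c X => by
        rw [map_smul, RingHom.id_apply, smul_sub, smul_assoc, mul_smul_comm, smul_mul_assoc] }
  have hf : ∀ X, f X = E b F ω ω * X * E b F ω ω - en b ω ω X • E b F ω ω := fun X => rfl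
  have := St_le_of b (LinearMap.ker f) (fun v w _ => ?_) hX
  · have h1 : f X = 0 := this
    rw [hf] at h1
    exact sub_eq_zero.1 h1
  · show f (E b F v w) = 0
    rw [hf, sub_eq_zero, en_E]
    by_cases h1 : agr F ω v
    · by_cases h2 : agr F w ω
      · rw [E_mul_pos b h1, E_mul_pos b h2, if_pos ⟨h1, upd_self h2.symm⟩, one_smul]
      · rw [E_mul_pos b h1, E_mul_neg b h2, if_neg, zero_smul]
        rintro ⟨_, h3⟩
        apply h2
        rw [← h3]
        exact (agr_upd F ω w).symm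
    · rw [E_mul_neg b h1, zero_mul, if_neg, zero_smul]
      rintro ⟨h3, _⟩
      exact h1 h3

theorem norm_E_diag_le (F : Finset J) (ω : D.Om) : ‖E b F ω ω‖ ≤ 1 := by
  have : IsStarProjection (E b F ω ω) := ⟨E_mul_pos b (agr.refl F ω) ω ω, star_E b F ω ω⟩
  exact this.norm_le

theorem norm_en_le (ω : D.Om) (X : H →L[ℂ] H) : ‖en b ω ω X‖ ≤ ‖X‖ := by
  have h : en b ω ω X = ⟪b ω, X (b ω)⟫_ℂ := rfl
  rw [h]
  have hn : ‖b ω‖ = 1 := b.orthonormal.1 ω
  calc ‖⟪b ω, X (b ω)⟫_ℂ‖ ≤ ‖b ω‖ * ‖X (b ω)‖ := norm_inner_le_norm _ _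
    _ = ‖X (b ω)‖ := by rw [hn, one_mul]
    _ ≤ ‖X‖ * ‖b ω‖ := X.le_opNorm _
    _ = ‖X‖ := by rw [hn, mul_one]

/-- the core of simplicity -/
theorem one_mem_of_ideal {X : Set J} (hX : Twins D X) (I : Set (H →L[ℂ] H))
    (hIB : I ⊆ BB b X) (hz : (0 : H →L[ℂ] H) ∈ I) (hadd : ∀ x ∈ I, ∀ y ∈ I, x + y ∈ I)
    (hl : ∀ a ∈ BB b X, ∀ x ∈ I, a * x ∈ I) (hr : ∀ a ∈ BB b X, ∀ x ∈ I, x * a ∈ I)
    {x : H →L[ℂ] H} (hx : x ∈ I) (hx0 : x ≠ 0) : (1 : H →L[ℂ] H) ∈ I := by
  obtain ⟨ω, hω⟩ := hb_op_ne_zero b hx0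
  have hxB := hIB hx
  set y : H →L[ℂ] H := star x * x with hy
  have hyI : y ∈ I := hl _ (star_mem hxB) x hx
  have hyB := hIB hyI
  set lam : ℝ := ‖x (b ω)‖ ^ 2 with hlam
  have hlam0 : 0 < lam := by positivity
  have heny : en b ω ω y = (lam : ℂ) := by
    have h : en b ω ω y = ⟪b ω, star x (x (b ω))⟫_ℂ := rfl
    rw [h, ContinuousLinearMap.star_eq_adjoint, ContinuousLinearMap.adjoint_inner_right,
      inner_self_eq_norm_sq_to_K]
    rw [hlam]
    norm_cast
  -- approximation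
  have hycl : y ∈ closure (algX b X : Set (H →L[ℂ] H)) := hyB
  obtain ⟨y', hy', hyy'⟩ := Metric.mem_closure_iff.1 hycl (lam / 4) (by positivity)
  rw [dist_eq_norm] at hyy'
  obtain ⟨F, hF, hy'F⟩ := (mem_algX b).1 hy'
  set e : H →L[ℂ] H := E b F ω ω with he
  have heB : e ∈ BB b X := E_mem_BB b hF (fun _ => rfl)
  have hee : e * e = e := E_mul_pos b (agr.refl F ω) ω ω
  have hne : ‖e‖ ≤ 1 := norm_E_diag_le b F ω
  have hcor : e * y' * e = en b ω ω y' • e := corner_St b hy'F ω
  have hmu : ‖en b ω ω y' - (lam : ℂ)‖ ≤ lam / 4 := by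
    rw [← heny, ← map_sub]
    refine (norm_en_le b ω _).trans ?_
    rw [norm_sub_rev]
    exact hyy'.le
  have hclose : ‖e * y * e - (lam : ℂ) • e‖ ≤ lam / 2 := by
    have e1 : e * y * e - (lam : ℂ) • e = e * (y - y') * e + (en b ω ω y' - (lam : ℂ)) • e := by
      rw [mul_sub, sub_mul, hcor, sub_smul]
      abel
    rw [e1]
    have b1 : ‖e * (y - y') * e‖ ≤ 1 * (lam / 4) * 1 :=
      (norm_mul_le _ _).trans (mul_le_mul ((norm_mul_le _ _).trans
        (mul_le_mul hne hyy'.le (norm_nonneg _) (by norm_num))) hne (norm_nonneg _) (by positivity))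
    have b2 : ‖(en b ω ω y' - (lam : ℂ)) • e‖ ≤ lam / 4 * 1 := by
      rw [norm_smul]
      exact mul_le_mul hmu hne (norm_nonneg _) (by positivity)
    refine (norm_add_le _ _).trans ?_
    linarith
  set r : H →L[ℂ] H := e - (lam : ℂ)⁻¹ • (e * y * e) with hr'
  have hlamC : (lam : ℂ) ≠ 0 := by exact_mod_cast hlam0.ne'
  have hrn : ‖r‖ < 1 := by
    have e1 : r = (-(lam : ℂ)⁻¹) • (e * y * e - (lam : ℂ) • e) := by
      rw [hr', smul_sub, smul_smul, neg_mul, inv_mul_cancel₀ hlamC, neg_smul, neg_smul, one_smul]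
      abel
    rw [e1, norm_smul, norm_neg, norm_inv, Complex.norm_real, Real.norm_of_nonneg hlam0.le]
    calc lam⁻¹ * ‖e * y * e - (lam : ℂ) • e‖ ≤ lam⁻¹ * (lam / 2) :=
          mul_le_mul_of_nonneg_left hclose (by positivity)
      _ = 1 / 2 := by field_simp
      _ < 1 := by norm_num
  have her : e * r = r := by
    rw [hr', mul_sub, hee, mul_smul_comm, ← mul_assoc, ← mul_assoc, hee]
  have hrB : r ∈ BB b X :=
    sub_mem heB (SMulMemClass.smul_mem _ (mul_mem (mul_mem heB hyB) heB))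
  set t : H →L[ℂ] H := ∑' n : ℕ, r ^ n with ht
  have hts : (1 - r) * t = 1 := mul_neg_geom_series r hrn
  have htB : t ∈ BB b X := by
    have hsum : Summable fun n : ℕ => r ^ n := summable_geometric_of_norm_lt_one hrn
    refine (isClosed_BB b X).mem_of_tendsto hsum.hasSum.tendsto_sum_nat
      (Filter.Eventually.of_forall fun n => ?_)
    have hpow : ∀ i : ℕ, r ^ i ∈ BB b X := by
      intro i
      induction i with
      | zero => rw [pow_zero]; exact one_mem_BB b X
      | succ i ih => rw [pow_succ]; exact mul_mem ih hrB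
    exact sum_mem fun i _ => hpow i
  have heI : e ∈ I := by
    have h1 : e = ((lam : ℂ)⁻¹ • e) * y * (e * t) := by
      calc e = e * ((1 - r) * t) := by rw [hts, mul_one]
        _ = (e - r) * t := by rw [← mul_assoc, mul_sub, mul_one, her]
        _ = ((lam : ℂ)⁻¹ • (e * y * e)) * t := by
            rw [hr']
            congr 1
            abel
        _ = ((lam : ℂ)⁻¹ • e) * y * (e * t) := by
            rw [smul_mul_assoc, smul_mul_assoc, smul_mul_assoc]
            simp [mul_assoc]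
    rw [h1]
    exact hr _ (mul_mem heB htB) _ (hl _ (SMulMemClass.smul_mem _ heB) y hyI)
  -- spread out
  obtain ⟨τ, hτ, hτ2⟩ := hX F hF
  set F' : Finset J := F ∪ F.image τ with hF'
  have hF'X : (F' : Set J) ⊆ X := by
    intro j hj
    rcases Finset.mem_union.1 (Finset.mem_coe.1 hj) with h | h
    · exact hF h
    · obtain ⟨i, hi, rfl⟩ := Finset.mem_image.1 h
      exact (hτ2 i hi).1
  rw [← sum_E_diag b F']
  have hsumI : ∀ K : Finset D.Om, ∑ u ∈ K, E b F' u u ∈ I := by
    intro K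
    classical
    induction K using Finset.induction_on with
    | empty => rw [Finset.sum_empty]; exact hz
    | insert u K hu ih =>
      rw [Finset.sum_insert hu]
      refine hadd _ ?_ _ ih
      obtain ⟨w, hw1, hw2⟩ := exists_comp F τ hτ (fun j hj => (hτ2 j hj).2.1)
        (fun j hj => (hτ2 j hj).2.2) ω u
      have e1 : E b F' u u = E b F' u w * (E b F' w w * e) * E b F' w u := by
        rw [he, E_diag_mul b Finset.subset_union_left hw1, E_mul_pos b (agr.refl _ w),
          E_mul_pos b (agr.refl _ w)]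
      rw [e1]
      have m1 : E b F' u w ∈ BB b X := E_mem_BB b hF'X hw2
      have m2 : E b F' w u ∈ BB b X := E_mem_BB b hF'X (fun z => (hw2 z).symm)
      have m3 : E b F' w w ∈ BB b X := E_mem_BB b hF'X (fun _ => rfl)
      exact hr _ m2 _ (hl _ m1 _ (hl _ m3 e heI))
  exact hsumI _

/-- the algebras are simple -/
theorem isSimpleRing_BB {X : Set J} (hX : Twins D X) [Nontrivial H] : IsSimpleRing (BB b X) := by
  have hnt : Nontrivial (BB b X) := by
    refine ⟨⟨⟨1, one_mem_BB b X⟩, 0, ?_⟩⟩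
    intro h
    have h1 : (1 : H →L[ℂ] H) = 0 := congrArg Subtype.val h
    exact one_ne_zero h1
  refine ⟨⟨fun I => ?_⟩⟩
  by_cases h : ∃ x ∈ I, x ≠ 0
  · right
    obtain ⟨x, hx, hx0⟩ := h
    have h1 : (1 : H →L[ℂ] H) ∈ (fun z : BB b X => (z : H →L[ℂ] H)) '' (I : Set (BB b X)) := by
      refine one_mem_of_ideal b hX _ ?_ ?_ ?_ ?_ ?_ ⟨x, hx, rfl⟩ (fun h0 => hx0 (Subtype.ext h0))
      · rintro _ ⟨z, _, rfl⟩
        exact z.2
      · exact ⟨0, I.zero_mem, rfl⟩
      · rintro _ ⟨z, hz, rfl⟩ _ ⟨z', hz', rfl⟩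
        exact ⟨z + z', I.add_mem hz hz', rfl⟩
      · rintro a ha _ ⟨z, hz, rfl⟩
        exact ⟨⟨a, ha⟩ * z, I.mul_mem_left _ _ hz, rfl⟩
      · rintro a ha _ ⟨z, hz, rfl⟩
        exact ⟨z * ⟨a, ha⟩, I.mul_mem_right _ _ hz, rfl⟩
    obtain ⟨o, ho, ho1⟩ := h1
    rw [eq_top_iff]
    intro z _
    have : z = z * o := by
      apply Subtype.ext
      show (z : H →L[ℂ] H) = z * (o : H →L[ℂ] H)
      rw [show (o : H →L[ℂ] H) = 1 from ho1, mul_one]
    rw [this]
    exact I.mul_mem_left _ _ ho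
  · left
    push Not at h
    rw [eq_bot_iff]
    intro x hx
    rw [h x hx]
    exact (⊥ : TwoSidedIdeal (BB b X)).zero_mem

end PT

end Pool.Agent.Lib.MP_5f80dd_lc
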