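import Pool.Agent.Lib.MP_5f80dd_lc.NucA
import Pool.Agent.Lib.MP_5f80dd_lc.Simp

set_option autoImplicit false

namespace Pool.Agent.Lib.MP_5f80dd_lc

open scoped InnerProductSpace ENNReal

namespace PT

variable {J G : Type} {D : PT J G} [DecidableEq J]
variable {H : Type*} [NormedAddCommGroup H] [InnerProductSpace ℂ H] [CompleteSpace H]
  (b : HilbertBasis D.Om ℂ H)

/-- coordinate space -/
abbrev KK (n : ℕ) : Type := EuclideanSpace ℂ (Fin n)

/-- the standard basis -/
noncomputable def uu (n : ℕ) : OrthonormalBasis (Fin n) ℂ (KK n) :=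
  EuclideanSpace.basisFun (Fin n) ℂ

/-- matrix coefficients -/
noncomputable def co {n : ℕ} (i j : Fin n) (c : KK n →L[ℂ] KK n) : ℂ := ⟪uu n i, c (uu n j)⟫_ℂ

theorem co_add {n : ℕ} (i j : Fin n) (c d : KK n →L[ℂ] KK n) :
    co i j (c + d) = co i j c + co i j d := by
  unfold co
  rw [ContinuousLinearMap.add_apply, inner_add_right]

theorem co_smul {n : ℕ} (i j : Fin n) (m : ℂ) (c : KK n →L[ℂ] KK n) :
    co i j (m • c) = m * co i j c := by
  unfold co
  rw [ContinuousLinearMap.smul_apply, inner_smul_right]

theorem co_zero {n : ℕ} (i j : Fin n) : co i j (0 : KK n →L[ℂ] KK n) = 0 := by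
  unfold co
  simp

theorem co_mul {n : ℕ} (i l : Fin n) (c d : KK n →L[ℂ] KK n) :
    co i l (c * d) = ∑ j, co i j c * co j l d := by
  unfold co
  have h1 : ⟪uu n i, (c * d) (uu n l)⟫_ℂ =
      ⟪(ContinuousLinearMap.adjoint c) (uu n i), d (uu n l)⟫_ℂ := by
    rw [ContinuousLinearMap.adjoint_inner_left]
    rfl
  rw [h1, ← (uu n).sum_inner_mul_inner]
  refine Finset.sum_congr rfl fun j _ => ?_
  rw [ContinuousLinearMap.adjoint_inner_left]

theorem co_star {n : ℕ} (i j : Fin n) (c : KK n →L[ℂ] KK n) :
    co i j (star c) = star (co j i c) := by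
  unfold co
  have h1 : ⟪uu n i, (star c) (uu n j)⟫_ℂ = ⟪c (uu n i), uu n j⟫_ℂ := by
    show ⟪uu n i, (ContinuousLinearMap.adjoint c) (uu n j)⟫_ℂ = _
    rw [ContinuousLinearMap.adjoint_inner_right]
  rw [h1]
  exact (inner_conj_symm _ _).symm

variable {F : Finset J} {n : ℕ} (e : Fin n → D.Om) (he : ∀ i j, agr F (e i) (e j) → i = j)

include he in
omit [CompleteSpace H] in
theorem E_mul_e (i j k l : Fin n) : E b F (e i) (e j) * E b F (e k) (e l) =
    if j = k then E b F (e i) (e l) else 0 := by
  split_ifs with h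
  · subst h
    exact E_mul_pos b (agr.refl F _) _ _
  · exact E_mul_neg b (fun h' => h (he _ _ h')) _ _

/-- the representation of the matrix algebra -/
noncomputable def iot : (KK n →L[ℂ] KK n) →⋆ₙₐ[ℂ] (H →L[ℂ] H) where
  toFun := fun c => ∑ i, ∑ j, co i j c • E b F (e i) (e j)
  map_smul' := fun m c => by
    show ∑ i, ∑ j, co i j (m • c) • E b F (e i) (e j) = m • ∑ i, ∑ j, co i j c • E b F (e i) (e j)
    simp only [co_smul, Finset.smul_sum, mul_smul]
  map_zero' := by simp [co_zero]
  map_add' := fun c d => by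
    simp only [co_add, add_smul, Finset.sum_add_distrib]
  map_mul' := fun c d => by
    rw [Finset.sum_mul]
    refine Finset.sum_congr rfl fun i _ => ?_
    rw [Finset.sum_mul]
    have h1 : ∀ j ∈ (Finset.univ : Finset (Fin n)), co i j c • E b F (e i) (e j) *
        ∑ k, ∑ l, co k l d • E b F (e k) (e l) =
        ∑ l, (co i j c * co j l d) • E b F (e i) (e l) := by
      intro j _
      rw [Finset.mul_sum, Finset.sum_eq_single j]
      · rw [Finset.mul_sum]
        refine Finset.sum_congr rfl fun l _ => ?_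
        rw [smul_mul_smul_comm, E_mul_e b e he, if_pos rfl]
      · intro k _ hk
        rw [Finset.mul_sum]
        refine Finset.sum_eq_zero fun l _ => ?_
        rw [smul_mul_smul_comm, E_mul_e b e he, if_neg (fun h => hk h.symm), smul_zero]
      · intro h
        exact absurd (Finset.mem_univ j) h
    rw [Finset.sum_congr rfl h1, Finset.sum_comm]
    refine Finset.sum_congr rfl fun l _ => ?_
    rw [co_mul, Finset.sum_smul]
  map_star' := fun c => by
    show ∑ i, ∑ j, co i j (star c) • E b F (e i) (e j) =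
      star (∑ i, ∑ j, co i j c • E b F (e i) (e j))
    rw [star_sum, Finset.sum_comm]
    refine Finset.sum_congr rfl fun i _ => ?_
    rw [star_sum]
    refine Finset.sum_congr rfl fun j _ => ?_
    rw [co_star, star_smul, star_E]

theorem iot_apply (c : KK n →L[ℂ] KK n) :
    iot b e he c = ∑ i, ∑ j, co i j c • E b F (e i) (e j) := rfl

theorem norm_iot_le (c : KK n →L[ℂ] KK n) : ‖iot b e he c‖ ≤ ‖c‖ :=
  NonUnitalStarAlgHom.norm_apply_le _ c

/-- representatives of the classes of signs -/
noncomputable def rep (F : Finset J) (v : D.Om) : D.Om :=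
  (Quotient.mk (⟨chEq F, ⟨fun _ _ => rfl, fun h z => (h z).symm, fun h h' z =>
    (h z).trans (h' z)⟩⟩ : Setoid D.Om) v).out

omit [DecidableEq J] in
theorem chEq_rep (F : Finset J) (v : D.Om) : chEq F (rep F v) v :=
  Quotient.exact (s := (⟨chEq F, ⟨fun _ _ => rfl, fun h z => (h z).symm, fun h h' z =>
    (h z).trans (h' z)⟩⟩ : Setoid D.Om)) (Quotient.out_eq _)

omit [DecidableEq J] in
theorem rep_eq_iff (F : Finset J) (v w : D.Om) : rep F v = rep F w ↔ chEq F v w := by
  constructor
  · intro h z
    rw [← chEq_rep F v z, h, chEq_rep F w z]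
  · intro h
    unfold rep
    congr 1
    exact Quotient.sound (s := (⟨chEq F, ⟨fun _ _ => rfl, fun h z => (h z).symm, fun h h' z =>
      (h z).trans (h' z)⟩⟩ : Setoid D.Om)) h

open Classical in
/-- the projection of a class -/
noncomputable def qs (F : Finset J) (e : Fin n → D.Om) (s : D.Om) : H →L[ℂ] H :=
  ∑ i, if rep F (e i) = s then E b F (e i) (e i) else 0

open Classical in
/-- the classes -/
noncomputable def cls (F : Finset J) (e : Fin n → D.Om) : Finset D.Om :=
  Finset.univ.image fun i => rep F (e i)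

open Classical in
include he in
omit [CompleteSpace H] in
theorem qs_mul_E (s : D.Om) (i j : Fin n) : qs b F e s * E b F (e i) (e j) =
    if rep F (e i) = s then E b F (e i) (e j) else 0 := by
  unfold qs
  rw [Finset.sum_mul, Finset.sum_eq_single i]
  · split_ifs
    · rw [E_mul_e b e he, if_pos rfl]
    · rw [zero_mul]
  · intro k _ hk
    split_ifs
    · rw [E_mul_e b e he, if_neg hk]
    · rw [zero_mul]
  · intro h
    exact absurd (Finset.mem_univ i) h

open Classical in
include he in
omit [CompleteSpace H] in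
theorem E_mul_qs (s : D.Om) (i j : Fin n) : E b F (e i) (e j) * qs b F e s =
    if rep F (e j) = s then E b F (e i) (e j) else 0 := by
  unfold qs
  rw [Finset.mul_sum, Finset.sum_eq_single j]
  · split_ifs
    · rw [E_mul_e b e he, if_pos rfl]
    · rw [mul_zero]
  · intro k _ hk
    split_ifs
    · rw [E_mul_e b e he, if_neg (fun h => hk h.symm)]
    · rw [mul_zero]
  · intro h
    exact absurd (Finset.mem_univ j) h

open Classical in
include he in
omit [CompleteSpace H] in
theorem qs_mul_qs (s t : D.Om) : qs b F e s * qs b F e t = if s = t then qs b F e s else 0 := by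
  have h1 : qs b F e s * qs b F e t =
      ∑ i, if rep F (e i) = t then (if rep F (e i) = s then E b F (e i) (e i) else 0) else 0 := by
    conv_lhs => rw [qs, qs, ← qs]
    rw [Finset.mul_sum]
    refine Finset.sum_congr rfl fun i _ => ?_
    split_ifs with h2 h3
    · have := qs_mul_E b e he s i i
      rw [if_pos h3] at this
      exact this
    · have := qs_mul_E b e he s i i
      rw [if_neg h3] at this
      exact this
    · rw [mul_zero]
  rw [h1]
  split_ifs with h
  · subst h
    unfold qs
    refine Finset.sum_congr rfl fun i _ => ?_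
    split_ifs <;> rfl
  · refine Finset.sum_eq_zero fun i _ => ?_
    split_ifs with h2 h3
    · exact absurd (h3.symm.trans h2) h
    · rfl
    · rfl

include he in
theorem isStarProjection_qs (s : D.Om) : IsStarProjection (qs b F e s) := by
  classical
  constructor
  · show qs b F e s * qs b F e s = qs b F e s
    rw [qs_mul_qs b e he, if_pos rfl]
  · show star (qs b F e s) = qs b F e s
    unfold qs
    rw [star_sum]
    refine Finset.sum_congr rfl fun i _ => ?_
    split_ifs
    · rw [star_E]
    · rw [star_zero]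

omit [CompleteSpace H] in
theorem sum_qs : ∑ s ∈ cls F e, qs b F e s = ∑ i, E b F (e i) (e i) := by
  classical
  unfold qs
  rw [Finset.sum_comm]
  refine Finset.sum_congr rfl fun i _ => ?_
  rw [Finset.sum_eq_single (rep F (e i))]
  · rw [if_pos rfl]
  · intro s _ hs
    rw [if_neg (fun h => hs h.symm)]
  · intro h
    exact absurd (Finset.mem_image.2 ⟨i, Finset.mem_univ i, rfl⟩) h

open Classical in
/-- the pinched representation -/
noncomputable def psi (F : Finset J) (e : Fin n → D.Om) (c : KK n →L[ℂ] KK n) : H →L[ℂ] H :=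
  ∑ i, ∑ j, if chEq F (e i) (e j) then co i j c • E b F (e i) (e j) else 0

theorem psi_eq (c : KK n →L[ℂ] KK n) :
    psi b F e c = ∑ s ∈ cls F e, qs b F e s * iot b e he c * qs b F e s := by
  classical
  have h1 : ∀ s ∈ cls F e, qs b F e s * iot b e he c * qs b F e s =
      ∑ i, ∑ j, if rep F (e i) = s ∧ rep F (e j) = s then co i j c • E b F (e i) (e j) else 0 := by
    intro s _
    rw [iot_apply, Finset.mul_sum, Finset.sum_mul]
    refine Finset.sum_congr rfl fun i _ => ?_
    rw [Finset.mul_sum, Finset.sum_mul]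
    refine Finset.sum_congr rfl fun j _ => ?_
    rw [mul_smul_comm, smul_mul_assoc, qs_mul_E b e he]
    by_cases h : rep F (e i) = s
    · rw [if_pos h, E_mul_qs b e he]
      by_cases h' : rep F (e j) = s
      · rw [if_pos h', if_pos ⟨h, h'⟩]
      · rw [if_neg h', if_neg (fun h2 => h' h2.2), smul_zero]
    · rw [if_neg h, if_neg (fun h2 => h h2.1), zero_mul, smul_zero]
  rw [Finset.sum_congr rfl h1, Finset.sum_comm]
  unfold psi
  refine Finset.sum_congr rfl fun i _ => ?_
  rw [Finset.sum_comm]
  refine Finset.sum_congr rfl fun j _ => ?_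
  rw [Finset.sum_eq_single (rep F (e i))]
  · by_cases h : chEq F (e i) (e j)
    · rw [if_pos h, if_pos ⟨rfl, ((rep_eq_iff F _ _).2 h).symm⟩]
    · rw [if_neg h, if_neg]
      rintro ⟨_, h2⟩
      exact h ((rep_eq_iff F _ _).1 h2.symm)
  · intro s _ hs
    rw [if_neg]
    rintro ⟨h2, _⟩
    exact hs h2.symm
  · intro h
    exact absurd (Finset.mem_image.2 ⟨i, Finset.mem_univ i, rfl⟩) h

include he in
theorem norm_psi_le (h1 : ∑ i, E b F (e i) (e i) = 1) (c : KK n →L[ℂ] KK n) :
    ‖psi b F e c‖ ≤ ‖c‖ := by
  classical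
  rw [psi_eq b e he]
  refine (norm_pinch_le (cls F e) (qs b F e) (fun s _ => isStarProjection_qs b e he s)
    (fun s _ t _ hst => by rw [qs_mul_qs b e he, if_neg hst]) ?_ _).trans
    (norm_iot_le b e he c)
  rw [sum_qs, h1]

theorem psi_mem {X : Set J} (hF : (F : Set J) ⊆ X) (c : KK n →L[ℂ] KK n) :
    psi b F e c ∈ BB b X := by
  classical
  unfold psi
  refine sum_mem fun i _ => sum_mem fun j _ => ?_
  split_ifs with h
  · exact SMulMemClass.smul_mem _ (E_mem_BB b hF h)
  · exact zero_mem _

/-- the pinched representation as a linear map -/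
noncomputable def psiL {X : Set J} (hF : (F : Set J) ⊆ X) :
    (KK n →L[ℂ] KK n) →ₗ[ℂ] BB b X where
  toFun := fun c => ⟨psi b F e c, psi_mem b e hF c⟩
  map_add' := fun c d => by
    apply Subtype.ext
    show psi b F e (c + d) = psi b F e c + psi b F e d
    unfold psi
    rw [← Finset.sum_add_distrib]
    refine Finset.sum_congr rfl fun i _ => ?_
    rw [← Finset.sum_add_distrib]
    refine Finset.sum_congr rfl fun j _ => ?_
    split_ifs
    · rw [co_add, add_smul]
    · rw [add_zero]
  map_smul' := fun m c => by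
    apply Subtype.ext
    show psi b F e (m • c) = m • psi b F e c
    unfold psi
    rw [Finset.smul_sum]
    refine Finset.sum_congr rfl fun i _ => ?_
    rw [Finset.smul_sum]
    refine Finset.sum_congr rfl fun j _ => ?_
    split_ifs
    · rw [co_smul, mul_smul]
    · rw [smul_zero]

theorem cp_psiL {X : Set J} (hF : (F : Set J) ⊆ X) : Cp (psiL b e hF) := by
  classical
  refine cp_of_rows _ fun k l a => ?_
  let y : D.Om → Fin n → Fin k → BB b X := fun s r j =>
    ⟨∑ q, if rep F (e q) = s then co r q (a j) • E b F s (e q) else 0, by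
      refine sum_mem fun q _ => ?_
      split_ifs with h
      · refine SMulMemClass.smul_mem _ (E_mem_BB b hF ?_)
        rw [← h]
        exact chEq_rep F (e q)
      · exact zero_mem _⟩
  have hy : ∀ s r j, ((y s r j : BB b X) : H →L[ℂ] H) =
      ∑ q, if rep F (e q) = s then co r q (a j) • E b F s (e q) else 0 := fun s r j => rfl
  have hyy : ∀ s r i j, ((star (y s r i) * y s r j : BB b X) : H →L[ℂ] H) =
      ∑ p, ∑ q, if rep F (e p) = s ∧ rep F (e q) = s then
        (star (co r p (a i)) * co r q (a j)) • E b F (e p) (e q) else 0 := by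
    intro s r i j
    show star ((y s r i : BB b X) : H →L[ℂ] H) * ((y s r j : BB b X) : H →L[ℂ] H) = _
    rw [hy, hy, star_sum, Finset.sum_mul]
    refine Finset.sum_congr rfl fun p _ => ?_
    rw [Finset.mul_sum]
    refine Finset.sum_congr rfl fun q _ => ?_
    by_cases h : rep F (e p) = s
    · by_cases h' : rep F (e q) = s
      · rw [if_pos h, if_pos h', if_pos ⟨h, h'⟩, star_smul, star_E, smul_mul_smul_comm,
          E_mul_pos b (agr.refl F s)]
      · have h3 : ¬ (rep F (e p) = s ∧ rep F (e q) = s) := fun h2 => h' h2.2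
        rw [if_neg h', if_neg h3, mul_zero]
    · have h3 : ¬ (rep F (e p) = s ∧ rep F (e q) = s) := fun h2 => h h2.1
      rw [if_neg h, if_neg h3, star_zero, zero_mul]
  have key : ∀ i j, psi b F e (star (a i) * a j) =
      ∑ s ∈ cls F e, ∑ r, ((star (y s r i) * y s r j : BB b X) : H →L[ℂ] H) := by
    intro i j
    have h2 : ∀ s ∈ cls F e, ∑ r, ((star (y s r i) * y s r j : BB b X) : H →L[ℂ] H) =
        ∑ p, ∑ q, if rep F (e p) = s ∧ rep F (e q) = s then
          co p q (star (a i) * a j) • E b F (e p) (e q) else 0 := by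
      intro s _
      rw [Finset.sum_congr rfl fun r _ => hyy s r i j, Finset.sum_comm]
      refine Finset.sum_congr rfl fun p _ => ?_
      rw [Finset.sum_comm]
      refine Finset.sum_congr rfl fun q _ => ?_
      split_ifs
      · rw [← Finset.sum_smul, co_mul]
        simp only [co_star]
      · exact Finset.sum_const_zero
    rw [Finset.sum_congr rfl h2, Finset.sum_comm]
    unfold psi
    refine Finset.sum_congr rfl fun p _ => ?_
    rw [Finset.sum_comm]
    refine Finset.sum_congr rfl fun q _ => ?_
    rw [Finset.sum_eq_single (rep F (e p))]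
    · by_cases h : chEq F (e p) (e q)
      · rw [if_pos h, if_pos ⟨rfl, ((rep_eq_iff F _ _).2 h).symm⟩]
      · rw [if_neg h, if_neg]
        rintro ⟨_, h2⟩
        exact h ((rep_eq_iff F _ _).1 h2.symm)
    · intro s _ hs
      rw [if_neg]
      rintro ⟨h2, _⟩
      exact hs h2.symm
    · intro h
      exact absurd (Finset.mem_image.2 ⟨p, Finset.mem_univ p, rfl⟩) h
  have e1 : (Matrix.of (fun i j => psiL b e hF (star (a i) * a j)) :
      Matrix (Fin k) (Fin k) (BB b X)) =
      ∑ s ∈ cls F e, ∑ r,
        (Matrix.of (fun i j => star (y s r i) * y s r j) : Matrix (Fin k) (Fin k) (BB b X)) := by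
    ext i j
    simp only [Matrix.sum_apply, Matrix.of_apply]
    rw [AddSubmonoidClass.coe_finset_sum]
    simp only [AddSubmonoidClass.coe_finset_sum]
    exact congrArg (fun T : H →L[ℂ] H => T) (key i j) ▸ rfl
  rw [e1]
  exact Ps.sum _ _ fun s _ => Ps.sum _ _ fun r _ => Ps.row l (y s r)

end PT

end Pool.Agent.Lib.MP_5f80dd_lc
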