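import Pool.Agent.Lib.MP_5f80dd_lc.NucB

set_option autoImplicit false

namespace Pool.Agent.Lib.MP_5f80dd_lc

open scoped InnerProductSpace ENNReal

namespace PT

variable {J G : Type} {D : PT J G} [DecidableEq J]
variable {H : Type*} [NormedAddCommGroup H] [InnerProductSpace ℂ H] [CompleteSpace H]
  (b : HilbertBasis D.Om ℂ H)

/-- the inclusion of a coordinate space -/
noncomputable def VV {n : ℕ} (e : Fin n → D.Om) : KK n →L[ℂ] H :=
  ∑ i, (innerSL ℂ (uu n i)).smulRight (b (e i))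

omit [DecidableEq J] [CompleteSpace H] in
theorem VV_apply {n : ℕ} (e : Fin n → D.Om) (x : KK n) :
    VV b e x = ∑ i, ⟪uu n i, x⟫_ℂ • b (e i) := by
  unfold VV
  rw [ContinuousLinearMap.sum_apply]
  rfl

omit [DecidableEq J] [CompleteSpace H] in
theorem VV_uu {n : ℕ} (e : Fin n → D.Om) (j : Fin n) : VV b e (uu n j) = b (e j) := by
  rw [VV_apply, Finset.sum_eq_single j]
  · rw [(uu n).inner_eq_one, one_smul]
  · intro i _ hi
    rw [(uu n).inner_eq_zero hi, zero_smul]
  · intro h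
    exact absurd (Finset.mem_univ j) h

omit [DecidableEq J] [CompleteSpace H] in
theorem norm_VV_le {n : ℕ} {e : Fin n → D.Om} (he : Function.Injective e) :
    ‖VV b e‖ ≤ 1 := by
  refine ContinuousLinearMap.opNorm_le_bound _ zero_le_one fun x => ?_
  rw [one_mul]
  refine le_of_sq_le_sq (le_of_eq ?_) (norm_nonneg _)
  have ho : Orthonormal ℂ (fun i => b (e i)) := b.orthonormal.comp e he
  have h1 : ⟪VV b e x, VV b e x⟫_ℂ = ⟪x, x⟫_ℂ := by
    rw [VV_apply, ho.inner_sum, ← (uu n).sum_inner_mul_inner]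
    refine Finset.sum_congr rfl fun i _ => ?_
    rw [inner_conj_symm]
  rw [inner_self_eq_norm_sq_to_K, inner_self_eq_norm_sq_to_K] at h1
  exact_mod_cast h1

theorem co_cmp {n : ℕ} (e : Fin n → D.Om) (A : NonUnitalStarSubalgebra ℂ (H →L[ℂ] H)) (a : A)
    (i j : Fin n) : co i j (cmp A (VV b e) a) = en b (e j) (e i) (a : H →L[ℂ] H) := by
  have h1 : co i j (cmp A (VV b e) a) = ⟪uu n i, (ContinuousLinearMap.adjoint (VV b e))
    ((a : H →L[ℂ] H) (VV b e (uu n j)))⟫_ℂ := rfl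
  rw [h1, ContinuousLinearMap.adjoint_inner_right, VV_uu, VV_uu]
  rfl

/-- exact factorisation on the stages -/
theorem psi_en {F : Finset J} {n : ℕ} {e : Fin n → D.Om} (he : ∀ i, e i ∈ conf F)
    (hinj : Function.Injective e) (hsur : ∀ v ∈ conf F, ∃ i, e i = v) {c : KK n →L[ℂ] KK n}
    {x : H →L[ℂ] H} (hx : x ∈ St b F) (hc : ∀ i j, co i j c = en b (e j) (e i) x) :
    psi b F e c = x := by
  classical
  let Λ : (H →L[ℂ] H) →ₗ[ℂ] (H →L[ℂ] H) :=
    { toFun := fun x => ∑ i, ∑ j, if chEq F (e i) (e j) then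
        en b (e j) (e i) x • E b F (e i) (e j) else 0
      map_add' := fun x y => by
        rw [← Finset.sum_add_distrib]
        refine Finset.sum_congr rfl fun i _ => ?_
        rw [← Finset.sum_add_distrib]
        refine Finset.sum_congr rfl fun j _ => ?_
        split_ifs
        · rw [map_add, add_smul]
        · rw [add_zero]
      map_smul' := fun m x => by
        rw [RingHom.id_apply, Finset.smul_sum]
        refine Finset.sum_congr rfl fun i _ => ?_
        rw [Finset.smul_sum]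
        refine Finset.sum_congr rfl fun j _ => ?_
        split_ifs
        · rw [map_smul, smul_eq_mul, mul_smul]
        · rw [smul_zero] }
  have h1 : psi b F e c = Λ x := by
    show _ = ∑ i, ∑ j, if chEq F (e i) (e j) then
        en b (e j) (e i) x • E b F (e i) (e j) else 0
    unfold psi
    refine Finset.sum_congr rfl fun i _ => Finset.sum_congr rfl fun j _ => ?_
    rw [hc]
  rw [h1]
  have h2 := St_le_of b (LinearMap.ker (Λ - LinearMap.id)) (fun v w hvw => ?_) hx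
  · have h3 : Λ x - x = 0 := h2
    exact sub_eq_zero.1 h3
  · show Λ (E b F v w) - E b F v w = 0
    rw [sub_eq_zero]
    show ∑ i, ∑ j, (if chEq F (e i) (e j) then
        en b (e j) (e i) (E b F v w) • E b F (e i) (e j) else 0) = E b F v w
    obtain ⟨i₀, hi₀⟩ := hsur _ (res_mem_conf F v)
    obtain ⟨j₀, hj₀⟩ := hsur _ (res_mem_conf F w)
    have hi1 : agr F (e i₀) v := by rw [hi₀]; exact agr_res F v
    have hj1 : agr F (e j₀) w := by rw [hj₀]; exact agr_res F w
    have hupd : ∀ i, upd F (e i) w = res F w := by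
      intro i
      apply om_ext
      intro j
      by_cases hj : j ∈ F
      · rw [va_upd_mem hj, agr_res F w j hj]
      · rw [va_upd_not_mem hj, va_res_not_mem hj, mem_conf.1 (he i) j hj]
    rw [Finset.sum_eq_single i₀, Finset.sum_eq_single j₀]
    · rw [if_pos, en_E, if_pos ⟨hi1, by rw [hupd, hj₀]⟩, one_smul, E_congr b hi1 hj1]
      intro z
      rw [ch_congr hi1, ch_congr hj1, hvw z]
    · intro j _ hj
      split_ifs
      · rw [en_E, if_neg, zero_smul]
        rintro ⟨_, h4⟩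
        rw [hupd, ← hj₀] at h4
        exact hj (hinj h4.symm)
      · rfl
    · intro h
      exact absurd (Finset.mem_univ _) h
    · intro i _ hi
      refine Finset.sum_eq_zero fun j _ => ?_
      split_ifs
      · rw [en_E, if_neg, zero_smul]
        rintro ⟨h4, _⟩
        apply hi
        apply hinj
        rw [hi₀]
        exact conf_ext (he i) (res_mem_conf F v) (h4.trans (agr_res F v).symm)
      · rfl
    · intro h
      exact absurd (Finset.mem_univ _) h

/-- nuclearity -/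
theorem nuclear_BB (X : Set J) (S : Finset (BB b X)) (ε : ℝ) (hε : 0 < ε) :
    ∃ (n : ℕ) (φ : BB b X →ₗ[ℂ] (EuclideanSpace ℂ (Fin n) →L[ℂ] EuclideanSpace ℂ (Fin n)))
      (ψ : (EuclideanSpace ℂ (Fin n) →L[ℂ] EuclideanSpace ℂ (Fin n)) →ₗ[ℂ] BB b X),
      Cp φ ∧ Cp ψ ∧ (∀ a, ‖φ a‖ ≤ ‖a‖) ∧ (∀ c, ‖ψ c‖ ≤ ‖c‖) ∧ ∀ a ∈ S, ‖ψ (φ a) - a‖ < ε := by
  classical
  have happ : ∀ a : BB b X, ∃ F : Finset J, (F : Set J) ⊆ X ∧ ∃ x ∈ St b F,
      ‖(a : H →L[ℂ] H) - x‖ < ε / 2 := by
    intro a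
    have h1 : (a : H →L[ℂ] H) ∈ closure (algX b X : Set (H →L[ℂ] H)) := a.2
    obtain ⟨x, hx, hd⟩ := Metric.mem_closure_iff.1 h1 (ε / 2) (by linarith)
    obtain ⟨F, hF, hx⟩ := (mem_algX b).1 hx
    exact ⟨F, hF, x, hx, by rwa [dist_eq_norm] at hd⟩
  choose F hF x hx hax using happ
  let F₀ : Finset J := S.biUnion F
  have hF₀ : (F₀ : Set J) ⊆ X := by
    intro j hj
    obtain ⟨a, _, hj⟩ := Finset.mem_biUnion.1 (Finset.mem_coe.1 hj)
    exact hF a hj
  have hxS : ∀ a ∈ S, x a ∈ St b F₀ := fun a ha =>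
    St_mono b (Finset.subset_biUnion_of_mem F ha) (hx a)
  let n := (conf (D := D) F₀).card
  let e₀ : Fin n ≃ conf (D := D) F₀ := (conf (D := D) F₀).equivFin.symm
  let e : Fin n → D.Om := fun i => (e₀ i).1
  have he : ∀ i, e i ∈ conf F₀ := fun i => (e₀ i).2
  have hinj : Function.Injective e := fun i j h => e₀.injective (Subtype.ext h)
  have hsur : ∀ v ∈ conf F₀, ∃ i, e i = v := by
    intro v hv
    obtain ⟨i, hi⟩ := e₀.surjective ⟨v, hv⟩
    exact ⟨i, congrArg Subtype.val hi⟩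
  have hagr : ∀ i j, agr F₀ (e i) (e j) → i = j := fun i j h =>
    hinj (conf_ext (he i) (he j) h)
  have hn : 0 < n := Finset.card_pos.2 ⟨0, mem_conf.2 fun j _ => rfl⟩
  have hsum : ∑ i, E b F₀ (e i) (e i) = (1 : H →L[ℂ] H) := by
    rw [← sum_E_diag b F₀, ← Finset.sum_coe_sort (conf F₀) (fun u => E b F₀ u u)]
    exact Fintype.sum_equiv e₀ (fun i => E b F₀ (e i) (e i)) (fun u => E b F₀ u.1 u.1)
      fun i => rfl
  refine ⟨n, cmp (BB b X) (VV b e), psiL b e hF₀,
    cp_cmp (BB b X) (VV b e) ((uu n).orthonormal.1 ⟨0, hn⟩), cp_psiL b e hF₀,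
    norm_cmp_le (BB b X) (norm_VV_le b hinj), norm_psi_le b e hagr hsum, fun a ha => ?_⟩
  have hfix : ∀ y : BB b X, (y : H →L[ℂ] H) ∈ St b F₀ →
      psiL b e hF₀ (cmp (BB b X) (VV b e) y) = y := by
    intro y hy
    apply Subtype.ext
    exact psi_en b he hinj hsur hy fun i j => co_cmp b e (BB b X) y i j
  let y : BB b X := ⟨x a, St_le_BB b hF₀ (hxS a ha)⟩
  have hy := hfix y (hxS a ha)
  have hay : ‖a - y‖ < ε / 2 := hax a
  have h1 : psiL b e hF₀ (cmp (BB b X) (VV b e) a) - a =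
      psiL b e hF₀ (cmp (BB b X) (VV b e) (a - y)) - (a - y) := by
    rw [map_sub, map_sub, hy]
    abel
  rw [h1]
  have h2 : ‖psiL b e hF₀ (cmp (BB b X) (VV b e) (a - y))‖ ≤ ‖a - y‖ :=
    (norm_psi_le b e hagr hsum _).trans (norm_cmp_le (BB b X) (norm_VV_le b hinj) _)
  calc ‖psiL b e hF₀ (cmp (BB b X) (VV b e) (a - y)) - (a - y)‖
      ≤ ‖psiL b e hF₀ (cmp (BB b X) (VV b e) (a - y))‖ + ‖a - y‖ := norm_sub_le _ _
    _ ≤ ‖a - y‖ + ‖a - y‖ := by linarith
    _ < ε := by linarith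

end PT

end Pool.Agent.Lib.MP_5f80dd_lc
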