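import Pool.Agent.Lib.MP_5f80dd_lc.Trace

set_option autoImplicit false

namespace Pool.Agent.Lib.MP_5f80dd_lc

open scoped InnerProductSpace ENNReal

variable {H : Type*} [NormedAddCommGroup H] [InnerProductSpace ℂ H] [CompleteSpace H]
  (b : HilbertBasis JJ ℂ H)

theorem one_mem_cst {L : List ℕ → Set Lab} (hL : Mono L) : (1 : H →L[ℂ] H) ∈ cst b L hL := by
  rw [← EE_one b]
  exact EE_mem_cst b hL (by rw [lab_zero]; exact Set.empty_subset _)

/-- support of the image of a basis vector under a small subalgebra -/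
theorem support_algTF {L : List ℕ → Set Lab} (hL : Mono L) {T : Set (List ℕ)}
    {F₀ : AddSubgroup Gam} {X : H →L[ℂ] H} (hX : X ∈ algTF b L hL T F₀) (w : List ℕ)
    {h' : Gam} (hh' : h' ∈ F₀ ⊓ GG (L w)) (j : JJ)
    (hj : ∀ h ∈ F₀ ⊓ GG (L w), j ≠ (w, 0, h)) : b.repr (X (b (w, 0, h'))) j = 0 := by
  classical
  have hX' : X ∈ Submodule.span ℂ (genTF b L T F₀) := hX
  induction hX' using Submodule.span_induction with
  | zero => exact repr_zero' b j
  | add p q _ _ hp hq =>
    have e : (p + q) (b (w, 0, h')) = p (b (w, 0, h')) + q (b (w, 0, h')) := rfl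
    rw [e, repr_add', hp (by assumption), hq (by assumption), add_zero]
  | smul c p _ hp =>
    have e : (c • p) (b (w, 0, h')) = c • p (b (w, 0, h')) := rfl
    rw [e, repr_smul', hp (by assumption), mul_zero]
  | mem p hp =>
    obtain ⟨t, ht, g, hg, hlab, rfl⟩ := hp
    obtain ⟨v, m, k⟩ := j
    rw [repr_EE, repr_basis]
    split_ifs with hjj
    · have h1 : v = w := (Prod.ext_iff.1 hjj).1
      have h2 : m = 0 := (Prod.ext_iff.1 (Prod.ext_iff.1 hjj).2).1
      have h3 : k - g = h' := (Prod.ext_iff.1 (Prod.ext_iff.1 hjj).2).2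
      subst h1
      subst h2
      by_cases ht' : t <+: v
      · exfalso
        have hgv : g ∈ F₀ ⊓ GG (L v) := ⟨hg, hlab.trans (hL _ _ ht')⟩
        have hk : k = g + h' := by rw [← h3]; abel
        exact hj k (by rw [hk]; exact add_mem hgv hh') rfl
      · rw [coefE_neg ht', zero_mul]
    · rw [mul_zero]

theorem expand_algTF {L : List ℕ → Set Lab} (hL : Mono L) {T : Set (List ℕ)}
    {F₀ : AddSubgroup Gam} {X : H →L[ℂ] H} (hX : X ∈ algTF b L hL T F₀) (w : List ℕ)
    [Fintype (F₀ ⊓ GG (L w) : AddSubgroup Gam)]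
    (h' : (F₀ ⊓ GG (L w) : AddSubgroup Gam)) :
    X (b (w, 0, (h' : Gam))) = ∑ k : (F₀ ⊓ GG (L w) : AddSubgroup Gam),
      b.repr (X (b (w, 0, (h' : Gam)))) (w, 0, (k : Gam)) • b (w, 0, (k : Gam)) := by
  classical
  apply hb_ext b
  intro j
  have hsum : b.repr (∑ k : (F₀ ⊓ GG (L w) : AddSubgroup Gam),
      b.repr (X (b (w, 0, (h' : Gam)))) (w, 0, (k : Gam)) • b (w, 0, (k : Gam))) j =
      ∑ k : (F₀ ⊓ GG (L w) : AddSubgroup Gam),
      b.repr (X (b (w, 0, (h' : Gam)))) (w, 0, (k : Gam)) * (if j = (w, 0, (k : Gam)) then 1 else 0)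
      := by
    rw [← inner_basis, inner_sum]
    refine Finset.sum_congr rfl fun k _ => ?_
    rw [inner_basis, repr_smul', repr_basis]
  rw [hsum]
  by_cases hj : ∃ h ∈ F₀ ⊓ GG (L w), j = (w, 0, h)
  · obtain ⟨h, hh, rfl⟩ := hj
    rw [Finset.sum_eq_single (⟨h, hh⟩ : (F₀ ⊓ GG (L w) : AddSubgroup Gam))]
    · simp
    · intro k _ hk
      have : ¬ (((w, 0, h) : JJ) = (w, 0, (k : Gam))) := by
        intro h2
        apply hk
        exact Subtype.ext ((Prod.ext_iff.1 (Prod.ext_iff.1 h2).2).2).symm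
      rw [if_neg this, mul_zero]
    · intro h2
      exact absurd (Finset.mem_univ _) h2
  · push Not at hj
    rw [support_algTF b hL hX w h'.2 j hj]
    symm
    apply Finset.sum_eq_zero
    intro k _
    rw [if_neg (hj k k.2), mul_zero]

/-- traces of projections are rational with controlled denominators -/
theorem tau_rational {L : List ℕ → Set Lab} (hL : Mono L) {q : H →L[ℂ] H}
    (hq : IsStarProjection q) (hqS : q ∈ cst b L hL) (w : List ℕ) :
    ∃ (n : ℕ) (F : AddSubgroup Gam), Finite F ∧ F ≤ GG (L w) ∧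
      tau b (w, 0, 0) q * (Nat.card F : ℂ) = n := by
  classical
  -- a self-adjoint approximation
  obtain ⟨x, hx, hxq⟩ : ∃ x ∈ alg b L hL, ‖q - x‖ ≤ 1 / 20 := by
    have h1 : q ∈ closure (alg b L hL : Set (H →L[ℂ] H)) := hqS
    obtain ⟨x, hx, hxq⟩ := Metric.mem_closure_iff.1 h1 (1 / 20) (by norm_num)
    exact ⟨x, hx, by rw [← dist_eq_norm]; exact hxq.le⟩
  set y : H →L[ℂ] H := (1 / 2 : ℂ) • (x + star x) with hy
  have hyalg : y ∈ alg b L hL := SMulMemClass.smul_mem _ (add_mem hx (star_mem hx))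
  have hysa : IsSelfAdjoint y := by
    show star y = y
    rw [hy, star_smul, star_add, star_star, add_comm]
    congr 1
    simp
  have hyq : ‖q - y‖ ≤ 1 / 20 := by
    have hqs : star q = q := hq.isSelfAdjoint
    have h1 : q - y = (1 / 2 : ℂ) • ((q - x) + star (q - x)) := by
      rw [star_sub, hqs, hy]
      have : (1 / 2 : ℂ) • ((q - x) + (q - star x)) =
          ((1 / 2 : ℂ) + (1 / 2 : ℂ)) • q - (1 / 2 : ℂ) • (x + star x) := by
        rw [smul_add, smul_sub, smul_sub, add_smul, smul_add]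
        abel
      rw [this]
      norm_num
    rw [h1, norm_smul]
    have h2 : ‖(q - x) + star (q - x)‖ ≤ 1 / 20 + 1 / 20 :=
      (norm_add_le _ _).trans (add_le_add hxq (by rw [norm_star]; exact hxq))
    have h3 : ‖(1 / 2 : ℂ)‖ = 1 / 2 := by norm_num
    rw [h3]
    linarith
  obtain ⟨T, F₀, hT, hF₀, hyD⟩ := exists_finite_algTF b hL hyalg
  have hfd := finiteDimensional_algTF b hL hT hF₀
  have hclosed : IsClosed (algTF b L hL T F₀ : Set (H →L[ℂ] H)) :=
    Submodule.closed_of_finiteDimensional (Submodule.span ℂ (genTF b L T F₀))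
  obtain ⟨p, hpD, hp, hpq⟩ := exists_proj_near (algTF b L hL T F₀) hclosed hq hysa hyD hyq
  have htr : tau b (w, 0, 0) q = tau b (w, 0, 0) p :=
    trace_eq_of_near (cst b L hL) (one_mem_cst b hL) (tau b (w, 0, 0))
      (fun x hx y hy => tau_comm b hL hx hy _) hq hp hqS (algTF_le_cst b hL T F₀ hpD) hpq
  set F : AddSubgroup Gam := F₀ ⊓ GG (L w) with hF
  have hFfin : Finite F := (hF₀.subset (fun g hg => hg.1)).to_subtype
  letI : Fintype F := Fintype.ofFinite F
  let M : (H →L[ℂ] H) → Matrix F F ℂ := fun X =>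
    Matrix.of fun h h' => b.repr (X (b (w, 0, (h' : Gam)))) (w, 0, (h : Gam))
  have hMidem : M p * M p = M p := by
    ext h h'
    rw [Matrix.mul_apply]
    show ∑ k : F, b.repr (p (b (w, 0, (k : Gam)))) (w, 0, (h : Gam)) *
      b.repr (p (b (w, 0, (h' : Gam)))) (w, 0, (k : Gam)) =
      b.repr (p (b (w, 0, (h' : Gam)))) (w, 0, (h : Gam))
    have h1 : p (p (b (w, 0, (h' : Gam)))) = p (b (w, 0, (h' : Gam))) := by
      have := hp.isIdempotentElem
      exact congrArg (fun Z : H →L[ℂ] H => Z (b (w, 0, (h' : Gam)))) this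
    have h2 := expand_algTF b hL hpD w h'
    have h3 : p (p (b (w, 0, (h' : Gam)))) = ∑ k : F,
        b.repr (p (b (w, 0, (h' : Gam)))) (w, 0, (k : Gam)) • p (b (w, 0, (k : Gam))) := by
      conv_lhs => rw [h2]
      rw [map_sum]
      refine Finset.sum_congr rfl fun k _ => ?_
      rw [map_smul]
    rw [← h1]
    conv_rhs => rw [h3]
    rw [← inner_basis b ((w, 0, (h : Gam)) : JJ) (∑ k : F,
        b.repr (p (b (w, 0, (h' : Gam)))) (w, 0, (k : Gam)) • p (b (w, 0, (k : Gam)))), inner_sum]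
    refine Finset.sum_congr rfl fun k _ => ?_
    rw [inner_basis, repr_smul', mul_comm, h1]
  have hdiag : ∀ h : F, M p h h = tau b (w, 0, 0) p := by
    intro h
    rw [← tau_indep b hL (algTF_le_cst b hL T F₀ hpD) w 0 (h : Gam), tau_apply]
    rfl
  have htrace : (M p).trace = (Nat.card F : ℂ) * tau b (w, 0, 0) p := by
    rw [Matrix.trace]
    simp only [Matrix.diag_apply, hdiag]
    rw [Finset.sum_const, Finset.card_univ, nsmul_eq_mul, Nat.card_eq_fintype_card]
  have hidem : IsIdempotentElem (Matrix.toLin' (M p)) := by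
    show Matrix.toLin' (M p) * Matrix.toLin' (M p) = Matrix.toLin' (M p)
    have h1 : Matrix.toLin' (M p) * Matrix.toLin' (M p) = Matrix.toLin' (M p * M p) :=
      (Matrix.toLin'_mul (M p) (M p)).symm
    rw [h1, hMidem]
  have hrank := (LinearMap.IsIdempotentElem.isProj_range (Matrix.toLin' (M p)) hidem).trace
  rw [Matrix.trace_toLin'_eq, htrace] at hrank
  refine ⟨Module.finrank ℂ (LinearMap.range (Matrix.toLin' (M p))), F, hFfin, inf_le_right, ?_⟩
  rw [htr, mul_comm]
  exact hrank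

end Pool.Agent.Lib.MP_5f80dd_lc
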