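import Pool.Agent.Lib.MP_5f80dd_lc.Chain

set_option autoImplicit false

namespace Pool.Agent.Lib.MP_5f80dd_lc

/-- the infinite sequence extending a finite one by zeros -/
def ext0 (w : List ℕ) : ℕ → ℕ := fun i => w.getD i 0

/-- the infinite boolean sequence extending a finite one -/
def extB (u : List Bool) : Cant := fun i => u.getD i false

/-- the finite initial segment of a boolean sequence -/
def restr (x : Cant) (n : ℕ) : List Bool := (List.range n).map x

theorem length_restr (x : Cant) (n : ℕ) : (restr x n).length = n := by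
  simp [restr]

theorem agree_restr (x : Cant) (n : ℕ) : agree n (extB (restr x n)) x := by
  intro i hi
  simp [extB, restr, List.getD_eq_getElem?_getD, hi]

theorem agree_ext0 {t w : List ℕ} (h : t <+: w) {n : ℕ} (hn : n ≤ t.length) :
    agree n (ext0 t) (ext0 w) := by
  intro i hi
  obtain ⟨r, rfl⟩ := h
  have : i < t.length := hi.trans_le hn
  simp [ext0, List.getD_eq_getElem?_getD, List.getElem?_append, this]

/-- shift a node by `α` -/
def addl (α : ℕ → ℕ) : List ℕ → List ℕ
  | [] => []
  | a :: t => (a + α 0) :: addl (fun i => α (i + 1)) t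

/-- inverse shift, cut at the first place where it is not possible -/
def cut (α : ℕ → ℕ) : List ℕ → List ℕ
  | [] => []
  | a :: w => if α 0 ≤ a then (a - α 0) :: cut (fun i => α (i + 1)) w else []

theorem length_addl (α : ℕ → ℕ) (t : List ℕ) : (addl α t).length = t.length := by
  induction t generalizing α with
  | nil => rfl
  | cons a t ih => simp [addl, ih]

theorem cut_addl (α : ℕ → ℕ) (t : List ℕ) : cut α (addl α t) = t := by
  induction t generalizing α with
  | nil => rfl
  | cons a t ih => simp [addl, cut, ih]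

theorem prefix_cut_iff (α : ℕ → ℕ) (t w : List ℕ) : t <+: cut α w ↔ addl α t <+: w := by
  induction t generalizing α w with
  | nil => simp [addl]
  | cons a t ih =>
    cases w with
    | nil => simp [cut, addl]
    | cons b w =>
      by_cases h : α 0 ≤ b
      · simp only [cut, addl, h, if_true, List.cons_prefix_cons, ih]
        constructor
        · rintro ⟨h1, h2⟩
          exact ⟨by omega, h2⟩
        · rintro ⟨h1, h2⟩
          exact ⟨by omega, h2⟩
      · simp only [cut, addl, h, if_false, List.prefix_nil, List.cons_prefix_cons]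
        constructor
        · intro h'
          simp at h'
        · rintro ⟨h1, _⟩
          omega

theorem agree_addl (α : ℕ → ℕ) (t : List ℕ) :
    agree t.length (ext0 (addl α t)) (fun i => ext0 t i + α i) := by
  induction t generalizing α with
  | nil => intro i hi; exact absurd hi (Nat.not_lt_zero _)
  | cons a t ih =>
    intro i hi
    cases i with
    | zero => simp [ext0, addl]
    | succ i =>
      have := ih (fun i => α (i + 1)) i (by simpa using hi)
      simpa [ext0, addl] using this

/-- the system of labels attached to a point `x` of Cantor space -/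
def LL (g : (ℕ → ℕ) → Cant × Cant) (x : Cant) (w : List ℕ) : Set (List Bool) :=
  {u | u.length ≤ w.length ∧ RR g u.length (extB u) x (ext0 w)}

variable {g : (ℕ → ℕ) → Cant × Cant}

theorem LL_mono (x : Cant) {t w : List ℕ} (h : t <+: w) : LL g x t ⊆ LL g x w := by
  rintro u ⟨h1, h2⟩
  exact ⟨h1.trans h.length_le, RR_congr (agree.refl _ _) (agree.refl _ _) (agree_ext0 h h1) h2⟩

theorem restr_mem_LL (x : Cant) (n : ℕ) (w : List ℕ) (hn : n ≤ w.length) :
    restr x n ∈ LL g x w := by
  refine ⟨by rw [length_restr]; exact hn, ?_⟩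
  rw [length_restr]
  exact RR_congr (agree_restr x n).symm (agree.refl _ _) (agree.refl _ _) (RR_refl n x (ext0 w))

theorem RR_of_restr_mem {x y : Cant} {n : ℕ} {w : List ℕ} (h : restr x n ∈ LL g y w) :
    n ≤ w.length ∧ RR g n x y (ext0 w) := by
  obtain ⟨h1, h2⟩ := h
  rw [length_restr] at h1 h2
  exact ⟨h1, RR_congr (agree_restr x n) (agree.refl _ _) (agree.refl _ _) h2⟩

theorem LL_addl {x y : Cant} {α : ℕ → ℕ} (h : ∀ n, RR g n x y α) (t : List ℕ) :
    LL g x t ⊆ LL g y (addl α t) := by
  rintro u ⟨h1, h2⟩
  refine ⟨by rw [length_addl]; exact h1, ?_⟩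
  refine RR_congr (agree.refl _ _) (agree.refl _ _) ?_ (RR_trans h2 (h u.length))
  exact ((agree_addl α t).mono h1).symm

theorem LL_congr {x y : Cant} {w : List ℕ} (h : agree w.length x y) : LL g x w = LL g y w := by
  ext u
  constructor
  · rintro ⟨h1, h2⟩
    exact ⟨h1, RR_congr (agree.refl _ _) (h.mono h1) (agree.refl _ _) h2⟩
  · rintro ⟨h1, h2⟩
    exact ⟨h1, RR_congr (agree.refl _ _) (h.symm.mono h1) (agree.refl _ _) h2⟩

/-- two maps with infinite fibres from a countable set differ by a permutation -/
theorem exists_perm_of_infinite_fibres {S W : Type} [Countable S] (p q : S → W)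
    (hp : ∀ w, (p ⁻¹' {w}).Infinite) (hq : ∀ w, (q ⁻¹' {w}).Infinite) :
    ∃ θ : S ≃ S, ∀ s, q (θ s) = p s := by
  classical
  have he : ∀ w, Nonempty ({s // p s = w} ≃ {s // q s = w}) := by
    intro w
    have i1 : Infinite {s // p s = w} := (hp w).to_subtype
    have i2 : Infinite {s // q s = w} := (hq w).to_subtype
    exact nonempty_equiv_of_countable
  let e : ∀ w, {s // p s = w} ≃ {s // q s = w} := fun w => Classical.choice (he w)
  refine ⟨((Equiv.sigmaFiberEquiv p).symm.trans (Equiv.sigmaCongrRight e)).trans
    (Equiv.sigmaFiberEquiv q), ?_⟩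
  intro s
  simp only [Equiv.trans_apply, Equiv.sigmaFiberEquiv, Equiv.coe_fn_symm_mk, Equiv.coe_fn_mk,
    Equiv.sigmaCongrRight_apply, Sigma.map]
  exact (e (p s) ⟨s, rfl⟩).2

/-- the permutation of nodes with multiplicity realising the cut -/
theorem exists_theta (α : ℕ → ℕ) :
    ∃ θ : (List ℕ × ℕ) ≃ (List ℕ × ℕ), ∀ s, (θ s).1 = cut α s.1 := by
  refine exists_perm_of_infinite_fibres (fun s : List ℕ × ℕ => cut α s.1) Prod.fst ?_ ?_
  · intro w
    have : Set.range (fun m : ℕ => ((addl α w, m) : List ℕ × ℕ)) ⊆
        (fun s : List ℕ × ℕ => cut α s.1) ⁻¹' {w} := by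
      rintro _ ⟨m, rfl⟩
      simp [cut_addl]
    refine Set.Infinite.mono this (Set.infinite_range_of_injective ?_)
    intro a b hab
    simpa using hab
  · intro w
    have : Set.range (fun m : ℕ => ((w, m) : List ℕ × ℕ)) ⊆
        (Prod.fst : List ℕ × ℕ → List ℕ) ⁻¹' {w} := by
      rintro _ ⟨m, rfl⟩
      simp
    refine Set.Infinite.mono this (Set.infinite_range_of_injective ?_)
    intro a b hab
    simpa using hab

end Pool.Agent.Lib.MP_5f80dd_lc
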