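import Pool.Agent.Lib.MP_5f80dd_lc.Emb
import Pool.Agent.Lib.MP_5f80dd_lc.Simp
import Pool.Agent.Lib.MP_5f80dd_lc.Tree

set_option autoImplicit false

namespace Pool.Agent.Lib.MP_5f80dd_lc

/-- types of sites: `none` for nodes, `inl u` for labels, `inr n` for levels -/
abbrev Ty := Option (List Bool ⊕ ℕ)

/-- the odd prime attached to a label or level -/
noncomputable def qq (l : List Bool ⊕ ℕ) : ℕ := Nat.nth Nat.Prime (Encodable.encode l + 1)

theorem qq_prime (l : List Bool ⊕ ℕ) : (qq l).Prime := Nat.prime_nth_prime _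

theorem qq_injective : Function.Injective qq := fun _ _ h =>
  Encodable.encode_injective (Nat.succ_injective
    (Nat.nth_injective Nat.infinite_setOfPred_prime h))

theorem two_lt_qq (l : List Bool ⊕ ℕ) : 2 < qq l := by
  have h2 : Nat.nth Nat.Prime 0 < Nat.nth Nat.Prime (Encodable.encode l + 1) :=
    Nat.nth_strictMono Nat.infinite_setOfPred_prime (Nat.succ_pos _)
  exact (Nat.prime_nth_prime 0).two_le.trans_lt h2

/-- sites: type, node, child, multiplicity, flag -/
abbrev Site := Ty × List ℕ × ℕ × ℕ × Bool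

/-- points: sets of dead nodes -/
abbrev Pt := List ℕ → Bool

/-- the sign of a node -/
def sg (z : Pt) (t : List ℕ) : ℤ := if t = [] then 1 else if z t = true then -1 else 1

theorem sg_sq (z : Pt) (t : List ℕ) : sg z t = 1 ∨ sg z t = -1 := by
  unfold sg
  split_ifs <;> simp

/-- multiplicity of the trivial sign -/
noncomputable def da : Ty → ℕ
  | none => 3
  | some (Sum.inl u) => (qq (Sum.inl u)) / 2 + 1
  | some (Sum.inr n) => 2 ^ (qq (Sum.inr n)) + qq (Sum.inr n)

/-- multiplicity of the other sign -/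
noncomputable def db : Ty → ℕ
  | none => 1
  | some (Sum.inl u) => (qq (Sum.inl u)) / 2
  | some (Sum.inr n) => 2 ^ (qq (Sum.inr n)) - qq (Sum.inr n)

/-- the sign of a site -/
def dc (j : Site) (z : Pt) : ℤ :=
  match j.1 with
  | none => sg z j.2.1
  | some (Sum.inl _) => sg z j.2.1
  | some (Sum.inr _) => sg z j.2.1 * sg z (j.2.1 ++ [j.2.2.1])

/-- the product type data of the construction -/
noncomputable def DD : PT Site Pt where
  a := fun j => da j.1
  b := fun j => db j.1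
  c := dc
  hb := by
    rintro ⟨ty, rest⟩
    show 1 ≤ db ty
    rcases ty with _ | (u | n)
    · exact le_rfl
    · show 1 ≤ qq (Sum.inl u) / 2
      have := two_lt_qq (Sum.inl u)
      omega
    · show 1 ≤ 2 ^ (qq (Sum.inr n)) - qq (Sum.inr n)
      have := Nat.lt_two_pow_self (n := qq (Sum.inr n))
      omega
  hab := by
    rintro ⟨ty, rest⟩
    show db ty < da ty
    rcases ty with _ | (u | n)
    · show 1 < 3
      norm_num
    · show qq (Sum.inl u) / 2 < qq (Sum.inl u) / 2 + 1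
      omega
    · show 2 ^ (qq (Sum.inr n)) - qq (Sum.inr n) < 2 ^ (qq (Sum.inr n)) + qq (Sum.inr n)
      have h1 := two_lt_qq (Sum.inr n)
      have h2 := Nat.lt_two_pow_self (n := qq (Sum.inr n))
      omega
  hc := by
    rintro ⟨ty, t, i, rest⟩ z
    rcases ty with _ | (u | n)
    · exact sg_sq z t
    · exact sg_sq z t
    · show sg z t * sg z (t ++ [i]) = 1 ∨ sg z t * sg z (t ++ [i]) = -1
      rcases sg_sq z t with h | h <;> rcases sg_sq z (t ++ [i]) with h' | h' <;>
        rw [h, h'] <;> norm_num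

/-- the odd primes which divide the supertrace of a site -/
theorem dvd_s {l : List Bool ⊕ ℕ} {j : Site} {z : Pt} (h : (qq l : ℤ) ∣ DD.s j z) :
    (∃ u, l = Sum.inl u ∧ j.1 = some (Sum.inl u) ∧ sg z j.2.1 = 1) ∨
    (∃ n, l = Sum.inr n ∧ j.1 = some (Sum.inr n) ∧
      sg z j.2.1 * sg z (j.2.1 ++ [j.2.2.1]) = -1) := by
  have hp := qq_prime l
  have hp2 := two_lt_qq l
  have hpZ : Prime (qq l : ℤ) := Nat.prime_iff_prime_int.1 hp
  have hn2 : ¬ (qq l : ℤ) ∣ 2 := by
    intro h2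
    have h3 : qq l ∣ 2 := by exact_mod_cast h2
    have := Nat.le_of_dvd (by norm_num) h3
    omega
  have hn1 : ¬ (qq l : ℤ) ∣ 1 := fun h1 => hn2 (h1.trans (by norm_num))
  have hdiff : ∀ l', (qq l : ℤ) ∣ (qq l' : ℤ) → l = l' := by
    intro l' h1
    have h3 : qq l ∣ qq l' := by exact_mod_cast h1
    exact qq_injective ((Nat.prime_dvd_prime_iff_eq hp (qq_prime l')).1 h3)
  obtain ⟨ty, t, i, rest⟩ := j
  have hs : DD.s (ty, t, i, rest) z = (da ty : ℤ) + (db ty : ℤ) * dc (ty, t, i, rest) z := rfl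
  rw [hs] at h
  rcases ty with _ | (u | n)
  · exfalso
    have e1 : (da none : ℤ) = 3 := rfl
    have e2 : (db none : ℤ) = 1 := rfl
    have e3 : dc (none, t, i, rest) z = sg z t := rfl
    rw [e1, e2, e3] at h
    rcases sg_sq z t with h' | h' <;> rw [h'] at h
    · have : (3 : ℤ) + 1 * 1 = 2 * 2 := by norm_num
      rw [this] at h
      rcases hpZ.dvd_or_dvd h with h | h <;> exact hn2 h
    · have : (3 : ℤ) + 1 * (-1) = 2 := by norm_num
      rw [this] at h
      exact hn2 h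
  · have hodd : 2 * (qq (Sum.inl u) / 2) + 1 = qq (Sum.inl u) := by
      have h1 := (qq_prime (Sum.inl u)).eq_two_or_odd
      have h2 := two_lt_qq (Sum.inl u)
      omega
    have e1 : (da (some (Sum.inl u)) : ℤ) = (qq (Sum.inl u) / 2 : ℕ) + 1 := by
      show (((qq (Sum.inl u)) / 2 + 1 : ℕ) : ℤ) = _
      push_cast
      rfl
    have e2 : (db (some (Sum.inl u)) : ℤ) = (qq (Sum.inl u) / 2 : ℕ) := rfl
    have e3 : dc (some (Sum.inl u), t, i, rest) z = sg z t := rfl
    rw [e1, e2, e3] at h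
    rcases sg_sq z t with h' | h' <;> rw [h'] at h
    · left
      have e4 : ((qq (Sum.inl u) / 2 : ℕ) : ℤ) + 1 + ((qq (Sum.inl u) / 2 : ℕ) : ℤ) * 1 =
          (qq (Sum.inl u) : ℤ) := by
        have : ((2 * (qq (Sum.inl u) / 2) + 1 : ℕ) : ℤ) = (qq (Sum.inl u) : ℤ) := by rw [hodd]
        rw [← this]
        push_cast
        ring
      rw [e4] at h
      exact ⟨u, hdiff _ h, rfl, h'⟩
    · exfalso
      have e4 : ((qq (Sum.inl u) / 2 : ℕ) : ℤ) + 1 + ((qq (Sum.inl u) / 2 : ℕ) : ℤ) * (-1) = 1 := by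
        ring
      rw [e4] at h
      exact hn1 h
  · set r := qq (Sum.inr n) with hr
    have hlt : r < 2 ^ r := Nat.lt_two_pow_self
    have e1 : (da (some (Sum.inr n)) : ℤ) = 2 ^ r + r := by
      show ((2 ^ (qq (Sum.inr n)) + qq (Sum.inr n) : ℕ) : ℤ) = _
      rw [← hr]
      push_cast
      rfl
    have e2 : (db (some (Sum.inr n)) : ℤ) = 2 ^ r - r := by
      show ((2 ^ (qq (Sum.inr n)) - qq (Sum.inr n) : ℕ) : ℤ) = _
      rw [← hr]
      push_cast [Nat.cast_sub hlt.le]
      rfl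
    have e3 : dc (some (Sum.inr n), t, i, rest) z = sg z t * sg z (t ++ [i]) := rfl
    rw [e1, e2, e3] at h
    have hcase : sg z t * sg z (t ++ [i]) = 1 ∨ sg z t * sg z (t ++ [i]) = -1 := by
      rcases sg_sq z t with h | h <;> rcases sg_sq z (t ++ [i]) with h' | h' <;>
        rw [h, h'] <;> norm_num
    rcases hcase with h' | h' <;> rw [h'] at h
    · exfalso
      have e4 : (2 : ℤ) ^ r + r + (2 ^ r - r) * 1 = 2 ^ (r + 1) := by ring
      rw [e4] at h
      exact hn2 (hpZ.dvd_of_dvd_pow h)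
    · right
      have e4 : (2 : ℤ) ^ r + r + (2 ^ r - r) * (-1) = 2 * r := by ring
      rw [e4] at h
      rcases hpZ.dvd_or_dvd h with h | h
      · exact absurd h hn2
      · exact ⟨n, hdiff _ h, rfl, h'⟩

/-- the set of sites attached to a point of Cantor space -/
def XX (g : (ℕ → ℕ) → Cant × Cant) (x : Cant) : Set Site :=
  {j | j.2.2.2.2 = true ∧ (∀ u, j.1 = some (Sum.inl u) → u ∈ LL g x j.2.1) ∧
    ∀ n, j.1 = some (Sum.inr n) → j.2.1.length = n}

variable {g : (ℕ → ℕ) → Cant × Cant}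

theorem twins_XX (x : Cant) : PT.Twins DD (XX g x) := by
  intro F hF
  obtain ⟨K, hK⟩ : ∃ K : ℕ, ∀ j ∈ F, j.2.2.2.1 < K := by
    refine ⟨(F.sup fun j => j.2.2.2.1) + 1, fun j hj => ?_⟩
    exact Nat.lt_succ_of_le (Finset.le_sup (f := fun j : Site => j.2.2.2.1) hj)
  refine ⟨fun j => (j.1, j.2.1, j.2.2.1, j.2.2.2.1 + K, j.2.2.2.2), ?_, ?_⟩
  · rintro ⟨ty, t, i, k, fl⟩ _ ⟨ty', t', i', k', fl'⟩ _ h
    simp only [Prod.mk.injEq, add_left_inj] at h
    obtain ⟨rfl, rfl, rfl, rfl, rfl⟩ := h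
    rfl
  · intro j hj
    have hjX := hF hj
    refine ⟨hjX, ?_, fun z => ?_⟩
    · intro h
      have := hK _ h
      simp only at this
      omega
    · obtain ⟨ty, t, i, k, fl⟩ := j
      rcases ty with _ | (u | n) <;> rfl

theorem addl_append (α : ℕ → ℕ) (t : List ℕ) (i : ℕ) :
    addl α (t ++ [i]) = addl α t ++ [i + α t.length] := by
  induction t generalizing α with
  | nil => rfl
  | cons a t ih => simp [addl, ih]

theorem addl_eq_nil (α : ℕ → ℕ) (t : List ℕ) : addl α t = [] ↔ t = [] := by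
  cases t <;> simp [addl]

theorem addl_injective (α : ℕ → ℕ) : Function.Injective (addl α) := by
  intro t t' h
  rw [← cut_addl α t, ← cut_addl α t', h]

theorem exists_equiv_of_infinite_fibres {A B W : Type*} [Countable A] [Countable B]
    (p : A → W) (q : B → W) (hp : ∀ w, (p ⁻¹' {w}).Infinite) (hq : ∀ w, (q ⁻¹' {w}).Infinite) :
    ∃ e : A ≃ B, ∀ a, q (e a) = p a := by
  classical
  have he : ∀ w, Nonempty ({s // p s = w} ≃ {s // q s = w}) := by
    intro w
    have i1 : Infinite {s // p s = w} := (hp w).to_subtype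
    have i2 : Infinite {s // q s = w} := (hq w).to_subtype
    exact nonempty_equiv_of_countable
  let e : ∀ w, {s // p s = w} ≃ {s // q s = w} := fun w => Classical.choice (he w)
  refine ⟨((Equiv.sigmaFiberEquiv p).symm.trans (Equiv.sigmaCongrRight e)).trans
    (Equiv.sigmaFiberEquiv q), ?_⟩
  intro s
  simp only [Equiv.trans_apply, Equiv.sigmaFiberEquiv, Equiv.coe_fn_symm_mk, Equiv.coe_fn_mk,
    Equiv.sigmaCongrRight_apply]
  exact (e (p s) ⟨s, rfl⟩).2

theorem exists_perm_extend {S W : Type*} [Countable S] (p : S → W) (T : Set S) (f : S → S)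
    (hf : Set.InjOn f T) (hp : ∀ s ∈ T, p (f s) = p s)
    (h1 : ∀ w, {s | s ∉ T ∧ p s = w}.Infinite) (h2 : ∀ w, {s | s ∉ f '' T ∧ p s = w}.Infinite) :
    ∃ θ : S ≃ S, (∀ s ∈ T, θ s = f s) ∧ ∀ s, p (θ s) = p s := by
  classical
  have i1 : ∀ w, ((fun s : (Tᶜ : Set S) => p s) ⁻¹' {w}).Infinite := by
    intro w hfin
    apply h1 w
    refine (hfin.image Subtype.val).subset ?_
    rintro s ⟨hs, hsw⟩
    exact ⟨⟨s, hs⟩, hsw, rfl⟩
  have i2 : ∀ w, ((fun s : ((f '' T)ᶜ : Set S) => p s) ⁻¹' {w}).Infinite := by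
    intro w hfin
    apply h2 w
    refine (hfin.image Subtype.val).subset ?_
    rintro s ⟨hs, hsw⟩
    exact ⟨⟨s, hs⟩, hsw, rfl⟩
  obtain ⟨e2, he2⟩ := exists_equiv_of_infinite_fibres _ _ i1 i2
  let e1 : T ≃ (f '' T : Set S) := Equiv.Set.imageOfInjOn f T hf
  let θ : S ≃ S := ((Equiv.Set.sumCompl T).symm.trans (Equiv.sumCongr e1 e2)).trans
    (Equiv.Set.sumCompl (f '' T))
  have t1 : ∀ s (hs : s ∈ T), θ s = f s := by
    intro s hs
    show (Equiv.Set.sumCompl (f '' T)) ((Equiv.sumCongr e1 e2) ((Equiv.Set.sumCompl T).symm s)) = _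
    rw [Equiv.Set.sumCompl_symm_apply_of_mem hs]
    rfl
  refine ⟨θ, t1, fun s => ?_⟩
  by_cases hs : s ∈ T
  · rw [t1 s hs, hp s hs]
  · show p ((Equiv.Set.sumCompl (f '' T)) ((Equiv.sumCongr e1 e2)
      ((Equiv.Set.sumCompl T).symm s))) = _
    rw [Equiv.Set.sumCompl_symm_apply_of_notMem hs]
    exact he2 ⟨s, hs⟩

/-- the shift of sites -/
def kap (α : ℕ → ℕ) (j : Site) : Site :=
  (j.1, addl α j.2.1, j.2.2.1 + α j.2.1.length, j.2.2.2.1, j.2.2.2.2)

theorem kap_injective (α : ℕ → ℕ) : Function.Injective (kap α) := by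
  rintro ⟨ty, t, i, k, fl⟩ ⟨ty', t', i', k', fl'⟩ h
  simp only [kap, Prod.mk.injEq] at h
  obtain ⟨rfl, h2, h3, rfl, rfl⟩ := h
  have := addl_injective α h2
  subst this
  have : i = i' := by omega
  subst this
  rfl

theorem infinite_false (ty : Ty) : {s : Site | s.2.2.2.2 = false ∧ s.1 = ty}.Infinite := by
  have : Set.range (fun k : ℕ => ((ty, [], 0, k, false) : Site)) ⊆
      {s : Site | s.2.2.2.2 = false ∧ s.1 = ty} := by
    rintro _ ⟨k, rfl⟩
    exact ⟨rfl, rfl⟩
  refine Set.Infinite.mono this (Set.infinite_range_of_injective ?_)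
  intro k k' h
  simpa using h

/-- the site permutation attached to a shift -/
theorem exists_site_perm (α : ℕ → ℕ) : ∃ θ : Site ≃ Site,
    (∀ j : Site, j.2.2.2.2 = true → θ j = kap α j) ∧ ∀ j, (θ j).1 = j.1 := by
  obtain ⟨θ, h1, h2⟩ := exists_perm_extend (fun s : Site => s.1) {s : Site | s.2.2.2.2 = true}
    (kap α) (kap_injective α).injOn (fun s _ => rfl) (fun w => by
      refine (infinite_false w).mono ?_
      rintro s ⟨hs, hw⟩
      exact ⟨by simp [hs], hw⟩) (fun w => by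
      refine (infinite_false w).mono ?_
      rintro s ⟨hs, hw⟩
      refine ⟨?_, hw⟩
      rintro ⟨s', hs', rfl⟩
      have h3 : s'.2.2.2.2 = true := hs'
      have h4 : s'.2.2.2.2 = false := hs
      rw [h3] at h4
      exact absurd h4 (by simp))
  exact ⟨θ, fun j hj => h1 j hj, h2⟩

theorem sg_addl (α : ℕ → ℕ) (z : Pt) (t : List ℕ) :
    sg z (addl α t) = sg (fun t => z (addl α t)) t := by
  unfold sg
  simp only [addl_eq_nil]

/-- forward direction -/
theorem forward {H : Type*} [NormedAddCommGroup H] [InnerProductSpace ℂ H] [CompleteSpace H]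
    (b : HilbertBasis (PT.Om DD) ℂ H) {x y : Cant} {α : ℕ → ℕ} (h : ∀ n, RR g n x y α) :
    ∃ φ : (PT.BB b (XX g x)) →⋆ₙₐ[ℂ] (PT.BB b (XX g y)), Function.Injective φ := by
  obtain ⟨θ, hθ, hty⟩ := exists_site_perm α
  refine PT.exists_emb b θ (fun j => ?_) (fun j => ?_) (fun j hj => ?_) (fun z => ?_)
  · show da (θ j).1 = da j.1
    rw [hty]
  · show db (θ j).1 = db j.1
    rw [hty]
  · rw [hθ j hj.1]
    refine ⟨hj.1, fun u hu => ?_, fun n hn => ?_⟩
    · exact LL_addl h j.2.1 (hj.2.1 u hu)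
    · show (addl α j.2.1).length = n
      rw [length_addl]
      exact hj.2.2 n hn
  · refine ⟨fun t => z (addl α t), fun j hj => ?_⟩
    rw [hθ j hj.1]
    obtain ⟨ty, t, i, k, fl⟩ := j
    rcases ty with _ | (u | n)
    · exact sg_addl α z t
    · exact sg_addl α z t
    · show sg z (addl α t) * sg z (addl α t ++ [i + α t.length]) =
        sg (fun t => z (addl α t)) t * sg (fun t => z (addl α t)) (t ++ [i])
      rw [← addl_append, sg_addl, sg_addl]

end Pool.Agent.Lib.MP_5f80dd_lc
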