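import Pool.Agent.Lib.MP_5f80dd_lc.Cfg
import Pool.Agent.Lib.MP_5f80dd_lc.Dim

set_option autoImplicit false

namespace Pool.Agent.Lib.MP_5f80dd_lc

open scoped InnerProductSpace ENNReal

namespace PT

variable {J G : Type} {D : PT J G}

/-- the sign of a configuration on `F` -/
def ch (F : Finset J) (z : G) (v : D.Om) : ℤ := ∏ j ∈ F, D.ls j (D.va v j) z

theorem ch_sq (F : Finset J) (z : G) (v : D.Om) : ch F z v = 1 ∨ ch F z v = -1 := by
  classical
  unfold ch
  induction F using Finset.induction_on with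
  | empty => left; simp
  | insert j F hj ih =>
    rw [Finset.prod_insert hj]
    rcases D.ls_sq j (D.va v j) z with h | h <;> rcases ih with h' | h' <;> rw [h, h'] <;> simp

theorem ch_congr {F : Finset J} {v w : D.Om} (h : agr F v w) (z : G) : ch F z v = ch F z w :=
  Finset.prod_congr rfl fun j hj => by rw [h j hj]

/-- equality of signs at all points -/
def chEq (F : Finset J) (v w : D.Om) : Prop := ∀ z, ch F z v = ch F z w

variable [DecidableEq J]

theorem ch_insert_up1 {F : Finset J} {j : J} (hj : j ∉ F) (z : G) (v : D.Om) {m : ℕ}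
    (hm : m < D.d j) : ch (insert j F) z (up1 v j m) = D.ls j m z * ch F z v := by
  unfold ch
  rw [Finset.prod_insert hj, va_up1_self v hm]
  congr 1
  refine Finset.prod_congr rfl fun i hi => ?_
  rw [va_up1_ne v m (ne_of_mem_of_not_mem hi hj)]

variable {H : Type*} [NormedAddCommGroup H] [InnerProductSpace ℂ H] (b : HilbertBasis D.Om ℂ H)

/-- generators of a stage -/
def gen (F : Finset J) : Set (H →L[ℂ] H) := {X | ∃ v w : D.Om, chEq F v w ∧ X = E b F v w}

/-- the restriction of a configuration -/
noncomputable def res (F : Finset J) (v : D.Om) : D.Om := upd F 0 v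

theorem agr_res (F : Finset J) (v : D.Om) : agr F (res F v) v := agr_upd F 0 v

theorem va_res_not_mem {F : Finset J} {j : J} (h : j ∉ F) (v : D.Om) : D.va (res F v) j = 0 :=
  va_upd_not_mem h 0 v

theorem finite_conf (F : Finset J) : {v : D.Om | ∀ j, j ∉ F → D.va v j = 0}.Finite := by
  have hfin : (Set.univ.pi fun j : F => {m : ℕ | m < D.d j}).Finite :=
    Set.Finite.pi fun j => Set.finite_lt_nat _
  refine Set.Finite.of_finite_image (f := fun v : D.Om => fun j : F => D.va v j) ?_ ?_
  · refine hfin.subset ?_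
    rintro _ ⟨v, _, rfl⟩ j _
    exact va_lt v j
  · intro v hv w hw hvw
    apply om_ext
    intro j
    by_cases hj : j ∈ F
    · exact congrFun hvw ⟨j, hj⟩
    · rw [hv j hj, hw j hj]

/-- the configurations supported in `F` -/
noncomputable def conf (F : Finset J) : Finset D.Om := (finite_conf (D := D) F).toFinset

theorem mem_conf {F : Finset J} {v : D.Om} : v ∈ conf F ↔ ∀ j, j ∉ F → D.va v j = 0 := by
  unfold conf
  rw [Set.Finite.mem_toFinset]
  rfl

theorem res_mem_conf (F : Finset J) (v : D.Om) : res F v ∈ conf F :=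
  mem_conf.2 fun _ hj => va_res_not_mem hj v

theorem conf_ext {F : Finset J} {v w : D.Om} (hv : v ∈ conf F) (hw : w ∈ conf F)
    (h : agr F v w) : v = w := by
  apply om_ext
  intro j
  by_cases hj : j ∈ F
  · exact h j hj
  · rw [mem_conf.1 hv j hj, mem_conf.1 hw j hj]

theorem finite_gen (F : Finset J) : (gen b F).Finite := by
  refine (((conf F).finite_toSet.prod (conf F).finite_toSet).image
    (fun p : D.Om × D.Om => E b F p.1 p.2)).subset ?_
  rintro _ ⟨v, w, _, rfl⟩
  exact ⟨(res F v, res F w), ⟨res_mem_conf F v, res_mem_conf F w⟩,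
    E_congr b (agr_res F v) (agr_res F w)⟩

section

variable [CompleteSpace H]

/-- the stage algebra -/
noncomputable def St (F : Finset J) : NonUnitalStarSubalgebra ℂ (H →L[ℂ] H) where
  carrier := Submodule.span ℂ (gen b F)
  add_mem' := fun ha hb => Submodule.add_mem _ ha hb
  zero_mem' := Submodule.zero_mem _
  smul_mem' := fun c _ hx => Submodule.smul_mem _ c hx
  mul_mem' := by
    intro x y hx hy
    have hx' : x ∈ Submodule.span ℂ (gen b F) := hx
    have hy' : y ∈ Submodule.span ℂ (gen b F) := hy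
    show x * y ∈ Submodule.span ℂ (gen b F)
    induction hx' using Submodule.span_induction with
    | zero => rw [zero_mul]; exact Submodule.zero_mem _
    | add p q _ _ hp hq =>
      rw [add_mul]
      exact Submodule.add_mem _ (hp (by assumption)) (hq (by assumption))
    | smul c p _ hp =>
      rw [smul_mul_assoc]
      exact Submodule.smul_mem _ _ (hp (by assumption))
    | mem p hp =>
      obtain ⟨v, w, hvw, rfl⟩ := hp
      induction hy' using Submodule.span_induction with
      | zero => rw [mul_zero]; exact Submodule.zero_mem _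
      | add p q _ _ hp hq =>
        rw [mul_add]
        exact Submodule.add_mem _ (hp (by assumption)) (hq (by assumption))
      | smul c p _ hp =>
        rw [mul_smul_comm]
        exact Submodule.smul_mem _ _ (hp (by assumption))
      | mem p hp =>
        obtain ⟨v', w', hvw', rfl⟩ := hp
        by_cases h : agr F w v'
        · rw [E_mul_pos b h]
          refine Submodule.subset_span ⟨v, w', fun z => ?_, rfl⟩
          rw [hvw z, ch_congr h z, hvw' z]
        · rw [E_mul_neg b h]
          exact Submodule.zero_mem _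
  star_mem' := by
    intro x hx
    have hx' : x ∈ Submodule.span ℂ (gen b F) := hx
    show star x ∈ Submodule.span ℂ (gen b F)
    induction hx' using Submodule.span_induction with
    | zero => rw [star_zero]; exact Submodule.zero_mem _
    | add p q _ _ hp hq =>
      rw [star_add]
      exact Submodule.add_mem _ (hp (by assumption)) (hq (by assumption))
    | smul c p _ hp =>
      rw [star_smul]
      exact Submodule.smul_mem _ _ (hp (by assumption))
    | mem p hp =>
      obtain ⟨v, w, hvw, rfl⟩ := hp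
      rw [star_E]
      exact Submodule.subset_span ⟨w, v, fun z => (hvw z).symm, rfl⟩

theorem E_mem_St {F : Finset J} {v w : D.Om} (h : chEq F v w) : E b F v w ∈ St b F :=
  Submodule.subset_span ⟨v, w, h, rfl⟩

/-- induction principle for stages -/
theorem St_le_of {F : Finset J} (S : Submodule ℂ (H →L[ℂ] H))
    (h : ∀ v w : D.Om, chEq F v w → E b F v w ∈ S) {x : H →L[ℂ] H} (hx : x ∈ St b F) : x ∈ S := by
  have hx' : x ∈ Submodule.span ℂ (gen b F) := hx
  refine Submodule.span_le.2 ?_ hx'
  rintro _ ⟨v, w, hvw, rfl⟩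
  exact h v w hvw

theorem St_le_insert {F : Finset J} {j : J} (hj : j ∉ F) : St b F ≤ St b (insert j F) := by
  intro x hx
  refine St_le_of b ((St b (insert j F)).toSubmodule) (fun v w h => ?_) hx
  show E b F v w ∈ St b (insert j F)
  rw [E_insert b hj]
  refine sum_mem fun m hm => ?_
  refine E_mem_St b fun z => ?_
  rw [ch_insert_up1 hj z v (Finset.mem_range.1 hm), ch_insert_up1 hj z w (Finset.mem_range.1 hm),
    h z]

theorem St_mono {F F' : Finset J} (h : F ⊆ F') : St b F ≤ St b F' := by
  have key : ∀ K : Finset J, St b F ≤ St b (F ∪ K) := by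
    intro K
    induction K using Finset.induction_on with
    | empty => rw [Finset.union_empty]
    | insert j K _ ih =>
      rw [Finset.union_insert]
      by_cases hj : j ∈ F ∪ K
      · rw [Finset.insert_eq_of_mem hj]
        exact ih
      · exact ih.trans (St_le_insert b hj)
  have := key F'
  rwa [Finset.union_eq_right.2 h] at this

theorem one_mem_St (F : Finset J) : (1 : H →L[ℂ] H) ∈ St b F := by
  refine St_mono b (Finset.empty_subset F) ?_
  rw [← E_empty b 0 0]
  exact E_mem_St b fun z => rfl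

theorem finiteDimensional_St (F : Finset J) :
    FiniteDimensional ℂ (Submodule.span ℂ (gen b F)) :=
  FiniteDimensional.span_of_finite ℂ (finite_gen b F)

theorem isClosed_St (F : Finset J) : IsClosed (St b F : Set (H →L[ℂ] H)) := by
  have := finiteDimensional_St b F
  exact Submodule.closed_of_finiteDimensional (Submodule.span ℂ (gen b F))

/-- the dense subalgebra attached to a set of sites -/
noncomputable def algX (X : Set J) : NonUnitalStarSubalgebra ℂ (H →L[ℂ] H) :=
  ⨆ F : {F : Finset J // (F : Set J) ⊆ X}, St b F.1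

theorem directed_St (X : Set J) :
    Directed (· ≤ ·) fun F : {F : Finset J // (F : Set J) ⊆ X} => St b F.1 := by
  intro F F'
  exact ⟨⟨F.1 ∪ F'.1, by
    rw [Finset.coe_union]
    exact Set.union_subset F.2 F'.2⟩, St_mono b Finset.subset_union_left,
    St_mono b Finset.subset_union_right⟩

instance (X : Set J) : Nonempty {F : Finset J // (F : Set J) ⊆ X} := ⟨⟨∅, by simp⟩⟩

theorem coe_algX (X : Set J) : (algX b X : Set (H →L[ℂ] H)) =
    ⋃ F : {F : Finset J // (F : Set J) ⊆ X}, (St b F.1 : Set (H →L[ℂ] H)) :=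
  NonUnitalStarSubalgebra.coe_iSup_of_directed (directed_St b X)

theorem mem_algX {X : Set J} {x : H →L[ℂ] H} :
    x ∈ algX b X ↔ ∃ F : Finset J, (F : Set J) ⊆ X ∧ x ∈ St b F := by
  rw [← SetLike.mem_coe, coe_algX, Set.mem_iUnion]
  constructor
  · rintro ⟨⟨F, hF⟩, hx⟩
    exact ⟨F, hF, hx⟩
  · rintro ⟨F, hF, hx⟩
    exact ⟨⟨F, hF⟩, hx⟩

/-- the C*-algebra attached to a set of sites -/
noncomputable def BB (X : Set J) : NonUnitalStarSubalgebra ℂ (H →L[ℂ] H) :=
  (algX b X).topologicalClosure

theorem St_le_BB {X : Set J} {F : Finset J} (hF : (F : Set J) ⊆ X) : St b F ≤ BB b X :=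
  fun _ hx => (algX b X).le_topologicalClosure ((mem_algX b).2 ⟨F, hF, hx⟩)

theorem E_mem_BB {X : Set J} {F : Finset J} (hF : (F : Set J) ⊆ X) {v w : D.Om}
    (h : chEq F v w) : E b F v w ∈ BB b X := St_le_BB b hF (E_mem_St b h)

theorem one_mem_BB (X : Set J) : (1 : H →L[ℂ] H) ∈ BB b X :=
  St_le_BB b (F := ∅) (by simp) (one_mem_St b ∅)

theorem isClosed_BB (X : Set J) : IsClosed (BB b X : Set (H →L[ℂ] H)) :=
  NonUnitalStarSubalgebra.isClosed_topologicalClosure _

/-- the tower of stages -/
noncomputable def tower (X : Set J) :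
    Tower (H →L[ℂ] H) {F : Finset J // (F : Set J) ⊆ X} where
  C := BB b X
  St := fun F => St b F.1
  le := fun F F' => F.1 ⊆ F'.1
  dir := fun F F' => ⟨⟨F.1 ∪ F'.1, by
    rw [Finset.coe_union]
    exact Set.union_subset F.2 F'.2⟩, Finset.subset_union_left, Finset.subset_union_right⟩
  mono := fun _ _ h => St_mono b h
  closed := fun F => isClosed_St b F.1
  one_mem := fun F => one_mem_St b F.1
  one_mem' := one_mem_BB b X
  dense := fun x hx => by
    rw [← coe_algX]
    exact hx

end

/-- matrix entries -/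
noncomputable def en (i j : D.Om) : (H →L[ℂ] H) →L[ℂ] ℂ :=
  (innerSL ℂ (b j)) ∘L (ContinuousLinearMap.apply ℂ H (b i))

omit [DecidableEq J] in
theorem en_apply (i j : D.Om) (X : H →L[ℂ] H) : en b i j X = b.repr (X (b i)) j := by
  have : en b i j X = ⟪b j, X (b i)⟫_ℂ := rfl
  rw [this, ← b.repr_apply_apply]

omit [DecidableEq J] in
theorem repr_b [DecidableEq D.Om] (i j : D.Om) :
    b.repr (b i) j = if j = i then (1 : ℂ) else 0 := by
  rw [b.repr_self, lp.single_apply, Pi.single_apply]

open Classical in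
theorem en_E (F : Finset J) (v w i j : D.Om) :
    en b i j (E b F v w) = if agr F j v ∧ upd F j w = i then 1 else 0 := by
  rw [en_apply]
  by_cases h : agr F j v
  · rw [repr_E_pos b h, repr_b]
    simp [h]
  · rw [repr_E_neg b h]
    simp [h]

/-- the product of supertraces -/
def sF (D : PT J G) (F : Finset J) (z : G) : ℤ := ∏ j ∈ F, D.s j z

omit [DecidableEq J] in
theorem sF_ne (F : Finset J) (z : G) : ((sF D F z : ℤ) : ℂ) ≠ 0 := by
  have : sF D F z ≠ 0 := Finset.prod_ne_zero_iff.2 fun j _ => (D.s_pos j z).ne'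
  exact_mod_cast this

/-- the normalised supertrace on a stage -/
noncomputable def TT (z : G) (F : Finset J) : (H →L[ℂ] H) →L[ℂ] ℂ :=
  ((sF D F z : ℤ) : ℂ)⁻¹ • ∑ u ∈ conf F, ((ch F z u : ℤ) : ℂ) • en b u u

theorem TT_apply (z : G) (F : Finset J) (X : H →L[ℂ] H) :
    TT b z F X = ((sF D F z : ℤ) : ℂ)⁻¹ * ∑ u ∈ conf F, ((ch F z u : ℤ) : ℂ) * en b u u X := by
  simp [TT]

theorem TT_E_pos (z : G) {F : Finset J} {v w : D.Om} (h : agr F v w) :
    TT b z F (E b F v w) = ((sF D F z : ℤ) : ℂ)⁻¹ * ((ch F z v : ℤ) : ℂ) := by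
  classical
  rw [TT_apply, Finset.sum_eq_single (res F v)]
  · rw [en_E, if_pos ⟨agr_res F v, upd_self ((agr_res F v).trans h)⟩, mul_one,
      ch_congr (agr_res F v)]
  · intro u hu hne
    rw [en_E, if_neg, mul_zero]
    rintro ⟨h1, _⟩
    exact hne (conf_ext hu (res_mem_conf F v) (h1.trans (agr_res F v).symm))
  · intro h'
    exact absurd (res_mem_conf F v) h'

theorem TT_E_neg (z : G) {F : Finset J} {v w : D.Om} (h : ¬ agr F v w) :
    TT b z F (E b F v w) = 0 := by
  classical
  rw [TT_apply, Finset.sum_eq_zero, mul_zero]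
  intro u _
  rw [en_E, if_neg, mul_zero]
  rintro ⟨h1, h2⟩
  apply h
  intro j hj
  rw [← h1 j hj, ← va_upd_mem hj u w, h2]

section

variable [CompleteSpace H]

theorem TT_compat_insert (z : G) {F : Finset J} {j : J} (hj : j ∉ F) {x : H →L[ℂ] H}
    (hx : x ∈ St b F) : TT b z (insert j F) x = TT b z F x := by
  have := St_le_of b (LinearMap.ker ((TT b z (insert j F) - TT b z F : (H →L[ℂ] H) →L[ℂ] ℂ) :
      (H →L[ℂ] H) →ₗ[ℂ] ℂ)) (fun v w _ => ?_) hx
  · have h1 : TT b z (insert j F) x - TT b z F x = 0 := this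
    exact sub_eq_zero.1 h1
  · show TT b z (insert j F) (E b F v w) - TT b z F (E b F v w) = 0
    have e : TT b z (insert j F) (E b F v w) = TT b z (insert j F)
        (∑ m ∈ Finset.range (D.d j), E b (insert j F) (up1 v j m) (up1 w j m)) := by
      rw [← E_insert b hj]
    rw [e, map_sum, sub_eq_zero]
    by_cases h : agr F v w
    · rw [TT_E_pos b z h]
      have h1 : ∀ m ∈ Finset.range (D.d j),
          TT b z (insert j F) (E b (insert j F) (up1 v j m) (up1 w j m)) =
          ((sF D (insert j F) z : ℤ) : ℂ)⁻¹ * ((D.ls j m z * ch F z v : ℤ) : ℂ) := by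
        intro m hm
        have hm' := Finset.mem_range.1 hm
        rw [TT_E_pos b z, ch_insert_up1 hj z v hm']
        rw [agr_insert_up1 hj _ _ hm']
        refine ⟨fun i hi => ?_, va_up1_self v hm'⟩
        rw [va_up1_ne v m (ne_of_mem_of_not_mem hi hj)]
        exact h i hi
      rw [Finset.sum_congr rfl h1, ← Finset.mul_sum]
      have h2 : ∑ m ∈ Finset.range (D.d j), ((D.ls j m z * ch F z v : ℤ) : ℂ) =
          ((D.s j z : ℤ) : ℂ) * ((ch F z v : ℤ) : ℂ) := by
        rw [← Int.cast_sum, ← Finset.sum_mul, D.sum_ls]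
        push_cast
        rfl
      have h3 : ((sF D (insert j F) z : ℤ) : ℂ) = ((D.s j z : ℤ) : ℂ) * ((sF D F z : ℤ) : ℂ) := by
        unfold sF
        rw [Finset.prod_insert hj]
        push_cast
        rfl
      have h4 : ((D.s j z : ℤ) : ℂ) ≠ 0 := by exact_mod_cast (D.s_pos j z).ne'
      have h5 := sF_ne (D := D) F z
      rw [h2, h3]
      field_simp
    · rw [TT_E_neg b z h]
      refine Finset.sum_eq_zero fun m hm => ?_
      have hm' := Finset.mem_range.1 hm
      rw [TT_E_neg b z]
      intro h'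
      apply h
      have h2 := ((agr_insert_up1 hj _ _ hm').1 h').1
      intro i hi
      rw [← h2 i hi, va_up1_ne v m (ne_of_mem_of_not_mem hi hj)]

theorem TT_compat (z : G) {F F' : Finset J} (h : F ⊆ F') {x : H →L[ℂ] H}
    (hx : x ∈ St b F) : TT b z F' x = TT b z F x := by
  have key : ∀ K : Finset J, TT b z (F ∪ K) x = TT b z F x := by
    intro K
    induction K using Finset.induction_on with
    | empty => rw [Finset.union_empty]
    | insert j K _ ih =>
      rw [Finset.union_insert]
      by_cases hj : j ∈ F ∪ K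
      · rw [Finset.insert_eq_of_mem hj]
        exact ih
      · rw [TT_compat_insert b z hj (St_mono b Finset.subset_union_left hx)]
        exact ih
  have := key F'
  rwa [Finset.union_eq_right.2 h] at this

theorem TT_tracial (z : G) (F : Finset J) {x y : H →L[ℂ] H} (hx : x ∈ St b F)
    (hy : y ∈ St b F) : TT b z F (x * y) = TT b z F (y * x) := by
  have step : ∀ v w : D.Om, chEq F v w → ∀ y ∈ St b F,
      TT b z F (E b F v w * y) = TT b z F (y * E b F v w) := by
    intro v w hvw y hy
    let f : (H →L[ℂ] H) →L[ℂ] ℂ :=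
      (TT b z F) ∘L (ContinuousLinearMap.mul ℂ (H →L[ℂ] H) (E b F v w) -
        (ContinuousLinearMap.mul ℂ (H →L[ℂ] H)).flip (E b F v w))
    have hf : ∀ Z, f Z = TT b z F (E b F v w * Z) - TT b z F (Z * E b F v w) := by
      intro Z
      show TT b z F (E b F v w * Z - Z * E b F v w) = _
      rw [map_sub]
    have := St_le_of b (LinearMap.ker (f : (H →L[ℂ] H) →ₗ[ℂ] ℂ)) (fun v' w' hvw' => ?_) hy
    · have h1 : f y = 0 := this
      rw [hf] at h1
      exact sub_eq_zero.1 h1
    · show f (E b F v' w') = 0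
      rw [hf]
      by_cases h1 : agr F w v'
      · by_cases h2 : agr F w' v
        · rw [E_mul_pos b h1, E_mul_pos b h2, TT_E_pos b z h2.symm, TT_E_pos b z h1.symm,
            hvw z, ch_congr h1 z, sub_self]
        · rw [E_mul_pos b h1, E_mul_neg b h2, map_zero, TT_E_neg b z (fun h => h2 h.symm), sub_self]
      · by_cases h2 : agr F w' v
        · rw [E_mul_neg b h1, E_mul_pos b h2, map_zero, TT_E_neg b z (fun h => h1 h.symm), sub_self]
        · rw [E_mul_neg b h1, E_mul_neg b h2, sub_self]
  let f : (H →L[ℂ] H) →L[ℂ] ℂ :=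
    (TT b z F) ∘L ((ContinuousLinearMap.mul ℂ (H →L[ℂ] H)).flip y -
      ContinuousLinearMap.mul ℂ (H →L[ℂ] H) y)
  have hf : ∀ Z, f Z = TT b z F (Z * y) - TT b z F (y * Z) := by
    intro Z
    show TT b z F (Z * y - y * Z) = _
    rw [map_sub]
  have := St_le_of b (LinearMap.ker (f : (H →L[ℂ] H) →ₗ[ℂ] ℂ)) (fun v w hvw => ?_) hx
  · have h1 : f x = 0 := this
    rw [hf] at h1
    exact sub_eq_zero.1 h1
  · show f (E b F v w) = 0
    rw [hf, step v w hvw y hy, sub_self]

end

end PT

end Pool.Agent.Lib.MP_5f80dd_lc
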