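import Pool.Agent.Lib.MP_5f80dd_lc.Gen
import Pool.Agent.Lib.MP_5f80dd_lc.Near

set_option autoImplicit false

namespace Pool.Agent.Lib.MP_5f80dd_lc

open scoped InnerProductSpace ENNReal

variable {H : Type*} [NormedAddCommGroup H] [InnerProductSpace ℂ H] (b : HilbertBasis JJ ℂ H)

/-- diagonal matrix entries as functionals -/
noncomputable def tau (i : JJ) : (H →L[ℂ] H) →L[ℂ] ℂ :=
  (innerSL ℂ (b i)) ∘L (ContinuousLinearMap.apply ℂ H (b i))

theorem tau_apply (i : JJ) (X : H →L[ℂ] H) : tau b i X = b.repr (X (b i)) i := by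
  rw [← inner_basis]
  rfl

theorem tau_EE (w : List ℕ) (m : ℕ) (h : Gam) (t : List ℕ) (g : Gam) :
    tau b (w, m, h) (EE b t g) = if t <+: w ∧ g = 0 then 1 else 0 := by
  rw [tau_apply, repr_EE, repr_basis]
  by_cases hg : g = 0
  · subst hg
    by_cases ht : t <+: w
    · rw [coefE_pos ht, bet_zero_left]
      simp [ht]
    · rw [coefE_neg ht]
      simp [ht]
  · have : ¬ ((w, m, h - g) = ((w, m, h) : JJ)) := by
      intro h'
      apply hg
      have h1 : h - g = h := (Prod.ext_iff.1 (Prod.ext_iff.1 h').2).2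
      exact sub_eq_self.1 h1
    rw [if_neg this]
    simp [hg]

section

variable [CompleteSpace H]

theorem tau_indep {L : List ℕ → Set Lab} (hL : Mono L) {X : H →L[ℂ] H} (hX : X ∈ cst b L hL)
    (w : List ℕ) (m : ℕ) (h : Gam) : tau b (w, m, h) X = tau b (w, 0, 0) X := by
  have := cst_le_of_closed b hL
    (LinearMap.ker ((tau b (w, m, h) - tau b (w, 0, 0) : (H →L[ℂ] H) →L[ℂ] ℂ) :
      (H →L[ℂ] H) →ₗ[ℂ] ℂ)) ?_ ?_ hX
  · have h1 : tau b (w, m, h) X - tau b (w, 0, 0) X = 0 := this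
    exact sub_eq_zero.1 h1
  · exact ContinuousLinearMap.isClosed_ker (tau b (w, m, h) - tau b (w, 0, 0))
  · intro t g _
    show tau b (w, m, h) (EE b t g) - tau b (w, 0, 0) (EE b t g) = 0
    rw [tau_EE, tau_EE, sub_self]

theorem bet_neg_right (g h : Gam) : bet g (-h) = (starRingEnd ℂ) (bet g h) := by
  have h1 : bet g (-h) * bet g h = 1 := by
    rw [← bet_add_right, neg_add_cancel, bet_zero_right]
  have h2 : (starRingEnd ℂ) (bet g h) * bet g h = 1 := by
    rw [mul_comm, Complex.mul_conj, Complex.normSq_eq_norm_sq, norm_bet]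
    simp
  exact mul_right_cancel₀ (bet_ne_zero g h) (h1.trans h2.symm)

theorem tau_comm_EE (i : JJ) (t t' : List ℕ) (g g' : Gam) :
    tau b i (EE b t g * EE b t' g') = tau b i (EE b t' g' * EE b t g) := by
  obtain ⟨w, m, h⟩ := i
  have key : bet g g' * (if g + g' = 0 then (1 : ℂ) else 0) =
      bet g' g * (if g' + g = 0 then (1 : ℂ) else 0) := by
    rw [add_comm g' g]
    split_ifs with h0
    · have : g' = -g := (neg_eq_of_add_eq_zero_right h0).symm
      rw [this, bet_neg_right, bet_neg_left]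
    · simp
  by_cases h1 : t <+: t'
  · rw [EE_mul_of_prefix b h1, EE_mul_of_prefix' b h1, map_smul, map_smul, tau_EE, tau_EE]
    by_cases h2 : t' <+: w
    · simpa [h2] using key
    · simp [h2]
  · by_cases h2 : t' <+: t
    · rw [EE_mul_of_prefix' b h2, EE_mul_of_prefix b h2, map_smul, map_smul, tau_EE, tau_EE]
      by_cases h3 : t <+: w
      · simpa [h3] using key
      · simp [h3]
    · rw [EE_mul_of_not b h1 h2, EE_mul_of_not b h2 h1]

theorem tau_comm {L : List ℕ → Set Lab} (hL : Mono L) {X Y : H →L[ℂ] H}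
    (hX : X ∈ cst b L hL) (hY : Y ∈ cst b L hL) (i : JJ) :
    tau b i (X * Y) = tau b i (Y * X) := by
  -- first fix a generator on the right
  have step : ∀ t g, lab g ⊆ L t → ∀ X ∈ cst b L hL,
      tau b i (X * EE b t g) = tau b i (EE b t g * X) := by
    intro t g _ X hX
    let f : (H →L[ℂ] H) →L[ℂ] ℂ :=
      (tau b i) ∘L ((ContinuousLinearMap.mul ℂ (H →L[ℂ] H)).flip (EE b t g) -
        ContinuousLinearMap.mul ℂ (H →L[ℂ] H) (EE b t g))
    have hf : ∀ Z, f Z = tau b i (Z * EE b t g) - tau b i (EE b t g * Z) := by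
      intro Z
      show tau b i (Z * EE b t g - EE b t g * Z) = _
      rw [map_sub]
    have := cst_le_of_closed b hL (LinearMap.ker (f : (H →L[ℂ] H) →ₗ[ℂ] ℂ))
      (ContinuousLinearMap.isClosed_ker f) ?_ hX
    · have h1 : f X = 0 := this
      rw [hf] at h1
      exact sub_eq_zero.1 h1
    · intro t' g' _
      show f (EE b t' g') = 0
      rw [hf, tau_comm_EE, sub_self]
  let f : (H →L[ℂ] H) →L[ℂ] ℂ :=
    (tau b i) ∘L (ContinuousLinearMap.mul ℂ (H →L[ℂ] H) X -
      (ContinuousLinearMap.mul ℂ (H →L[ℂ] H)).flip X)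
  have hf : ∀ Z, f Z = tau b i (X * Z) - tau b i (Z * X) := by
    intro Z
    show tau b i (X * Z - Z * X) = _
    rw [map_sub]
  have := cst_le_of_closed b hL (LinearMap.ker (f : (H →L[ℂ] H) →ₗ[ℂ] ℂ))
    (ContinuousLinearMap.isClosed_ker f) ?_ hY
  · have h1 : f Y = 0 := this
    rw [hf] at h1
    exact sub_eq_zero.1 h1
  · intro t' g' hg'
    show f (EE b t' g') = 0
    rw [hf, step t' g' hg' X hX, sub_self]

theorem tau_proj {q : H →L[ℂ] H} (hq : IsStarProjection q) (i : JJ) :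
    tau b i q = ((‖q (b i)‖ ^ 2 : ℝ) : ℂ) := by
  have h1 : q (q (b i)) = q (b i) := by
    have := hq.isIdempotentElem
    exact congrArg (fun Z : H →L[ℂ] H => Z (b i)) this
  have h2 : ⟪b i, q (q (b i))⟫_ℂ = ⟪q (b i), q (b i)⟫_ℂ := by
    have h3 : ContinuousLinearMap.adjoint q = q := hq.isSelfAdjoint
    rw [← ContinuousLinearMap.adjoint_inner_left, h3]
  rw [tau_apply, ← inner_basis, ← h1, h2, inner_self_eq_norm_sq_to_K, h1]
  norm_cast

theorem proj_apply_eq_zero {L : List ℕ → Set Lab} (hL : Mono L) {q : H →L[ℂ] H}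
    (hq : IsStarProjection q) (hqS : q ∈ cst b L hL) {w : List ℕ} (h0 : tau b (w, 0, 0) q = 0)
    (m : ℕ) (h : Gam) : q (b (w, m, h)) = 0 := by
  have h1 := tau_proj b hq (w, m, h)
  rw [tau_indep b hL hqS, h0] at h1
  have h2 : (‖q (b (w, m, h))‖ ^ 2 : ℝ) = 0 := by exact_mod_cast h1.symm
  exact norm_eq_zero.1 (pow_eq_zero_iff (two_ne_zero) |>.1 h2)

theorem op_eq_zero_of_basis {X : H →L[ℂ] H} (h : ∀ i, X (b i) = 0) : X = 0 := by
  have h1 : Submodule.span ℂ (Set.range b) ≤ LinearMap.ker (X : H →ₗ[ℂ] H) := by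
    rw [Submodule.span_le]
    rintro _ ⟨i, rfl⟩
    exact h i
  have h2 : (Submodule.span ℂ (Set.range b)).topologicalClosure ≤
      LinearMap.ker (X : H →ₗ[ℂ] H) :=
    Submodule.topologicalClosure_minimal _ h1 (ContinuousLinearMap.isClosed_ker X)
  rw [b.dense_span] at h2
  ext ξ
  exact h2 (Submodule.mem_top (x := ξ))

theorem exists_tau_ne_zero {L : List ℕ → Set Lab} (hL : Mono L) {q : H →L[ℂ] H}
    (hq : IsStarProjection q) (hqS : q ∈ cst b L hL) (hq0 : q ≠ 0) :
    ∃ w, tau b (w, 0, 0) q ≠ 0 := by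
  by_contra hcon
  push Not at hcon
  apply hq0
  apply op_eq_zero_of_basis b
  rintro ⟨w, m, h⟩
  exact proj_apply_eq_zero b hL hq hqS (hcon w) m h

end

end Pool.Agent.Lib.MP_5f80dd_lc
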